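import Pool.Agent.ICP.St

set_option autoImplicit false

namespace Pool.Agent.ICP

open Finset

private theorem Blocks_same {D : Type} {ρ : Equiv.Perm D} {d e : D} (h : ρ d = d)
    (hs : ρ.SameCycle d e) : e = d := by
  obtain ⟨m, hm⟩ := hs
  rw [← hm]
  exact Equiv.Perm.zpow_apply_eq_self_of_apply_eq_self h m

/-- A self map of a set with four elements that acts transitively on it is a 4-cycle. -/
private theorem Blocks_four {K : Type} (nx : K × Fin 4 → K × Fin 4) (v : K × Fin 4)
    (h1 : ∀ m : ℕ, (nx^[m] v).1 = v.1) (h2 : ∀ l : Fin 4, ∃ m : ℕ, nx^[m] v = (v.1, l))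
    (h3 : ∃ m : ℕ, 0 < m ∧ nx^[m] v = v) :
    nx v ≠ v ∧ nx (nx v) ≠ v ∧ nx (nx (nx v)) ≠ v ∧ nx (nx (nx (nx v))) = v := by
  classical
  obtain ⟨m, hm0, hm⟩ := h3
  have hper : v ∈ Function.periodicPts nx := ⟨m, hm0, hm⟩
  set P := Function.minimalPeriod nx v with hP
  have hP0 : 0 < P := Function.minimalPeriod_pos_of_mem_periodicPts hper
  have himg : (range P).image (fun i => nx^[i] v) = (univ : Finset (Fin 4)).image
      (fun l => (v.1, l)) := by
    ext w
    simp only [mem_image, mem_range, mem_univ, true_and]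
    constructor
    · rintro ⟨i, _, rfl⟩
      exact ⟨(nx^[i] v).2, Prod.ext (h1 i).symm rfl⟩
    · rintro ⟨l, rfl⟩
      obtain ⟨j, hj⟩ := h2 l
      refine ⟨j % P, Nat.mod_lt _ hP0, ?_⟩
      rw [← hj]
      exact Function.iterate_mod_minimalPeriod_eq
  have hc1 : ((range P).image (fun i => nx^[i] v)).card = P := by
    rw [Finset.card_image_of_injOn, card_range]
    intro i hi j hj hij
    simp only [coe_range, Set.mem_Iio] at hi hj
    exact Function.iterate_injOn_Iio_minimalPeriod hi hj hij
  have hc2 : ((univ : Finset (Fin 4)).image (fun l => (v.1, l))).card = 4 := by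
    rw [Finset.card_image_of_injective]
    · rfl
    · intro a b hab
      exact (Prod.mk.inj hab).2
  have hP4 : P = 4 := by rw [← hc1, himg, hc2]
  have hn : ∀ i, 0 < i → i < 4 → nx^[i] v ≠ v := by
    intro i hi hi4 h
    exact Function.not_isPeriodicPt_of_pos_of_lt_minimalPeriod hi.ne' (by rw [← hP, hP4]; exact hi4) h
  have h4 : nx^[4] v = v := by
    have := Function.iterate_minimalPeriod (f := nx) (x := v)
    rwa [← hP, hP4] at this
  exact ⟨hn 1 (by norm_num) (by norm_num), hn 2 (by norm_num) (by norm_num),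
    hn 3 (by norm_num) (by norm_num), h4⟩

theorem thm_Blocks : Blocks := by
  classical
  intro K G M hG
  have hadjd : ∀ d, G.Adj (M.src d) (M.src (M.inv d)) := fun d => (hG.adj _ _).2 ⟨d, rfl, rfl⟩
  have hs : ∀ v : K × Fin 4, ∃ d, M.src d = Sum.inl v ∧ M.src (M.inv d) = Sum.inr v.1 := by
    intro v
    exact (hG.adj _ _).1 (hG.star.spoke v.1 v.2).symm
  choose s hs1 hs2 using hs
  have hsn : ∀ v, ¬ IsOut M (s v) := by
    rintro v ⟨_, w, hw⟩
    rw [hs2] at hw
    exact absurd hw (by simp)
  have hsinj : ∀ v v', s v = s v' → v = v' := by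
    intro v v' h
    have := hs1 v
    rw [h, hs1 v'] at this
    exact (Sum.inl_injective this).symm
  -- a dart at a leaf that is not out is the spoke
  have hF1 : ∀ d v, M.src d = Sum.inl v → ¬ IsOut M d → d = s v := by
    intro d v hd hn
    rcases ht : M.src (M.inv d) with w | k
    · exact absurd ⟨⟨v, hd⟩, ⟨w, ht⟩⟩ hn
    · have h1 := hadjd d
      rw [hd, ht] at h1
      have h2 := hG.star.cl k v h1.symm
      apply hG.inj
      · rw [hd, hs1]
      · rw [ht, hs2, h2]
  -- a dart at a centre is the inverse of a spoke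
  have hF2 : ∀ d k, M.src d = Sum.inr k → ∃ v, M.inv d = s v ∧ v.1 = k := by
    intro d k hd
    rcases ht : M.src (M.inv d) with v | k'
    · have h1 := hadjd d
      rw [hd, ht] at h1
      have h2 := hG.star.cl k v h1
      refine ⟨v, ?_, h2⟩
      apply hG.inj
      · rw [ht, hs1]
      · rw [M.inv_inv, hd, hs2, h2]
    · have h1 := hadjd d
      rw [hd, ht] at h1
      exact absurd h1 (hG.star.cc k k')
  have hnx : ∀ v : K × Fin 4, ∃ v', M.inv (M.rot (M.inv (s v))) = s v' ∧ v'.1 = v.1 := by
    intro v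
    apply hF2
    rw [M.src_rot, hs2]
  choose nx hnx1 hnx2 using hnx
  have hrs : ∀ v, M.rot (s v) ≠ s v := by
    intro v h
    obtain ⟨w, hw⟩ := hG.nbr v
    obtain ⟨d, hd1, hd2⟩ := (hG.adj _ _).1 hw
    have h1 : d = s v := Blocks_same h (M.rot_cyc _ _ (by rw [hs1, hd1]))
    rw [h1, hs2] at hd2
    exact absurd hd2 (by simp)
  have hfirst : ∀ v, IsOut M (M.rot (s v)) := by
    intro v
    by_contra h
    exact hrs v (hF1 _ v (by rw [M.src_rot, hs1]) h)
  let first : K × Fin 4 → Out M := fun v => ⟨M.rot (s v), hfirst v⟩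
  have hlf : ∀ d : Out M, ∃ v, M.src d.1 = Sum.inl v := fun d => d.2.1
  choose lf hlf' using hlf
  let f : Out M → Out M := fun d =>
    if h : IsOut M (M.rot d.1) then ⟨M.rot d.1, h⟩ else first (nx (lf d))
  have hf1 : ∀ d : Out M, ∀ h : IsOut M (M.rot d.1), f d = ⟨M.rot d.1, h⟩ :=
    fun d h => dif_pos h
  have hf2 : ∀ d : Out M, ¬ IsOut M (M.rot d.1) → f d = first (nx (lf d)) :=
    fun d h => dif_neg h
  have hrd : ∀ d : Out M, ¬ IsOut M (M.rot d.1) → M.rot d.1 = s (lf d) := by
    intro d h
    exact hF1 _ _ (by rw [M.src_rot, hlf']) h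
  have hfinj : Function.Injective f := by
    intro d e h
    by_cases hd : IsOut M (M.rot d.1)
    · by_cases he : IsOut M (M.rot e.1)
      · rw [hf1 d hd, hf1 e he] at h
        exact Subtype.ext (M.rot.injective (congrArg Subtype.val h))
      · rw [hf1 d hd, hf2 e he] at h
        have h1 : M.rot d.1 = M.rot (s (nx (lf e))) := congrArg Subtype.val h
        have h2 := M.rot.injective h1
        exact absurd (h2 ▸ d.2) (hsn _)
    · by_cases he : IsOut M (M.rot e.1)
      · rw [hf2 d hd, hf1 e he] at h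
        have h1 : M.rot (s (nx (lf d))) = M.rot e.1 := congrArg Subtype.val h
        have h2 := M.rot.injective h1
        exact absurd (h2.symm ▸ e.2) (hsn _)
      · rw [hf2 d hd, hf2 e he] at h
        have h1 : M.rot (s (nx (lf d))) = M.rot (s (nx (lf e))) := congrArg Subtype.val h
        have h2 := M.rot.injective h1
        rw [← hnx1, ← hnx1] at h2
        have h3 := congrArg M.inv h2
        rw [M.inv_inv, M.inv_inv] at h3
        have h4 := congrArg M.inv (M.rot.injective h3)
        rw [M.inv_inv, M.inv_inv, ← hrd d hd, ← hrd e he] at h4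
        exact Subtype.ext (M.rot.injective h4)
  let rotH : Equiv.Perm (Out M) := Equiv.ofBijective f (Finite.injective_iff_bijective.1 hfinj)
  have hrotH : ∀ d, rotH d = f d := fun d => rfl
  -- periods
  let N : K × Fin 4 → ℕ := fun v => Function.minimalPeriod M.rot (s v)
  have hperiodic : ∀ v, s v ∈ Function.periodicPts M.rot := by
    intro v
    refine ⟨orderOf M.rot, orderOf_pos _, ?_⟩
    show (M.rot)^[orderOf M.rot] (s v) = s v
    rw [Equiv.Perm.iterate_eq_pow, pow_orderOf_eq_one]
    rfl
  have hN0 : ∀ v, 0 < N v := fun v => Function.minimalPeriod_pos_of_mem_periodicPts (hperiodic v)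
  have hNs : ∀ v, (M.rot)^[N v] (s v) = s v := fun v => Function.iterate_minimalPeriod
  have hN1 : ∀ v, 2 ≤ N v := by
    intro v
    by_contra h
    have h1 : N v = 1 := by have := hN0 v; omega
    have h2 := hNs v
    rw [h1] at h2
    exact hrs v h2
  have hNinj : ∀ v i j, i < N v → j < N v → (M.rot)^[i] (s v) = (M.rot)^[j] (s v) → i = j :=
    fun v i j hi hj h => Function.iterate_injOn_Iio_minimalPeriod hi hj h
  have hsrci : ∀ v i, M.src ((M.rot)^[i] (s v)) = Sum.inl v := by
    intro v i
    induction i with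
    | zero => exact hs1 v
    | succ i ih => rw [Function.iterate_succ_apply', M.src_rot, ih]
  have hout : ∀ v i, 0 < i → i < N v → IsOut M ((M.rot)^[i] (s v)) := by
    intro v i hi hiN
    by_contra h
    have h1 := hF1 _ v (hsrci v i) h
    have h2 := hNinj v i 0 hiN (hN0 v) h1
    omega
  have hex : ∀ d v, M.src d = Sum.inl v → ∃ i, i < N v ∧ (M.rot)^[i] (s v) = d := by
    intro d v hd
    obtain ⟨m, hm⟩ := (M.rot_cyc (s v) d (by rw [hs1, hd])).exists_nat_pow_eq
    refine ⟨m % N v, Nat.mod_lt _ (hN0 v), ?_⟩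
    rw [← hm, ← Equiv.Perm.iterate_eq_pow]
    exact Function.iterate_mod_minimalPeriod_eq
  have hpow : ∀ v i, i ≤ N v - 2 → ((rotH ^ i) (first v) : Out M).1 = (M.rot)^[i + 1] (s v) := by
    intro v i
    induction i with
    | zero => intro _; rfl
    | succ i ih =>
      intro hi
      have hN1v := hN1 v
      have h1 := ih (by omega)
      rw [pow_succ', Equiv.Perm.mul_apply, hrotH]
      have h2 : IsOut M (M.rot ((rotH ^ i) (first v) : Out M).1) := by
        rw [h1, ← Function.iterate_succ_apply' (⇑M.rot)]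
        exact hout v _ (by omega) (by omega)
      rw [hf1 _ h2]
      show M.rot ((rotH ^ i) (first v) : Out M).1 = _
      rw [h1, ← Function.iterate_succ_apply' (⇑M.rot)]
  have hlfv : ∀ (d : Out M) v, M.src d.1 = Sum.inl v → lf d = v := by
    intro d v hd
    rw [hlf'] at hd
    exact Sum.inl_injective hd
  have hlfpow : ∀ v i, i ≤ N v - 2 → lf ((rotH ^ i) (first v)) = v := by
    intro v i hi
    apply hlfv
    rw [hpow v i hi]
    exact hsrci v _
  have hcinj : ∀ m : ℕ, ∀ v : K × Fin 4, (M.rot)^[m] (M.inv (s v)) = M.inv (s (nx^[m] v)) := by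
    intro m
    induction m with
    | zero => intro v; rfl
    | succ m ih =>
      intro v
      rw [Function.iterate_succ_apply', Function.iterate_succ_apply', ih, ← hnx1, M.inv_inv]
  refine ⟨rotH, lf, first, fun v => N v - 2, nx, ?_, hlf', ?_, hlfpow, ?_, ?_, ?_, ?_⟩
  · intro d
    by_cases h : IsOut M (M.rot d.1)
    · left
      refine ⟨h, ?_⟩
      rw [hrotH, hf1 d h]
    · right
      refine ⟨h, ?_⟩
      rw [hrotH, hf2 d h]
      show M.rot (s (nx (lf d))) = _
      rw [← hnx1, hrd d h]
  · intro d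
    by_cases h : IsOut M (M.rot d.1)
    · have : lf (rotH d) = lf d := by
        apply hlfv
        rw [hrotH, hf1 d h]
        show M.src (M.rot d.1) = _
        rw [M.src_rot, hlf']
      rw [this]
    · have : lf (rotH d) = nx (lf d) := by
        apply hlfv
        rw [hrotH, hf2 d h]
        show M.src (M.rot (s (nx (lf d)))) = _
        rw [M.src_rot, hs1]
      rw [this, hnx2]
  · intro v i j hi hj h
    replace hi : i ≤ N v - 2 := hi
    replace hj : j ≤ N v - 2 := hj
    have h1 := congrArg Subtype.val h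
    rw [hpow v i hi, hpow v j hj] at h1
    have hN1v := hN1 v
    have := hNinj v (i + 1) (j + 1) (by omega) (by omega) h1
    omega
  · intro d
    obtain ⟨i, hi, hid⟩ := hex d.1 (lf d) (hlf' d)
    have hi0 : i ≠ 0 := by
      intro h0
      rw [h0] at hid
      have : IsOut M (s (lf d)) := by
        rw [show s (lf d) = d.1 from hid]
        exact d.2
      exact hsn _ this
    refine ⟨i - 1, show i - 1 ≤ N (lf d) - 2 by omega, ?_⟩
    apply Subtype.ext
    rw [hpow _ _ (by omega), ← hid]
    congr 1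
    omega
  · intro v
    have hN1v := hN1 v
    rw [pow_succ', Equiv.Perm.mul_apply, hrotH]
    have h1 := hpow v (N v - 2) le_rfl
    have h2 : M.rot ((rotH ^ (N v - 2)) (first v) : Out M).1 = s v := by
      rw [h1, ← Function.iterate_succ_apply' (⇑M.rot)]
      have h3 : (N v - 2 + 1).succ = N v := by omega
      rw [h3]
      exact hNs v
    rw [hf2 _ (by rw [h2]; exact hsn v), hlfpow v _ le_rfl]
  · intro v
    refine ⟨hnx2 v, ?_⟩
    have hk : ∀ m : ℕ, (nx^[m] v).1 = v.1 := by
      intro m
      induction m with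
      | zero => rfl
      | succ m ih => rw [Function.iterate_succ_apply', hnx2, ih]
    have hsI : ∀ v v', M.inv (s v) = M.inv (s v') → v = v' := by
      intro v v' h
      have := congrArg M.inv h
      rw [M.inv_inv, M.inv_inv] at this
      exact hsinj _ _ this
    apply Blocks_four nx v hk
    · intro l
      obtain ⟨m, hm⟩ := (M.rot_cyc (M.inv (s v)) (M.inv (s (v.1, l)))
        (by rw [hs2, hs2])).exists_nat_pow_eq
      refine ⟨m, ?_⟩
      rw [← Equiv.Perm.iterate_eq_pow, hcinj] at hm
      exact hsI _ _ hm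
    · refine ⟨orderOf M.rot, orderOf_pos _, ?_⟩
      have h1 := hcinj (orderOf M.rot) v
      rw [Equiv.Perm.iterate_eq_pow, pow_orderOf_eq_one] at h1
      exact (hsI _ _ h1).symm

end Pool.Agent.ICP
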