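import Pool.Agent.ICP.St

set_option autoImplicit false

namespace Pool.Agent.ICP

open Finset

theorem Closed_mono {V : Type} {G H : SimpleGraph V} (hle : ∀ u v, H.Adj u v → G.Adj u v)
    (hG : IsPlanar G) : IsPlanar H := by
  obtain ⟨M, hM, h⟩ := hG
  exact ⟨M, hM, fun u v huv => h u v (hle u v huv)⟩

theorem thm_Comap (h : Restrict) : Comap := by
  classical
  rintro V W f G ⟨M, hM, hG⟩
  obtain ⟨M', hM', g, hg, hsrc, hinv, hPg⟩ := h V M hM
    (fun d => (∃ a, f a = M.src d) ∧ ∃ b, f b = M.src (M.inv d)) (by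
      rintro d ⟨ha, hb⟩
      refine ⟨hb, ?_⟩
      rw [M.inv_inv]
      exact ha)
  have hr : ∀ d : M'.D, ∃ a, f a = M'.src d := by
    intro d
    rw [hsrc]
    exact ((hPg (g d)).2 ⟨d, rfl⟩).1
  choose s hs using hr
  have hss : ∀ d v, s d = v ↔ M'.src d = f v := by
    intro d v
    constructor
    · intro e
      rw [← hs, e]
    · intro e
      exact f.injective ((hs d).trans e)
  let M'' : RotSys W :=
    { D := M'.D
      fin := M'.fin
      dec := M'.dec
      src := s
      inv := M'.inv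
      inv_inv := M'.inv_inv
      inv_ne := M'.inv_ne
      rot := M'.rot
      src_rot := by
        intro d
        apply f.injective
        rw [hs, hs, M'.src_rot]
      rot_cyc := by
        intro d e hde
        apply M'.rot_cyc
        rw [← hs, ← hs, hde] }
  refine ⟨M'', ?_, ?_⟩
  · intro z hz hev
    refine hM' z hz ?_
    intro v
    by_cases hv : ∃ a, f a = v
    · obtain ⟨a, rfl⟩ := hv
      rw [← hev a]
      apply Finset.sum_congr _ (fun _ _ => rfl)
      ext d
      simp only [mem_filter, mem_univ, true_and]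
      exact (hss d a).symm
    · apply Finset.sum_eq_zero
      intro d hd
      simp only [mem_filter, mem_univ, true_and] at hd
      exact absurd ⟨s d, (hs d).trans hd⟩ hv
  · intro a b hab
    obtain ⟨d, hd1, hd2⟩ := hG (f a) (f b) hab
    obtain ⟨e, he⟩ := (hPg d).1 ⟨⟨a, hd1.symm⟩, ⟨b, hd2.symm⟩⟩
    refine ⟨e, (hss e a).2 ?_, (hss _ b).2 ?_⟩
    · rw [hsrc, he, hd1]
    · rw [hsrc, hinv, he, hd2]

theorem thm_Con1 (h : Contract) : Con1 := by
  classical
  rintro V G u w huw ⟨M, hM, hG⟩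
  obtain ⟨d0, h0, h1⟩ := hG u w huw
  obtain ⟨M', hM', f, hf, hsrc, hinv, hrange⟩ := h V M hM d0 (by
    rw [h0, h1]
    exact huw.ne)
  refine ⟨M', hM', ?_⟩
  have key : ∀ a b d, M.src d = a → M.src (M.inv d) = b → d ≠ d0 → d ≠ M.inv d0 → b ≠ u →
      ∃ e, M'.src e = (if a = u then w else a) ∧ M'.src (M'.inv e) = b := by
    intro a b d ha hb hd0 hd1 hbu
    obtain ⟨e, he⟩ := (hrange d).1 ⟨hd0, hd1⟩
    refine ⟨e, ?_, ?_⟩
    · rw [hsrc, he, ha, h0, h1]
    · rw [hsrc, hinv, he, hb, h0, if_neg hbu]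
  have key2 : ∀ b, G.Adj u b → b ≠ w → b ≠ u → ∃ e, M'.src e = w ∧ M'.src (M'.inv e) = b := by
    intro b hub hbw hbu
    obtain ⟨d, hd1, hd2⟩ := hG u b hub
    have := key u b d hd1 hd2 (by
      intro e
      rw [e, h1] at hd2
      exact hbw hd2.symm) (by
      intro e
      rw [e, h1] at hd1
      exact huw.ne hd1.symm) hbu
    rwa [if_pos rfl] at this
  rintro a b ⟨hab, ha, hb, hadj⟩
  have hau : a ≠ u := fun e => ha (by rw [e]; rfl)
  have hbu : b ≠ u := fun e => hb (by rw [e]; rfl)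
  rcases hadj with hadj | ⟨e1, s, hs, hadj⟩ | ⟨e1, s, hs, hadj⟩
  · obtain ⟨d, hd1, hd2⟩ := hG a b hadj
    have := key a b d hd1 hd2 (by
      intro e
      rw [e, h0] at hd1
      exact hau hd1.symm) (by
      intro e
      rw [e, M.inv_inv, h0] at hd2
      exact hbu hd2.symm) hbu
    rwa [if_neg hau] at this
  · have hs' : s = u := hs
    rw [hs'] at hadj
    rw [e1]
    exact key2 b hadj (fun e => hab (e1.trans e.symm)) hbu
  · have hs' : s = u := hs
    rw [hs'] at hadj
    obtain ⟨e, he1, he2⟩ := key2 a hadj (fun e => hab (e.trans e1.symm)) hau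
    exact ⟨M'.inv e, he2, by rw [M'.inv_inv, he1, e1]⟩

end Pool.Agent.ICP
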