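import Pool.Agent.ICP.St

set_option autoImplicit false

namespace Pool.Agent.ICP

open Finset

private theorem Common_step {K : Type} [Fintype K] [DecidableEq K] (M : KMap K) (d : M.D)
    (h : M.lf (M.rot d) ≠ M.lf d) : M.lf (M.rot d) = M.nx (M.lf d) := by
  obtain ⟨i, hi, hd⟩ := M.ex_pow d
  rcases Nat.lt_or_ge i (M.n (M.lf d)) with h1 | h1
  · exfalso
    apply h
    have h2 := M.lf_pow (M.lf d) (i + 1) h1
    rw [pow_succ', Equiv.Perm.mul_apply, ← hd] at h2
    exact h2
  · have h2 : i = M.n (M.lf d) := le_antisymm hi h1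
    have h3 := M.rot_last (M.lf d)
    rw [pow_succ', Equiv.Perm.mul_apply, ← h2, ← hd] at h3
    have h4 := M.lf_pow (M.nx (M.lf d)) 0 (Nat.zero_le _)
    rw [pow_zero, Equiv.Perm.one_apply] at h4
    rw [h3, h4]

set_option linter.unusedVariables false in
/-- (M17); the hypothesis `Single` is not used: all blocks that occur are adjacent. -/
theorem thm_Common (hs : Single) (hr : Runs) (h3 : NoThree) : Common := by
  intro K _ _ M hM v hv hv' h2 d e d' e' hd he hde hdk hd' he' hde' hdk'
  obtain ⟨j, hj, hjT⟩ := hv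
  obtain ⟨j', hj', hjT'⟩ := hv'
  obtain ⟨r1, r2, -⟩ := hr K M hM v j hj hjT
  obtain ⟨s1, -, s3⟩ := hr K M hM (M.nx v) j' hj' hjT'
  have hn : M.n v ≤ j + 2 := by
    by_contra hc
    push Not at hc
    exact h3 K M hM v (j + 1) (by omega)
      ⟨(hjT (j + 1) (by omega)).2 (by omega), (hjT (j + 1 + 1) (by omega)).2 (by omega)⟩
  have hj1 : j' ≤ 1 := by
    by_contra hc
    push Not at hc
    exact h3 K M hM (M.nx v) 0 (by omega)
      ⟨(hjT' 0 (by omega)).2 (by omega), (hjT' (0 + 1) (by omega)).2 (by omega)⟩
  have hab : M.rot (M.last v) = M.first (M.nx v) := by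
    have h4 := M.rot_last v
    rw [pow_succ', Equiv.Perm.mul_apply] at h4
    exact h4
  have hba : M.rot (M.inv (M.first (M.nx v))) = M.inv (M.last v) := by
    rw [← hab]
    exact h2
  have cl : ∀ x, M.lf x = v → (M.lf (M.inv x)).1 = (M.lf (M.inv (M.last v))).1 →
      x = M.last v ∨ (M.rot x = M.last v ∧ M.Two x) := by
    intro x hx hxk
    obtain ⟨i, hi, hxi⟩ := M.ex_pow x
    rw [hx] at hi hxi
    rcases Nat.lt_or_ge j i with h4 | h4
    · rcases Nat.lt_or_ge i (M.n v) with h5 | h5
      · right
        have h6 : M.n v = i + 1 := by omega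
        constructor
        · show M.rot x = (M.rot ^ M.n v) (M.first v)
          rw [h6, pow_succ', Equiv.Perm.mul_apply, ← hxi]
        · have h7 := (hjT i h5).2 (by omega)
          rw [← hxi] at h7
          exact h7
      · left
        have h6 : i = M.n v := le_antisymm hi h5
        rw [hxi, h6]
        rfl
    · exfalso
      apply r1
      have h5 := r2 i h4
      rw [← hxi] at h5
      rw [← h5, hxk]
  have cl' : ∀ x, M.lf x = M.nx v → (M.lf (M.inv x)).1 = (M.lf (M.inv (M.last v))).1 →
      x = M.first (M.nx v) ∨ (x = M.rot (M.first (M.nx v)) ∧ M.Two (M.first (M.nx v))) := by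
    intro x hx hxk
    obtain ⟨i, hi, hxi⟩ := M.ex_pow x
    rw [hx] at hi hxi
    rcases Nat.lt_or_ge j' i with h4 | h4
    · exfalso
      apply s1
      have h5 := s3 i h4 hi
      rw [← hxi] at h5
      rw [← h5, hxk, ← hba, M.rot_k]
    · rcases Nat.eq_zero_or_pos i with h5 | h5
      · left
        rw [hxi, h5, pow_zero, Equiv.Perm.one_apply]
      · right
        have h6 : i = 1 := by omega
        constructor
        · rw [hxi, h6, pow_one]
        · have h7 := (hjT' 0 (by omega)).2 (by omega)
          rw [pow_zero, Equiv.Perm.one_apply] at h7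
          exact h7
  have key : ∀ x y y', M.rot x = M.last v → M.Two x →
      M.lf (M.inv (M.last v)) = M.lf (M.inv y) → M.lf (M.inv x) = M.lf (M.inv y') →
      (y = M.first (M.nx v) ∨ (y = M.rot (M.first (M.nx v)) ∧ M.Two (M.first (M.nx v)))) →
      (y' = M.first (M.nx v) ∨ (y' = M.rot (M.first (M.nx v)) ∧ M.Two (M.first (M.nx v)))) →
      M.lf (M.inv (M.last v)) = M.lf (M.inv x) := by
    intro x y y' hx hT hy hy' hc hc'
    by_contra hne
    have e1 : M.rot (M.inv (M.last v)) = M.inv x := by
      rw [← hx]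
      exact hT
    have e2 : M.lf (M.inv x) = M.nx (M.lf (M.inv (M.last v))) := by
      have h4 := Common_step M (M.inv (M.last v)) (by rw [e1]; exact fun h => hne h.symm)
      rw [e1] at h4
      exact h4
    have e3 : M.lf (M.inv (M.last v)) = M.nx (M.lf (M.inv x)) := by
      rcases hc with hc | ⟨hc, hcT⟩
      · rcases hc' with hc' | ⟨hc', hcT'⟩
        · exfalso
          apply hne
          rw [hy, hy', hc, hc']
        · have e4 : M.rot (M.inv y') = M.inv y := by
            rw [hc', hc]
            exact hcT'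
          have h4 := Common_step M (M.inv y') (by rw [e4, ← hy, ← hy']; exact hne)
          rw [e4, ← hy, ← hy'] at h4
          exact h4
      · rcases hc' with hc' | ⟨hc', hcT'⟩
        · have e4 : M.rot (M.inv y') = M.inv (M.last v) := by
            rw [hc']
            exact hba
          have h4 := Common_step M (M.inv y') (by rw [e4, ← hy']; exact hne)
          rw [e4, ← hy'] at h4
          exact h4
        · exfalso
          apply hne
          rw [hy, hy', hc, hc']
    apply M.nx_ne2 (M.lf (M.inv (M.last v)))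
    rw [← e2, ← e3]
  have ce := cl' e he (by rw [← hde]; exact hdk)
  have ce' := cl' e' he' (by rw [← hde']; exact hdk')
  rcases cl d hd hdk with h4 | ⟨h4, h5⟩
  · rcases cl d' hd' hdk' with h6 | ⟨h6, h7⟩
    · rw [h4, h6]
    · rw [h4]
      exact key d' e e' h6 h7 (by rw [← h4]; exact hde) hde' ce ce'
  · rcases cl d' hd' hdk' with h6 | ⟨h6, h7⟩
    · rw [h6]
      exact (key d e' e h4 h5 (by rw [← h6]; exact hde') hde ce' ce).symm
    · rw [M.rot.injective (h4.trans h6.symm)]

end Pool.Agent.ICP
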