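import Pool.Agent.ICP.St

/-!
# ICP, module ConfigL: the configuration lemma (assembly)
-/

set_option autoImplicit false

namespace Pool.Agent.ICP

open Finset

private theorem ConfigL_runs (hR : Runs) {K : Type} [Fintype K] [DecidableEq K] (M : KMap K)
    (hrich : M.Rich) {v : K × Fin 4} (hv : M.OneJ v) :
    (M.lf (M.inv (M.first v))).1 ≠ (M.lf (M.inv (M.last v))).1 ∧
    ∀ d, M.lf d = v → (M.lf (M.inv d)).1 = (M.lf (M.inv (M.first v))).1 ∨
      (M.lf (M.inv d)).1 = (M.lf (M.inv (M.last v))).1 := by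
  obtain ⟨j, hj, hj2⟩ := hv
  obtain ⟨h1, h2, h3⟩ := hR K M hrich v j hj hj2
  refine ⟨h1, fun d hd => ?_⟩
  obtain ⟨i, hi, hdi⟩ := M.ex_pow d
  rw [hd] at hi hdi
  rw [hdi]
  rcases Nat.lt_or_ge j i with h | h
  · exact Or.inr (h3 i h hi)
  · exact Or.inl (h2 i h)

private theorem ConfigL_next {K : Type} [Fintype K] [DecidableEq K] (M : KMap K)
    {v : K × Fin 4} (hv : M.Two (M.last v)) :
    (M.lf (M.inv (M.first (M.nx v)))).1 = (M.lf (M.inv (M.last v))).1 := by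
  have h1 : M.rot (M.last v) = M.first (M.nx v) := by
    have := M.rot_last v
    rw [pow_succ'] at this
    exact this
  have h2 : M.rot (M.inv (M.rot (M.last v))) = M.inv (M.last v) := hv
  rw [h1] at h2
  rw [← h2, M.rot_k]

theorem thm_ConfigL (hM : MkKMap) (hC : Count) (hG : GoodLeaf) (hR : Runs) (hN : Common) :
    ConfigL := by
  intro K _ _ _ G hpl hst hnb
  obtain ⟨M, hA⟩ := hM K G hpl hst fun v => by
    obtain ⟨v', -, h, -⟩ := hnb v
    exact ⟨v', h⟩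
  have hrich : M.Rich := by
    intro v
    obtain ⟨v', v'', h1, h2, h3⟩ := hnb v
    obtain ⟨d, hd1, hd2⟩ := (hA v v').1 h1
    obtain ⟨e, he1, he2⟩ := (hA v v'').1 h2
    exact ⟨d, e, hd1, he1, by rw [hd2, he2]; exact h3⟩
  obtain ⟨k, hk⟩ := hC K M
  obtain ⟨v1, hv1, o1, o2, o3, t1, t2⟩ := hG K M hrich k hk
  obtain ⟨r1, s1⟩ := ConfigL_runs hR M hrich o1
  obtain ⟨r2, s2⟩ := ConfigL_runs hR M hrich o2
  obtain ⟨r3, s3⟩ := ConfigL_runs hR M hrich o3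
  rw [ConfigL_next M t1] at r2 s2
  rw [ConfigL_next M t2] at r3 s3
  have k2 : (M.nx v1).1 = k := by rw [M.nx_k, hv1]
  have k3 : (M.nx (M.nx v1)).1 = k := by rw [M.nx_k, k2]
  have p1 : (k, v1.2) = v1 := by rw [← hv1]
  have p2 : (k, (M.nx v1).2) = M.nx v1 := by rw [← k2]
  have p3 : (k, (M.nx (M.nx v1)).2) = M.nx (M.nx v1) := by rw [← k3]
  have f0 : ∀ v, M.lf (M.first v) = v := fun v => by
    have := M.lf_pow v 0 (Nat.zero_le _)
    simpa using this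
  have f1 : ∀ v, M.lf (M.last v) = v := fun v => M.lf_pow v (M.n v) le_rfl
  refine ⟨k, v1.2, (M.nx v1).2, (M.nx (M.nx v1)).2, (M.lf (M.inv (M.first v1))).1,
    (M.lf (M.inv (M.last v1))).1, (M.lf (M.inv (M.last (M.nx v1)))).1,
    (M.lf (M.inv (M.last (M.nx (M.nx v1))))).1, ?_, ?_, ?_, ?_, ?_, ?_, ?_, r1, r2, r3, ?_, ?_, ?_,
    ?_, ?_⟩
  · intro h
    exact M.nx_ne1 v1 (Prod.ext (by rw [k2, hv1]) h.symm)
  · intro h
    exact M.nx_ne1 (M.nx v1) (Prod.ext (by rw [k3, k2]) h.symm)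
  · intro h
    exact M.nx_ne2 v1 (Prod.ext (by rw [k3, hv1]) h.symm)
  · have := M.ne (M.first v1)
    rwa [f0, hv1] at this
  · have := M.ne (M.last v1)
    rwa [f1, hv1] at this
  · have := M.ne (M.last (M.nx v1))
    rwa [f1, k2] at this
  · have := M.ne (M.last (M.nx (M.nx v1)))
    rwa [f1, k3] at this
  · intro v hv
    rw [p1] at hv
    obtain ⟨d, hd1, hd2⟩ := (hA _ _).1 hv
    rw [← hd2]
    exact s1 d hd1
  · intro v hv
    rw [p2] at hv
    obtain ⟨d, hd1, hd2⟩ := (hA _ _).1 hv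
    rw [← hd2]
    exact s2 d hd1
  · intro v hv
    rw [p3] at hv
    obtain ⟨d, hd1, hd2⟩ := (hA _ _).1 hv
    rw [← hd2]
    exact s3 d hd1
  · intro m m' h1 h2 h3 h4
    rw [p1] at h1 h3
    rw [p2] at h2 h4
    obtain ⟨d, hd1, hd2⟩ := (hA _ _).1 h1
    obtain ⟨e, he1, he2⟩ := (hA _ _).1 h2
    obtain ⟨d', hd1', hd2'⟩ := (hA _ _).1 h3
    obtain ⟨e', he1', he2'⟩ := (hA _ _).1 h4
    have := hN K M hrich v1 o1 o2 t1 d e d' e' hd1 he1 (by rw [hd2, he2]) (by rw [hd2]) hd1' he1'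
      (by rw [hd2', he2']) (by rw [hd2'])
    rw [hd2, hd2'] at this
    exact (Prod.ext_iff.1 this).2
  · intro m m' h1 h2 h3 h4
    rw [p2] at h1 h3
    rw [p3] at h2 h4
    obtain ⟨d, hd1, hd2⟩ := (hA _ _).1 h1
    obtain ⟨e, he1, he2⟩ := (hA _ _).1 h2
    obtain ⟨d', hd1', hd2'⟩ := (hA _ _).1 h3
    obtain ⟨e', he1', he2'⟩ := (hA _ _).1 h4
    have := hN K M hrich (M.nx v1) o2 o3 t2 d e d' e' hd1 he1 (by rw [hd2, he2]) (by rw [hd2]) hd1'
      he1' (by rw [hd2', he2']) (by rw [hd2'])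
    rw [hd2, hd2'] at this
    exact (Prod.ext_iff.1 this).2

end Pool.Agent.ICP
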