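import Pool.Agent.ICP.St

/-!
# (M19) Configuration lemma relative to a set of stars
-/

set_option autoImplicit false

namespace Pool.Agent.ICP

open Finset

/-- The inclusion of the star vertices over a subtype. -/
private def ConfigS_emb {K : Type} (S : Finset K) : SV {k // k ∈ S} ↪ SV K where
  toFun := Sum.map (Prod.map Subtype.val id) Subtype.val
  inj' := by
    apply Sum.map_injective.2
    exact ⟨Subtype.val_injective.prodMap Function.injective_id, Subtype.val_injective⟩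

/-- The normalised star graph over the subtype. -/
private def ConfigS_graph {K : Type} (G : SimpleGraph (SV K)) (S : Finset K) :
    SimpleGraph (SV {k // k ∈ S}) where
  Adj
    | Sum.inl v, Sum.inl v' =>
        v.1 ≠ v'.1 ∧ G.Adj (Sum.inl (v.1.1, v.2)) (Sum.inl (v'.1.1, v'.2))
    | Sum.inl v, Sum.inr k => v.1 = k
    | Sum.inr k, Sum.inl v => v.1 = k
    | Sum.inr _, Sum.inr _ => False
  symm := by
    constructor
    rintro (v | k) (v' | k') h
    · exact ⟨h.1.symm, h.2.symm⟩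
    · exact h
    · exact h
    · exact h
  loopless := by
    constructor
    rintro (v | k) h
    · exact h.1 rfl
    · exact h

private theorem ConfigS_mono {V : Type} (G H : SimpleGraph V)
    (h : ∀ u v, H.Adj u v → G.Adj u v) (hG : IsPlanar G) : IsPlanar H := by
  obtain ⟨M, hM, hA⟩ := hG
  exact ⟨M, hM, fun u v huv => hA u v (h u v huv)⟩

private theorem ConfigS_planar {K : Type} (hC : Comap) (G : SimpleGraph (SV K)) (S : Finset K)
    (hG : IsPlanar G) (hS : Spokes G S) : IsPlanar (ConfigS_graph G S) := by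
  refine ConfigS_mono _ _ ?_ (hC _ _ (ConfigS_emb S) G hG)
  rintro (⟨k, l⟩ | k) (⟨k', l'⟩ | k') h
  · exact h.2
  · have h' : k = k' := h
    subst h'
    exact (hS k.1 k.2 l).symm
  · have h' : k' = k := h
    subst h'
    exact hS k'.1 k'.2 l'
  · exact h.elim

private theorem ConfigS_star {K : Type} (G : SimpleGraph (SV K)) (S : Finset K) :
    StarG (ConfigS_graph G S) where
  spoke _ _ := rfl
  cc _ _ h := h
  cl _ _ h := h
  ll _ _ h := h.1

theorem thm_ConfigS (hC : Comap) (hL : ConfigL) : ConfigS := by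
  classical
  intro K _ G S hG hS hne hP
  have : Nonempty {k // k ∈ S} := hne.to_subtype
  have hcfg := hL {k // k ∈ S} (ConfigS_graph G S) (ConfigS_planar hC G S hG hS)
    (ConfigS_star G S) (by
      rintro ⟨⟨k, hk⟩, l⟩
      have h1 := hP k hk l
      unfold Poor at h1
      push Not at h1
      obtain ⟨v, v', hv, hv', hvk, hvk', ha, ha', hne'⟩ := h1
      refine ⟨(⟨v.1, hv⟩, v.2), (⟨v'.1, hv'⟩, v'.2), ⟨?_, ha⟩, ⟨?_, ha'⟩, ?_⟩
      · intro h
        exact hvk (congrArg Subtype.val h).symm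
      · intro h
        exact hvk' (congrArg Subtype.val h).symm
      · intro h
        exact hne' (congrArg Subtype.val h))
  obtain ⟨k, l1, l2, l3, k1, k2, k3, k4, h12, h23, h13, hk1, hk2, hk3, hk4, hk12, hk23, hk34,
    hA1, hA2, hA3, hB1, hB2⟩ := hcfg
  have key : ∀ (l : Fin 4) (a b : {k // k ∈ S}),
      (∀ v, (ConfigS_graph G S).Adj (Sum.inl (k, l)) (Sum.inl v) → v.1 = a ∨ v.1 = b) →
      ∀ v : K × Fin 4, v.1 ∈ S → v.1 ≠ k.1 → G.Adj (Sum.inl (k.1, l)) (Sum.inl v) →
        v.1 = a.1 ∨ v.1 = b.1 := by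
    intro l a b hab v hv hvk hadj
    rcases hab (⟨v.1, hv⟩, v.2) ⟨fun h => hvk (congrArg Subtype.val h).symm, hadj⟩ with h | h
    · exact Or.inl (congrArg Subtype.val h)
    · exact Or.inr (congrArg Subtype.val h)
  refine ⟨k.1, k.2, l1, l2, l3, k1.1, k2.1, k3.1, k4.1, k1.2, k2.2, k3.2, k4.2, h12, h23, h13,
    fun h => hk1 (Subtype.ext h), fun h => hk2 (Subtype.ext h), fun h => hk3 (Subtype.ext h),
    fun h => hk4 (Subtype.ext h), fun h => hk12 (Subtype.ext h), fun h => hk23 (Subtype.ext h),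
    fun h => hk34 (Subtype.ext h), key l1 k1 k2 hA1, key l2 k2 k3 hA2, key l3 k3 k4 hA3, ?_, ?_⟩
  · intro m m' a1 a2 a3 a4
    exact hB1 m m' ⟨hk2.symm, a1⟩ ⟨hk2.symm, a2⟩ ⟨hk2.symm, a3⟩ ⟨hk2.symm, a4⟩
  · intro m m' a1 a2 a3 a4
    exact hB2 m m' ⟨hk3.symm, a1⟩ ⟨hk3.symm, a2⟩ ⟨hk3.symm, a3⟩ ⟨hk3.symm, a4⟩

end Pool.Agent.ICP
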