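import Pool.Agent.ICP.Restrict

set_option autoImplicit false

namespace Pool.Agent.ICP

open Finset

private theorem Contract_cyc {V : Type} (M : RotSys V) (d0 d1 : M.D) (τ : Equiv.Perm M.D)
    (hτ : ∀ x, x ≠ d0 → x ≠ d1 → τ x = M.rot x) (a : M.D) (ha : a = d0 ∨ a = d1)
    (hne : ∀ x, M.src x = M.src a → x ≠ a → x ≠ d0 ∧ x ≠ d1) :
    ∀ m : ℕ, ∀ d, M.src d = M.src a → (M.rot ^ m) d = a → τ.SameCycle d a := by
  intro m
  induction m with
  | zero =>
    intro d _ h
    have : d = a := by simpa using h
    rw [this]
  | succ m ih =>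
    intro d hd h
    by_cases hda : d = a
    · rw [hda]
    · obtain ⟨h0, h1⟩ := hne d hd hda
      have h2 : τ d = M.rot d := hτ d h0 h1
      have h3 : (M.rot ^ m) (M.rot d) = a := by
        rw [← Equiv.Perm.mul_apply, ← pow_succ]
        exact h
      have h4 := ih (M.rot d) (by rw [M.src_rot]; exact hd) h3
      have h5 : τ.SameCycle d (τ d) := ⟨1, by simp⟩
      rw [h2] at h5
      exact h5.trans h4

theorem thm_Contract (h : FirstRet) : Contract := by
  classical
  intro V inst M hM d0 hne
  obtain rfl : inst = fun a b => Classical.propDecidable (a = b) := Subsingleton.elim _ _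
  set d1 := M.inv d0 with hd1
  set u := M.src d0 with hu
  set w := M.src d1 with hw
  have h01 : d0 ≠ d1 := fun e => hne (by rw [hu, hw, ← e])
  have hi1 : M.inv d1 = d0 := M.inv_inv d0
  let τ : Equiv.Perm M.D := M.rot * Equiv.swap d0 d1
  have hτ : ∀ x, x ≠ d0 → x ≠ d1 → τ x = M.rot x := by
    intro x hx0 hx1
    show M.rot (Equiv.swap d0 d1 x) = M.rot x
    rw [Equiv.swap_apply_of_ne_of_ne hx0 hx1]
  have hτ0 : τ d0 = M.rot d1 := by
    show M.rot (Equiv.swap d0 d1 d0) = M.rot d1
    rw [Equiv.swap_apply_left]
  have hτ1 : τ d1 = M.rot d0 := by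
    show M.rot (Equiv.swap d0 d1 d1) = M.rot d0
    rw [Equiv.swap_apply_right]
  let P : M.D → Prop := fun d => d ≠ d0 ∧ d ≠ d1
  obtain ⟨ρ, h1, h2⟩ := h M.D τ P
  have hP : ∀ d, P d → P (M.inv d) := by
    rintro d ⟨ha, hb⟩
    refine ⟨fun e => hb ?_, fun e => ha ?_⟩
    · rw [hd1, ← e, M.inv_inv]
    · have := congrArg M.inv e
      rwa [M.inv_inv, hi1] at this
  have hP' : ∀ d, P (M.inv d) → P d := by
    intro d hd
    have := hP _ hd
    rwa [M.inv_inv] at this
  let s : M.D → V := fun x => if M.src x = u then w else M.src x
  have hsτ : ∀ x, s (τ x) = s x := by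
    intro x
    by_cases hx0 : x = d0
    · have e1 : M.src (τ d0) = w := by rw [hτ0, M.src_rot]
      rw [hx0]
      show (if M.src (τ d0) = u then w else M.src (τ d0)) = if M.src d0 = u then w else M.src d0
      rw [e1, if_neg (fun e => hne e.symm), if_pos rfl]
    · by_cases hx1 : x = d1
      · have e1 : M.src (τ d1) = u := by rw [hτ1, M.src_rot]
        rw [hx1]
        show (if M.src (τ d1) = u then w else M.src (τ d1)) = if M.src d1 = u then w else M.src d1
        rw [e1, if_pos rfl, if_neg (fun e => hne e.symm)]
      · show (if M.src (τ x) = u then w else M.src (τ x)) = if M.src x = u then w else M.src x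
        rw [hτ x hx0 hx1, M.src_rot]
  have hspow : ∀ (k : ℕ) x, s ((τ ^ k) x) = s x := by
    intro k x
    induction k with
    | zero => simp
    | succ k ih => rw [pow_succ', Equiv.Perm.mul_apply, hsτ, ih]
  have hC0 : ∀ d, M.src d = u → τ.SameCycle d d0 := by
    intro d hd
    obtain ⟨m, hm⟩ := (M.rot_cyc d d0 hd).exists_nat_pow_eq
    refine Contract_cyc M d0 d1 τ hτ d0 (Or.inl rfl) ?_ m d hd hm
    intro x hx hxa
    refine ⟨hxa, fun e => hne ?_⟩
    rw [e] at hx
    exact hx.symm
  have hC1 : ∀ d, M.src d = w → τ.SameCycle d d1 := by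
    intro d hd
    obtain ⟨m, hm⟩ := (M.rot_cyc d d1 hd).exists_nat_pow_eq
    refine Contract_cyc M d0 d1 τ hτ d1 (Or.inr rfl) ?_ m d hd hm
    intro x hx hxa
    refine ⟨fun e => hne ?_, hxa⟩
    rw [e] at hx
    exact hx
  have h10 : τ.SameCycle d1 d0 := by
    have h5 : τ.SameCycle d1 (τ d1) := ⟨1, by simp⟩
    rw [hτ1] at h5
    exact h5.trans (hC0 _ (M.src_rot d0))
  have hC : ∀ d, M.src d = u ∨ M.src d = w → τ.SameCycle d d0 := by
    rintro d (hd | hd)
    · exact hC0 d hd
    · exact (hC1 d hd).trans h10
  have hsuw : ∀ x, s x = w ↔ M.src x = u ∨ M.src x = w := by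
    intro x
    show (if M.src x = u then w else M.src x) = w ↔ _
    split_ifs with hx
    · simp [hx]
    · simp [hx]
  have hsv : ∀ x v, v ≠ w → (s x = v ↔ v ≠ u ∧ M.src x = v) := by
    intro x v hv
    show (if M.src x = u then w else M.src x) = v ↔ _
    split_ifs with hx
    · constructor
      · intro e
        exact absurd e.symm hv
      · rintro ⟨e1, e2⟩
        exact absurd (e2.symm.trans hx) e1
    · constructor
      · intro e
        exact ⟨fun e' => hx (e.trans e'), e⟩
      · exact fun e => e.2
  let M' : RotSys V :=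
    { D := {d // P d}
      fin := inferInstance
      dec := inferInstance
      src := fun d => s d.1
      inv := fun d => ⟨M.inv d.1, hP _ d.2⟩
      inv_inv := fun d => Subtype.ext (M.inv_inv d.1)
      inv_ne := fun d hd => M.inv_ne d.1 (congrArg Subtype.val hd)
      rot := ρ
      src_rot := by
        intro d
        obtain ⟨k, _, hk, _⟩ := h1 d
        show s (ρ d).1 = s d.1
        rw [hk, hspow]
      rot_cyc := by
        intro d e hde
        apply h2 d e
        have hde' : s d.1 = s e.1 := hde
        by_cases hd : s d.1 = w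
        · have he : s e.1 = w := hde' ▸ hd
          exact (hC _ ((hsuw _).1 hd)).trans (hC _ ((hsuw _).1 he)).symm
        · have a1 := (hsv d.1 (s d.1) hd).1 rfl
          have a2 := (hsv e.1 (s d.1) hd).1 hde'.symm
          obtain ⟨m, hm⟩ := (M.rot_cyc d.1 e.1 (a1.2.trans a2.2.symm)).exists_nat_pow_eq
          refine ⟨m, ?_⟩
          rw [zpow_natCast, ← hm]
          have : ∀ j : ℕ, (τ ^ j) d.1 = (M.rot ^ j) d.1 := by
            intro j
            induction j with
            | zero => rfl
            | succ j ih =>
              rw [pow_succ', Equiv.Perm.mul_apply, ih, pow_succ', Equiv.Perm.mul_apply]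
              have hsr : M.src ((M.rot ^ j) d.1) = s d.1 := by
                rw [Restrict_src_pow]
                exact a1.2
              apply hτ
              · intro e'
                rw [e'] at hsr
                exact a1.1 hsr.symm
              · intro e'
                rw [e'] at hsr
                exact hd hsr.symm
          exact this m }
  refine ⟨M', ?_, fun d => d.1, Subtype.val_injective, fun d => rfl, fun d => rfl, ?_⟩
  · intro z' hz' hev
    set zu : ZMod 2 := ∑ d ∈ univ.filter (fun d : {d // P d} => M.src d.1 = u), z' d with hzu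
    let z0 : M.D → ZMod 2 := fun d => if hd : P d then z' ⟨d, hd⟩ else 0
    let z : M.D → ZMod 2 := fun d => if hd : P d then z' ⟨d, hd⟩ else zu
    have hz00 : ∀ d, ¬ P d → z0 d = 0 := fun d hd => dif_neg hd
    have hzn : ∀ d, ¬ P d → z d = zu := fun d hd => dif_neg hd
    have hz0P : ∀ d : {d // P d}, z0 d.1 = z' d := fun d => dif_pos d.2
    have hzP : ∀ d : {d // P d}, z d.1 = z' d := fun d => dif_pos d.2
    have hnP0 : ¬ P d0 := fun hh => hh.1 rfl
    have hnP1 : ¬ P d1 := fun hh => hh.2 rfl
    have hzz : ∀ d, z d = z0 d + ((if d = d0 then zu else 0) + (if d = d1 then zu else 0)) := by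
      intro d
      by_cases hd : P d
      · rw [if_neg hd.1, if_neg hd.2, add_zero, add_zero]
        exact (hzP ⟨d, hd⟩).trans (hz0P ⟨d, hd⟩).symm
      · rw [hzn d hd, hz00 d hd, zero_add]
        by_cases hx0 : d = d0
        · rw [if_pos hx0, if_neg (fun e => h01 (hx0.symm.trans e)), add_zero]
        · have hx1 : d = d1 := by
            by_contra hx1
            exact hd ⟨hx0, hx1⟩
          rw [if_neg hx0, if_pos hx1, zero_add]
    have hzi : ∀ d, z (M.inv d) = z d := by
      intro d
      by_cases hd : P d
      · have e1 := hzP ⟨M.inv d, hP d hd⟩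
        have e2 := hzP ⟨d, hd⟩
        simp only at e1 e2
        rw [e1, e2]
        exact hz' ⟨d, hd⟩
      · rw [hzn d hd, hzn _ (fun h' => hd (hP' d h'))]
    have hS : ∀ v, ∑ d ∈ univ.filter (fun d => M.src d = v), z0 d
        = ∑ d ∈ univ.filter (fun d : {d // P d} => M.src d.1 = v), z' d := by
      intro v
      rw [Restrict_sum P (fun d => M.src d = v) z0 hz00]
      exact Finset.sum_congr rfl (fun d _ => hz0P d)
    have hzs : ∀ v, ∑ d ∈ univ.filter (fun d => M.src d = v), z d = 0 := by
      intro v
      have e1 : ∑ d ∈ univ.filter (fun d => M.src d = v), z d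
          = ∑ d ∈ univ.filter (fun d : {d // P d} => M.src d.1 = v), z' d
            + ((if u = v then zu else 0) + (if w = v then zu else 0)) := by
        rw [Finset.sum_congr rfl (fun d _ => hzz d), Finset.sum_add_distrib,
          Finset.sum_add_distrib, hS v, Finset.sum_ite_eq', Finset.sum_ite_eq']
        simp only [mem_filter, mem_univ, true_and]
        rfl
      rw [e1]
      by_cases hvu : v = u
      · rw [hvu, if_pos rfl, if_neg (fun e => hne e.symm), add_zero, ← hzu]
        exact CharTwo.add_self_eq_zero zu
      · rw [if_neg (fun e => hvu e.symm), zero_add]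
        by_cases hvw : v = w
        · rw [hvw, if_pos rfl, hzu]
          have e2 := hev w
          have e3 : (univ.filter (fun d : {d // P d} => M'.src d = w))
              = (univ.filter (fun d : {d // P d} => M.src d.1 = w)) ∪
                (univ.filter (fun d : {d // P d} => M.src d.1 = u)) := by
            ext d
            simp only [mem_filter, mem_univ, true_and, mem_union]
            exact (hsuw d.1).trans or_comm
          have e4 : Disjoint (univ.filter (fun d : {d // P d} => M.src d.1 = w))
              (univ.filter (fun d : {d // P d} => M.src d.1 = u)) := by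
            rw [Finset.disjoint_left]
            intro d ha hb
            simp only [mem_filter, mem_univ, true_and] at ha hb
            exact hne (hb.symm.trans ha)
          rw [← Finset.sum_union e4, ← e3]
          exact e2
        · rw [if_neg (fun e => hvw e.symm), add_zero]
          have e2 := hev v
          have e3 : (univ.filter (fun d : {d // P d} => M'.src d = v))
              = (univ.filter (fun d : {d // P d} => M.src d.1 = v)) := by
            ext d
            simp only [mem_filter, mem_univ, true_and]
            exact (hsv d.1 v hvw).trans (and_iff_right hvu)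
          rw [← e3]
          exact e2
    obtain ⟨c, hc1, hc2⟩ := hM z hzi hzs
    refine ⟨fun d => c d.1, ?_, ?_⟩
    · intro d
      show c (ρ ⟨M.inv d.1, hP _ d.2⟩ : {d // P d}).1 = c d.1
      obtain ⟨k, hk0, hk, hkm⟩ := h1 ⟨M.inv d.1, hP _ d.2⟩
      rw [hk]
      have key : ∀ j, j < k → c ((τ ^ (j + 1)) (M.inv d.1)) = c d.1 := by
        intro j
        induction j with
        | zero =>
          intro _
          have hPi := hP _ d.2
          rw [zero_add, pow_one, hτ _ hPi.1 hPi.2]
          exact hc1 d.1
        | succ j ih =>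
          intro hj
          have h3 := ih (by omega)
          have hn := hkm (j + 1) (by omega) hj
          simp only at hn
          rw [pow_succ', Equiv.Perm.mul_apply]
          set x := (τ ^ (j + 1)) (M.inv d.1) with hx
          have hx01 : x = d0 ∨ x = d1 := by
            by_contra hcon
            exact hn ⟨fun e => hcon (Or.inl e), fun e => hcon (Or.inr e)⟩
          rcases hx01 with e | e
          · rw [← h3, e, hτ0]
            exact hc1 d0
          · rw [← h3, e, hτ1]
            have := hc1 d1
            rwa [hi1] at this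
      have := key (k - 1) (by omega)
      rwa [Nat.sub_add_cancel hk0] at this
    · intro d
      rw [← hzP d]
      exact hc2 d.1
  · intro d
    constructor
    · intro hd
      exact ⟨⟨d, hd⟩, rfl⟩
    · rintro ⟨e, rfl⟩
      exact e.2

end Pool.Agent.ICP
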