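import Pool.Agent.ICP.St

set_option autoImplicit false

namespace Pool.Agent.ICP

open Finset

theorem thm_Count (hW : EulerW) : Count := by
  classical
  intro K instF instD instN M
  let ι : Equiv.Perm M.D := ⟨M.inv, M.inv, M.inv_inv, M.inv_inv⟩
  let φ : Equiv.Perm M.D := ι.trans M.rot
  have hφ : ∀ d, φ d = M.rot (M.inv d) := fun d => rfl
  have hne1 : ∀ d, φ d ≠ d := by
    intro d h
    have h1 := M.rot_k (M.inv d)
    rw [← hφ, h] at h1
    exact M.ne d h1.symm
  have hTwo : ∀ d, M.Two d ↔ φ (φ (M.inv d)) = M.inv d := by
    intro d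
    rw [hφ (M.inv d), M.inv_inv, hφ]
    exact Iff.rfl
  have hinvne : ∀ d, M.inv d ≠ d := by
    intro d h
    exact M.ne d (by rw [h])
  haveI : Nonempty M.D := ⟨M.first (Classical.arbitrary K, 0)⟩
  let g : M.D → ℕ := fun d => 2 + if φ (φ d) = d then 1 else 0
  have hg2 : ∀ d, 2 ≤ g d := fun d => Nat.le_add_right _ _
  have hg3 : ∀ d, φ (φ d) = d → g d = 3 := by
    intro d h
    show 2 + (if φ (φ d) = d then 1 else 0) = 3
    rw [if_pos h]
  have hW' := hW M.D K M.inv M.rot φ (fun d => (M.lf d).1) M.inv_inv hinvne hφ M.sph g 6 (by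
    intro d
    have hm0 : d ∈ univ.filter (fun e => φ.SameCycle d e) := by
      simp only [mem_filter, mem_univ, true_and]
      exact Equiv.Perm.SameCycle.refl _ _
    have hm1 : φ d ∈ univ.filter (fun e => φ.SameCycle d e) := by
      simp only [mem_filter, mem_univ, true_and]
      exact ⟨1, by simp⟩
    have hm2 : φ (φ d) ∈ univ.filter (fun e => φ.SameCycle d e) := by
      simp only [mem_filter, mem_univ, true_and]
      exact ⟨2, by simp [pow_succ]⟩
    by_cases h : φ (φ d) = d
    · have hsub : ({d, φ d} : Finset M.D) ⊆ univ.filter (fun e => φ.SameCycle d e) := by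
        intro e he
        simp only [mem_insert, mem_singleton] at he
        rcases he with rfl | rfl
        · exact hm0
        · exact hm1
      have h1 := Finset.sum_le_sum_of_subset (f := g) hsub
      rw [Finset.sum_pair (fun e => hne1 d e.symm), hg3 d h, hg3 (φ d) (by rw [h])] at h1
      exact h1
    · have hsub : ({d, φ d, φ (φ d)} : Finset M.D) ⊆ univ.filter (fun e => φ.SameCycle d e) := by
        intro e he
        simp only [mem_insert, mem_singleton] at he
        rcases he with rfl | rfl | rfl
        · exact hm0
        · exact hm1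
        · exact hm2
      have h1 := Finset.sum_le_sum_of_subset (f := g) hsub
      rw [Finset.sum_insert, Finset.sum_pair (fun e => hne1 (φ d) e.symm)] at h1
      · have a1 := hg2 d
        have a2 := hg2 (φ d)
        have a3 := hg2 (φ (φ d))
        omega
      · simp only [mem_insert, mem_singleton, not_or]
        exact ⟨fun e => hne1 d e.symm, fun e => h e.symm⟩)
  by_contra hcon
  have hcon' : ∀ k : K, 6 ≤ (univ.filter (fun d => (M.lf d).1 = k ∧ ¬ M.Two d)).card := by
    intro k
    by_contra hk
    exact hcon ⟨k, by omega⟩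
  have hsum : ∑ d, g d = 2 * Fintype.card M.D + (univ.filter (fun d => φ (φ d) = d)).card := by
    show ∑ d, (2 + if φ (φ d) = d then 1 else 0) = _
    rw [Finset.sum_add_distrib, Finset.sum_const, Finset.card_univ, Finset.sum_boole]
    simp [mul_comm]
  have ht : (univ.filter (fun d => φ (φ d) = d)).card = (univ.filter (fun d => M.Two d)).card := by
    symm
    apply Finset.card_bij (fun d _ => M.inv d)
    · intro d hd
      simp only [mem_filter, mem_univ, true_and] at hd ⊢
      exact (hTwo d).1 hd
    · intro a _ b _ h
      have := congrArg M.inv h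
      rwa [M.inv_inv, M.inv_inv] at this
    · intro b hb
      simp only [mem_filter, mem_univ, true_and] at hb
      refine ⟨M.inv b, ?_, M.inv_inv b⟩
      simp only [mem_filter, mem_univ, true_and]
      rw [hTwo, M.inv_inv]
      exact hb
  have hN : (univ.filter (fun d => ¬ M.Two d)).card
      = ∑ k : K, (univ.filter (fun d => (M.lf d).1 = k ∧ ¬ M.Two d)).card := by
    rw [Finset.card_eq_sum_card_fiberwise (f := fun d => (M.lf d).1) (t := univ)
      (fun d _ => mem_univ _)]
    apply Finset.sum_congr rfl
    intro k _
    congr 1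
    ext d
    simp only [mem_filter, mem_univ, true_and]
    exact and_comm
  have hN' : 6 * Fintype.card K ≤ (univ.filter (fun d => ¬ M.Two d)).card := by
    rw [hN]
    have := Finset.card_nsmul_le_sum (univ : Finset K)
      (fun k => (univ.filter (fun d => (M.lf d).1 = k ∧ ¬ M.Two d)).card) 6
      (fun k _ => hcon' k)
    rw [Finset.card_univ, smul_eq_mul, mul_comm] at this
    exact this
  have hsplit := Finset.card_filter_add_card_filter_not (s := (univ : Finset M.D)) (fun d => M.Two d)
  rw [Finset.card_univ] at hsplit
  rw [hsum, ht] at hW'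
  omega

end Pool.Agent.ICP
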