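import Mathlib

/-!
# IC-planar graphs: definitions

Planarity is used in combinatorial form (rotation systems).  A rotation system has darts
(half-edges), the fixed-point-free involution `inv` (the two darts of an edge), the permutation
`rot` (next dart at the same vertex) and the source vertex of a dart.  The faces are the orbits of
`d ↦ rot (inv d)`.  It is spherical if its first homology over `ZMod 2` vanishes: every set of edges
with even degree at all vertices is the boundary of a set of faces.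
-/

set_option autoImplicit false

namespace Pool.Agent.ICP

open Finset

/-- A rotation system (combinatorial map) with vertices in `V`. -/
structure RotSys (V : Type*) where
  D : Type
  [fin : Fintype D]
  [dec : DecidableEq D]
  src : D → V
  inv : D → D
  inv_inv : ∀ d, inv (inv d) = d
  inv_ne : ∀ d, inv d ≠ d
  rot : Equiv.Perm D
  src_rot : ∀ d, src (rot d) = src d
  rot_cyc : ∀ d e, src d = src e → rot.SameCycle d e

attribute [instance] RotSys.fin RotSys.dec

open Classical in
/-- Every even set of edges `z` (a function on darts, invariant under `inv`, with sum zero at every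
vertex) is the boundary of a set `c` of faces (a function on darts that is constant on faces). -/
def RotSys.Spherical {V : Type*} (M : RotSys V) : Prop :=
  ∀ z : M.D → ZMod 2, (∀ d, z (M.inv d) = z d) →
    (∀ v : V, ∑ d ∈ univ.filter (fun d => M.src d = v), z d = 0) →
    ∃ c : M.D → ZMod 2, (∀ d, c (M.rot (M.inv d)) = c d) ∧ ∀ d, z d = c d + c (M.inv d)

/-- A graph is planar if its edges are edges of a spherical rotation system. -/
def IsPlanar {V : Type*} (G : SimpleGraph V) : Prop :=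
  ∃ M : RotSys V, M.Spherical ∧ ∀ u v, G.Adj u v → ∃ d, M.src d = u ∧ M.src (M.inv d) = v

/-- The subgraph induced by `S`, as a graph on all of `V`. -/
def res {V : Type*} (G : SimpleGraph V) (S : Set V) : SimpleGraph V where
  Adj a b := a ∈ S ∧ b ∈ S ∧ G.Adj a b
  symm := ⟨fun _ _ h => ⟨h.2.1, h.1, h.2.2.symm⟩⟩
  loopless := ⟨fun _ h => h.2.2.ne rfl⟩

/-- Contraction of the set `S` into the vertex `w`; the vertices of `S` become isolated. -/
def contr {V : Type*} (G : SimpleGraph V) (S : Set V) (w : V) : SimpleGraph V where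
  Adj a b := a ≠ b ∧ a ∉ S ∧ b ∉ S ∧
    (G.Adj a b ∨ (a = w ∧ ∃ s ∈ S, G.Adj s b) ∨ (b = w ∧ ∃ s ∈ S, G.Adj s a))
  symm := by
    constructor
    rintro a b ⟨h1, h2, h3, h4⟩
    refine ⟨h1.symm, h3, h2, ?_⟩
    rcases h4 with h | h | h
    · exact Or.inl h.symm
    · exact Or.inr (Or.inr h)
    · exact Or.inr (Or.inl h)
  loopless := ⟨fun _ h => h.1 rfl⟩

/-- The vertex type of the star graphs: leaves `(k, l)` (four for each star `k`) and centres. -/
abbrev SV (K : Type) := (K × Fin 4) ⊕ K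

/-- A rotation system with the stars as vertices: the darts are the (directed) edges between leaves
of different stars; `lf d` is the leaf where `d` starts.  At the star `k` the rotation `rot` passes
through the darts of one leaf `v`, that is `first v, rot (first v), ..., rot ^ (n v) (first v)`, and
goes on with `first (nx v)`. -/
structure KMap (K : Type) [Fintype K] [DecidableEq K] where
  D : Type
  [fin : Fintype D]
  [dec : DecidableEq D]
  lf : D → K × Fin 4
  inv : D → D
  rot : Equiv.Perm D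
  inv_inv : ∀ d, inv (inv d) = d
  ne : ∀ d, (lf (inv d)).1 ≠ (lf d).1
  inj : ∀ d e, lf d = lf e → lf (inv d) = lf (inv e) → d = e
  rot_k : ∀ d, (lf (rot d)).1 = (lf d).1
  sph : ∀ z : D → ZMod 2, (∀ d, z (inv d) = z d) →
    (∀ k : K, ∑ d ∈ univ.filter (fun d => (lf d).1 = k), z d = 0) →
    ∃ c : D → ZMod 2, (∀ d, c (rot (inv d)) = c d) ∧ ∀ d, z d = c d + c (inv d)
  first : K × Fin 4 → D
  n : K × Fin 4 → ℕ
  nx : K × Fin 4 → K × Fin 4
  lf_pow : ∀ v i, i ≤ n v → lf ((rot ^ i) (first v)) = v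
  pow_inj : ∀ v i j, i ≤ n v → j ≤ n v → (rot ^ i) (first v) = (rot ^ j) (first v) → i = j
  ex_pow : ∀ d, ∃ i, i ≤ n (lf d) ∧ d = (rot ^ i) (first (lf d))
  rot_last : ∀ v, (rot ^ (n v + 1)) (first v) = first (nx v)
  nx_k : ∀ v, (nx v).1 = v.1
  nx_ne1 : ∀ v, nx v ≠ v
  nx_ne2 : ∀ v, nx (nx v) ≠ v
  nx_ne3 : ∀ v, nx (nx (nx v)) ≠ v
  nx_eq4 : ∀ v, nx (nx (nx (nx v))) = v

attribute [instance] KMap.fin KMap.dec

/-- The corner between `d` and `rot d` lies on a face of length two. -/
def KMap.Two {K : Type} [Fintype K] [DecidableEq K] (M : KMap K) (d : M.D) : Prop :=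
  M.rot (M.inv (M.rot d)) = M.inv d

/-- The good configuration. -/
def Config {K : Type} (A : K × Fin 4 → K × Fin 4 → Prop) : Prop :=
  ∃ (k : K) (l1 l2 l3 : Fin 4) (k1 k2 k3 k4 : K),
    l1 ≠ l2 ∧ l2 ≠ l3 ∧ l1 ≠ l3 ∧
    k1 ≠ k ∧ k2 ≠ k ∧ k3 ≠ k ∧ k4 ≠ k ∧ k1 ≠ k2 ∧ k2 ≠ k3 ∧ k3 ≠ k4 ∧
    (∀ v, A (k, l1) v → v.1 = k1 ∨ v.1 = k2) ∧
    (∀ v, A (k, l2) v → v.1 = k2 ∨ v.1 = k3) ∧
    (∀ v, A (k, l3) v → v.1 = k3 ∨ v.1 = k4) ∧
    (∀ m m', A (k, l1) (k2, m) → A (k, l2) (k2, m) → A (k, l1) (k2, m') → A (k, l2) (k2, m') →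
      m = m') ∧
    (∀ m m', A (k, l2) (k3, m) → A (k, l3) (k3, m) → A (k, l2) (k3, m') → A (k, l3) (k3, m') →
      m = m')

end Pool.Agent.ICP
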