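import Pool.Agent.ICP.Defs

/-!
# IC-planar drawings and the final statements
-/

set_option autoImplicit false

namespace Pool.Agent.ICP

open Finset

/-- A drawing of `G` in the sphere in which every edge is crossed at most once and every vertex is an end
of at most one crossed pair of edges (independent crossings), given by its planarization: a spherical
rotation system on the vertices of `G` and the crossings `i : I`.  At the crossing `i` there are exactly
four darts `e i 0, e i 1, e i 2, e i 3` in this cyclic order; they lead to the vertices `cr i 0, ...,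
cr i 3`, and the two edges of `G` that cross at `i` are `cr i 0, cr i 2` and `cr i 1, cr i 3`.  The other
edges of `G` are the edges of the planarization between two vertices of `G`. -/
structure ICDrawing {V : Type} (G : SimpleGraph V) where
  I : Type
  M : RotSys (V ⊕ I)
  sph : M.Spherical
  cr : I → Fin 4 → V
  e : I → Fin 4 → M.D
  src_e : ∀ i j, M.src (e i j) = Sum.inr i
  tgt_e : ∀ i j, M.src (M.inv (e i j)) = Sum.inl (cr i j)
  rot_e : ∀ i j, M.rot (e i j) = e i (j + 1)
  indep : ∀ i j i' j', cr i j = cr i' j' → i = i' ∧ j = j'
  adj : ∀ u v, G.Adj u v ↔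
    (∃ d, M.src d = Sum.inl u ∧ M.src (M.inv d) = Sum.inl v) ∨
      ∃ i j, u = cr i j ∧ v = cr i (j + 2)

/-- `G` is IC-planar. -/
def IsICPlanar {V : Type} (G : SimpleGraph V) : Prop := Nonempty (ICDrawing G)

/-- The rotation system is connected (and has a dart). -/
def RotSys.Conn {V : Type} (M : RotSys V) : Prop :=
  Nonempty M.D ∧ ∀ P : M.D → Prop, (∀ d, P d → P (M.rot d)) → (∀ d, P d → P (M.inv d)) →
    ∀ d e, P d → P e

/-- The face permutation. -/
def RotSys.face {V : Type} (M : RotSys V) : Equiv.Perm M.D :=
  (⟨M.inv, M.inv, M.inv_inv, M.inv_inv⟩ : Equiv.Perm M.D).trans M.rot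

open Classical in
/-- Number of vertices with a dart. -/
noncomputable def RotSys.nV {V : Type} (M : RotSys V) : ℕ := (univ.image M.src).card

open Classical in
/-- Number of faces. -/
noncomputable def RotSys.nF {V : Type} (M : RotSys V) : ℕ :=
  Fintype.card (Quotient (Equiv.Perm.SameCycle.setoid M.face))

end Pool.Agent.ICP
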