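import Pool.Agent.ICP.St

set_option autoImplicit false

namespace Pool.Agent.ICP

open Finset

private theorem EndGame_step (h5 : Con1) {V : Type} (G : SimpleGraph V) (hG : IsPlanar G) (p w : V)
    (hpw : p ≠ w → G.Adj p w) : ∃ H : SimpleGraph V, IsPlanar H ∧
      (∀ a b, (a = p → p = w) → (b = p → p = w) → G.Adj a b → H.Adj a b) ∧
      (∀ b, b ≠ w → b ≠ p → G.Adj p b → H.Adj w b) := by
  by_cases h : p = w
  · refine ⟨G, hG, fun a b _ _ hab => hab, fun b _ _ hb => ?_⟩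
    rw [← h]
    exact hb
  · refine ⟨contr G {p} w, h5 V G p w (hpw h) hG, ?_, ?_⟩
    · intro a b ha hb hab
      exact ⟨hab.ne, fun e => h (ha e), fun e => h (hb e), Or.inl hab⟩
    · intro b hbw hbp hb
      exact ⟨fun e => hbw e.symm, fun e => h (Eq.symm e), fun e => hbp e,
        Or.inr (Or.inl ⟨rfl, p, rfl, hb⟩)⟩

theorem thm_EndGame (h5 : Con1) (h8 : NoK33) (hA : ForestAdd) (hS : ForestSub) (hC : StarContr) :
    EndGame := by
  classical
  intro K _ G S k hk hG hsp hconf IH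
  obtain ⟨l1, l2, l3, k1, k2, k3, k4, hk1S, hk2S, hk3S, hk4S, hl12, hl23, hl13, hk1, hk2, hk3, hk4,
    h12, h23, h34, hv1, hv2, hv3, hu2, hu3⟩ := hconf
  by_contra hcon
  have hno : ∀ t : K → Fin 4, ¬ (res G (TS S t)).IsAcyclic := fun t ht => hcon ⟨t, ht⟩
  have hstar : ∀ t : K → Fin 4, ∀ a ∈ TS (S.erase k) t, a ∉ starSet k := by
    rintro t a ⟨k', hk', rfl⟩ hmem
    rcases hmem with h | ⟨l, h⟩
    · exact absurd h (by simp)
    · have := Sum.inl_injective h
      exact (Finset.ne_of_mem_erase hk') (Prod.mk.inj this).1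
  have hTmem : ∀ (t : K → Fin 4) (k' : K), k' ∈ S → k' ≠ k → (Sum.inl (k', t k') : SV K) ∈
      TS (S.erase k) t := fun t k' h h' => ⟨k', Finset.mem_erase.2 ⟨h', h⟩, rfl⟩
  -- every leaf of `k` is bad
  have hbad : ∀ t : K → Fin 4, (res G (TS (S.erase k) t)).IsAcyclic → ∀ l : Fin 4,
      ∃ a b, a ∈ TS (S.erase k) t ∧ b ∈ TS (S.erase k) t ∧ G.Adj (Sum.inl (k, l)) a ∧
        G.Adj (Sum.inl (k, l)) b ∧ a ≠ b ∧ (res G (TS (S.erase k) t)).Reachable a b := by
    intro t ht l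
    by_contra hn
    apply hno (Function.update t k l)
    have hset : TS S (Function.update t k l) = insert (Sum.inl (k, l)) (TS (S.erase k) t) := by
      ext x
      constructor
      · rintro ⟨k', hk', rfl⟩
        by_cases e : k' = k
        · left
          rw [e, Function.update_self]
        · right
          exact ⟨k', Finset.mem_erase.2 ⟨e, hk'⟩, by rw [Function.update_of_ne e]⟩
      · rintro (h | ⟨k', hk', rfl⟩)
        · exact ⟨k, hk, by rw [h, Function.update_self]⟩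
        · have e := Finset.ne_of_mem_erase hk'
          exact ⟨k', Finset.mem_of_mem_erase hk', by rw [Function.update_of_ne e]⟩
    rw [hset]
    apply hA _ G _ _ _ ht
    · intro a b ha hb hva hvb hab hr
      exact hn ⟨a, b, ha, hb, hva, hvb, hab, hr⟩
    · intro hmem
      exact hstar t _ hmem (Or.inr ⟨l, rfl⟩)
  have hpair : ∀ t : K → Fin 4, (res G (TS (S.erase k) t)).IsAcyclic → ∀ (l : Fin 4) (ka kb : K),
      (∀ v : K × Fin 4, v.1 ∈ S → v.1 ≠ k → G.Adj (Sum.inl (k, l)) (Sum.inl v) →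
        v.1 = ka ∨ v.1 = kb) →
      G.Adj (Sum.inl (k, l)) (Sum.inl (ka, t ka)) ∧ G.Adj (Sum.inl (k, l)) (Sum.inl (kb, t kb)) ∧
        (res G (TS (S.erase k) t)).Reachable (Sum.inl (ka, t ka)) (Sum.inl (kb, t kb)) := by
    intro t ht l ka kb hab
    obtain ⟨a, b, ⟨k', hk', rfl⟩, ⟨k'', hk'', rfl⟩, h1, h2, h3, h4⟩ := hbad t ht l
    have e1 := hab (k', t k') (Finset.mem_of_mem_erase hk') (Finset.ne_of_mem_erase hk') h1
    have e2 := hab (k'', t k'') (Finset.mem_of_mem_erase hk'') (Finset.ne_of_mem_erase hk'') h2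
    simp only at e1 e2
    rcases e1 with e1 | e1 <;> rcases e2 with e2 | e2
    · rw [e1, e2] at h3
      exact absurd rfl h3
    · rw [e1, e2] at h4
      rw [e1] at h1
      rw [e2] at h2
      exact ⟨h1, h2, h4⟩
    · rw [e1, e2] at h4
      rw [e1] at h1
      rw [e2] at h2
      exact ⟨h2, h1, h4.symm⟩
    · rw [e1, e2] at h3
      exact absurd rfl h3
  have hspE : ∀ H : SimpleGraph (SV K), (∀ a b, a ∉ starSet k → b ∉ starSet k → G.Adj a b →
      H.Adj a b) → Spokes H (S.erase k) := by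
    intro H hH k' hk' l
    have e := Finset.ne_of_mem_erase hk'
    apply hH
    · rintro (h | ⟨l', h⟩)
      · exact e (Sum.inr_injective h)
      · exact absurd h (by simp)
    · rintro (h | ⟨l', h⟩)
      · exact absurd h (by simp)
      · exact e (Prod.mk.inj (Sum.inl_injective h)).1
    · exact hsp k' (Finset.mem_of_mem_erase hk') l
  -- the first transversal
  obtain ⟨t0, ht0⟩ := IH G hG (hspE G (fun a b _ _ h => h))
  obtain ⟨a1, a2, -⟩ := hpair t0 ht0 l1 k1 k2 hv1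
  obtain ⟨b1, b2, -⟩ := hpair t0 ht0 l2 k2 k3 hv2
  obtain ⟨c1, c2, -⟩ := hpair t0 ht0 l3 k3 k4 hv3
  set w2 : SV K := Sum.inl (k2, t0 k2) with hw2
  set w3 : SV K := Sum.inl (k3, t0 k3) with hw3
  have hm2 : ∀ t : K → Fin 4, (res G (TS (S.erase k) t)).IsAcyclic → t k2 = t0 k2 := by
    intro t ht
    exact hu2 _ _ (hpair t ht l1 k1 k2 hv1).2.1 (hpair t ht l2 k2 k3 hv2).1 a2 b1
  have hm3 : ∀ t : K → Fin 4, (res G (TS (S.erase k) t)).IsAcyclic → t k3 = t0 k3 := by
    intro t ht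
    exact hu3 _ _ (hpair t ht l2 k2 k3 hv2).2.1 (hpair t ht l3 k3 k4 hv3).1 b2 c1
  have hcontr : ∀ w : SV K, ∀ a b, a ∉ starSet k → b ∉ starSet k → G.Adj a b →
      (contr G (starSet k) w).Adj a b := fun w a b ha hb hab => ⟨hab.ne, ha, hb, Or.inl hab⟩
  have hnotstar : ∀ (k' : K) (m : Fin 4), k' ≠ k → (Sum.inl (k', m) : SV K) ∉ starSet k := by
    rintro k' m e (h | ⟨l', h⟩)
    · exact absurd h (by simp)
    · exact e (Prod.mk.inj (Sum.inl_injective h)).1
  have hvstar : ∀ l : Fin 4, (Sum.inl (k, l) : SV K) ∈ starSet k := fun l => Or.inr ⟨l, rfl⟩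
  have hw2s : w2 ∉ starSet k := hnotstar k2 _ hk2
  have hw3s : w3 ∉ starSet k := hnotstar k3 _ hk3
  have hw23 : w2 ≠ w3 := by
    intro e
    exact h23 (Prod.mk.inj (Sum.inl_injective e)).1
  -- contraction into w3
  have hH3 : IsPlanar (contr G (starSet k) w3) :=
    hC K G k l2 (k3, t0 k3) (hsp k hk) hk3 b2 hG
  obtain ⟨t3, ht3⟩ := IH _ hH3 (hspE _ (hcontr w3))
  obtain ⟨f3, e3, tri3⟩ := hS _ G (contr G (starSet k) w3) (TS (S.erase k) t3)
    (fun a b ha hb hab => hcontr w3 a b (hstar t3 a ha) (hstar t3 b hb) hab) ht3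
  obtain ⟨x1, x2, x3⟩ := hpair t3 f3 l1 k1 k2 hv1
  obtain ⟨y1, y2, y3⟩ := hpair t3 f3 l2 k2 k3 hv2
  rw [hm2 t3 f3] at x2 x3 y1 y3
  rw [hm3 t3 f3] at y2 y3
  set p : SV K := Sum.inl (k1, t3 k1) with hp
  have hps : p ∉ starSet k := hnotstar k1 _ hk1
  have hpT : p ∈ TS (S.erase k) t3 := hTmem t3 k1 hk1S hk1
  have hw2T3 : w2 ∈ TS (S.erase k) t3 := by
    have := hTmem t3 k2 hk2S hk2
    rw [hm2 t3 f3] at this
    exact this
  have hw3T3 : w3 ∈ TS (S.erase k) t3 := by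
    have := hTmem t3 k3 hk3S hk3
    rw [hm3 t3 f3] at this
    exact this
  have hpw3 : p ≠ w3 → G.Adj p w3 := by
    intro hne
    have h1 : (contr G (starSet k) w3).Adj w3 p :=
      ⟨hne.symm, hw3s, hps, Or.inr (Or.inl ⟨rfl, _, hvstar l1, x1⟩)⟩
    exact (e3 w3 p hw3T3 hpT h1 (x3.trans y3).symm).symm
  -- contraction into w2
  have hH2 : IsPlanar (contr G (starSet k) w2) :=
    hC K G k l2 (k2, t0 k2) (hsp k hk) hk2 b1 hG
  obtain ⟨t2, ht2⟩ := IH _ hH2 (hspE _ (hcontr w2))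
  obtain ⟨f2, e2, -⟩ := hS _ G (contr G (starSet k) w2) (TS (S.erase k) t2)
    (fun a b ha hb hab => hcontr w2 a b (hstar t2 a ha) (hstar t2 b hb) hab) ht2
  obtain ⟨y1', y2', y3'⟩ := hpair t2 f2 l2 k2 k3 hv2
  obtain ⟨z1, z2, z3⟩ := hpair t2 f2 l3 k3 k4 hv3
  rw [hm2 t2 f2] at y3'
  rw [hm3 t2 f2] at y3' z3
  set q : SV K := Sum.inl (k4, t2 k4) with hq
  have hqs : q ∉ starSet k := hnotstar k4 _ hk4
  have hqT : q ∈ TS (S.erase k) t2 := hTmem t2 k4 hk4S hk4
  have hw2T2 : w2 ∈ TS (S.erase k) t2 := by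
    have := hTmem t2 k2 hk2S hk2
    rw [hm2 t2 f2] at this
    exact this
  have hqw2 : q ≠ w2 → G.Adj q w2 := by
    intro hne
    have h1 : (contr G (starSet k) w2).Adj w2 q :=
      ⟨hne.symm, hw2s, hqs, Or.inr (Or.inl ⟨rfl, _, hvstar l3, z2⟩)⟩
    exact (e2 w2 q hw2T2 hqT h1 (y3'.trans z3)).symm
  have hpw2 : p ≠ w2 := by
    intro e
    exact h12 (Prod.mk.inj (Sum.inl_injective e)).1
  have hqw3 : q ≠ w3 := by
    intro e
    exact h34 (Prod.mk.inj (Sum.inl_injective e)).1.symm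
  by_cases hpq : p = q
  · have hp3 : p ≠ w3 := by
      rw [hpq]
      exact hqw3
    have hq2 : q ≠ w2 := by
      rw [← hpq]
      exact hpw2
    have g1 := hpw3 hp3
    have g2 := hqw2 hq2
    rw [← hpq] at g2
    exact tri3 p w2 w3 hpT hw2T3 hw3T3 (hcontr w3 _ _ hps hw2s g2)
      ⟨hw23, hw2s, hw3s, Or.inr (Or.inr ⟨rfl, _, hvstar l1, x2⟩)⟩ (hcontr w3 _ _ hps hw3s g1)
  · -- distinctness
    have hvne : ∀ (l : Fin 4) (x : SV K), x ∉ starSet k → (Sum.inl (k, l) : SV K) ≠ x := by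
      rintro l x hx rfl
      exact hx (hvstar l)
    have hcne : ∀ x : SV K, x ∉ starSet k → (Sum.inr k : SV K) ≠ x := by
      rintro x hx rfl
      exact hx (Or.inl rfl)
    obtain ⟨G1, hG1, m1, n1⟩ := EndGame_step h5 G hG p w3 hpw3
    have avoid1 : ∀ a b, a ≠ p → b ≠ p → G.Adj a b → G1.Adj a b :=
      fun a b ha hb hab => m1 a b (fun e => absurd e ha) (fun e => absurd e hb) hab
    have hpv : ∀ l : Fin 4, (Sum.inl (k, l) : SV K) ≠ p := fun l => hvne l p hps
    obtain ⟨G2, hG2, m2, n2⟩ := EndGame_step h5 G1 hG1 q w2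
      (fun hne => avoid1 q w2 (fun e => hpq e.symm) hpw2.symm (hqw2 hne))
    have avoid2 : ∀ a b, a ≠ q → b ≠ q → G1.Adj a b → G2.Adj a b :=
      fun a b ha hb hab => m2 a b (fun e => absurd e ha) (fun e => absurd e hb) hab
    have hqv : ∀ l : Fin 4, (Sum.inl (k, l) : SV K) ≠ q := fun l => hvne l q hqs
    have gc : ∀ l : Fin 4, G2.Adj (Sum.inl (k, l)) (Sum.inr k) := by
      intro l
      exact avoid2 _ _ (hqv l) (hcne q hqs) (avoid1 _ _ (hpv l) (hcne p hps) (hsp k hk l).symm)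
    have g12 : G2.Adj (Sum.inl (k, l1)) w2 :=
      m2 _ _ (fun e => absurd e (hqv l1)) (fun e => e.symm)
        (avoid1 _ _ (hpv l1) hpw2.symm x2)
    have g22 : G2.Adj (Sum.inl (k, l2)) w2 :=
      m2 _ _ (fun e => absurd e (hqv l2)) (fun e => e.symm)
        (avoid1 _ _ (hpv l2) hpw2.symm y1)
    have g32 : G2.Adj (Sum.inl (k, l3)) w2 :=
      (n2 (Sum.inl (k, l3)) (hvne l3 w2 hw2s) (hqv l3)
        (avoid1 _ _ (fun e => hpq e.symm) (hpv l3) z2.symm)).symm
    have g13 : G2.Adj (Sum.inl (k, l1)) w3 :=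
      avoid2 _ _ (hqv l1) hqw3.symm
        (n1 (Sum.inl (k, l1)) (hvne l1 w3 hw3s) (hpv l1) x1.symm).symm
    have g23 : G2.Adj (Sum.inl (k, l2)) w3 :=
      avoid2 _ _ (hqv l2) hqw3.symm
        (m1 _ _ (fun e => absurd e (hpv l2)) (fun e => e.symm) b2)
    have g33 : G2.Adj (Sum.inl (k, l3)) w3 :=
      avoid2 _ _ (hqv l3) hqw3.symm
        (m1 _ _ (fun e => absurd e (hpv l3)) (fun e => e.symm) c1)
    have hvv : ∀ l l' : Fin 4, l ≠ l' → (Sum.inl (k, l) : SV K) ≠ Sum.inl (k, l') := by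
      intro l l' hne e
      exact hne (Prod.mk.inj (Sum.inl_injective e)).2
    refine h8 _ G2 hG2 ![Sum.inl (k, l1), Sum.inl (k, l2), Sum.inl (k, l3)] ![Sum.inr k, w2, w3]
      ?_ ?_ ?_ ?_
    · intro i j hij
      fin_cases i <;> fin_cases j <;> simp at hij ⊢
      · exact hl12 hij
      · exact hl13 hij
      · exact hl12 hij.symm
      · exact hl23 hij
      · exact hl13 hij.symm
      · exact hl23 hij.symm
    · intro i j hij
      have e1 := hcne w2 hw2s
      have e2 := hcne w3 hw3s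
      fin_cases i <;> fin_cases j
      · rfl
      · exact absurd hij e1
      · exact absurd hij e2
      · exact absurd hij.symm e1
      · rfl
      · exact absurd hij hw23
      · exact absurd hij.symm e2
      · exact absurd hij.symm hw23
      · rfl
    · intro i j
      fin_cases i <;> fin_cases j
      · exact fun e => absurd e (by simp)
      · exact hvne l1 w2 hw2s
      · exact hvne l1 w3 hw3s
      · exact fun e => absurd e (by simp)
      · exact hvne l2 w2 hw2s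
      · exact hvne l2 w3 hw3s
      · exact fun e => absurd e (by simp)
      · exact hvne l3 w2 hw2s
      · exact hvne l3 w3 hw3s
    · intro i j
      fin_cases i <;> fin_cases j
      · exact gc l1
      · exact g12
      · exact g13
      · exact gc l2
      · exact g22
      · exact g23
      · exact gc l3
      · exact g32
      · exact g33

end Pool.Agent.ICP
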