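import Pool.Agent.ICP.St2

set_option autoImplicit false

namespace Pool.Agent.ICP

open Finset Module

open Classical in
private theorem EulerIff_main {D K : Type} [Fintype D] [Nonempty D] [Fintype K] [DecidableEq K]
    (inv : D → D) (rot φ : Equiv.Perm D) (p : D → K) (hp : Function.Surjective p)
    (hinv : ∀ d, inv (inv d) = d) (hne : ∀ d, inv d ≠ d) (hφ : ∀ d, φ d = rot (inv d))
    (hrot : ∀ d, p (rot d) = p d)
    (conn : ∀ P : D → Prop, (∀ d, P d → P (rot d)) → (∀ d, P d → P (inv d)) → ∀ d e, P d → P e) :
    (∀ z : D → ZMod 2, (∀ d, z (inv d) = z d) →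
      (∀ k : K, ∑ d ∈ univ.filter (fun d => p d = k), z d = 0) →
      ∃ c : D → ZMod 2, (∀ d, c (rot (inv d)) = c d) ∧ ∀ d, z d = c d + c (inv d)) ↔
    2 * Fintype.card K + 2 * Fintype.card (Quotient (Equiv.Perm.SameCycle.setoid φ)) =
      Fintype.card D + 4 := by
  have hNK : Nonempty K := ⟨p (Classical.arbitrary D)⟩
  let T : (D → ZMod 2) →ₗ[ZMod 2] (D → ZMod 2) :=
    LinearMap.id + LinearMap.funLeft (ZMod 2) (ZMod 2) inv
  have hT : ∀ z d, T z d = z d + z (inv d) := fun z d => rfl
  have hTT : ∀ z, T (T z) = 0 := by
    intro z
    ext d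
    rw [hT, hT, hT, hinv, Pi.zero_apply, add_comm (z (inv d)) (z d)]
    exact CharTwo.add_self_eq_zero _
  have hker : ∀ z, T z = 0 → ∀ d, z (inv d) = z d := by
    intro z hz d
    have := congrFun hz d
    rw [hT, Pi.zero_apply] at this
    exact (CharTwo.add_eq_zero.1 this).symm
  have h1 : LinearMap.range T = LinearMap.ker T := by
    apply le_antisymm
    · rintro _ ⟨z, rfl⟩
      exact hTT z
    · intro z hz
      have hz' := hker z hz
      let r : D → Fin (Fintype.card D) := Fintype.equivFin D
      have hr : Function.Injective r := (Fintype.equivFin D).injective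
      refine ⟨fun d => if r d < r (inv d) then z d else 0, ?_⟩
      ext d
      rw [hT, hinv]
      rcases lt_trichotomy (r d) (r (inv d)) with h | h | h
      · rw [if_pos h, if_neg (not_lt.mpr h.le), add_zero]
      · exact absurd (hr h).symm (hne d)
      · rw [if_neg (not_lt.mpr h.le), if_pos h, zero_add, hz' d]
  have h2 := LinearMap.finrank_range_add_finrank_ker T
  rw [Module.finrank_fintype_fun_eq_card, h1] at h2
  let b : (D → ZMod 2) →ₗ[ZMod 2] (K → ZMod 2) :=
    { toFun := fun z k => ∑ d ∈ univ.filter (fun d => p d = k), z d
      map_add' := by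
        intro x y
        ext k
        simp [Finset.sum_add_distrib]
      map_smul' := by
        intro r x
        ext k
        simp [Finset.mul_sum] }
  have hb : ∀ z k, b z k = ∑ d ∈ univ.filter (fun d => p d = k), z d := fun z k => rfl
  let s : (K → ZMod 2) →ₗ[ZMod 2] ZMod 2 :=
    { toFun := fun y => ∑ k, y k
      map_add' := by
        intro x y
        simp [Finset.sum_add_distrib]
      map_smul' := by
        intro r x
        simp [Finset.mul_sum] }
  have hs : ∀ y, s y = ∑ k, y k := fun y => rfl
  have hsum0 : ∀ z, T z = 0 → ∑ d, z d = 0 := by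
    intro z hz
    apply Finset.sum_involution (fun d _ => inv d)
    · intro d _
      rw [hker z hz d]
      exact CharTwo.add_self_eq_zero _
    · intro d _ _
      exact hne d
    · intro d _
      exact mem_univ _
    · intro d _
      exact hinv d
  let b' : LinearMap.ker T →ₗ[ZMod 2] (K → ZMod 2) := b.domRestrict (LinearMap.ker T)
  have h3 : LinearMap.range b' = LinearMap.ker s := by
    apply le_antisymm
    · rintro _ ⟨z, rfl⟩
      rw [LinearMap.mem_ker, hs]
      have : ∑ k, b' z k = ∑ d, z.1 d := by
        show ∑ k, ∑ d ∈ univ.filter (fun d => p d = k), z.1 d = _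
        exact Finset.sum_fiberwise_of_maps_to (fun d _ => mem_univ _) _
      rw [this]
      exact hsum0 z.1 z.2
    · have hbs : ∀ d : D, b (Pi.single d 1) = Pi.single (p d) 1 := by
        intro d
        ext k
        rw [hb]
        by_cases hk : p d = k
        · subst hk
          rw [Finset.sum_eq_single_of_mem d (by simp)]
          · simp
          · intro e _ he
            simp [he]
        · rw [Finset.sum_eq_zero]
          · rw [Pi.single_eq_of_ne (Ne.symm hk)]
          · intro e he
            have he' : p e = k := by simpa using he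
            have : e ≠ d := by
              rintro rfl
              exact hk he'
            simp [this]
      have hedge : ∀ d : D, Pi.single (p d) 1 + Pi.single (p (inv d)) 1 ∈ LinearMap.range b' := by
        intro d
        have hm : Pi.single d 1 + Pi.single (inv d) 1 ∈ LinearMap.ker T := by
          rw [LinearMap.mem_ker]
          ext e
          rw [hT]
          simp only [Pi.add_apply, Pi.zero_apply]
          by_cases h1 : e = d
          · subst h1
            have e1 : inv e ≠ e := hne e
            rw [Pi.single_eq_same, Pi.single_eq_of_ne e1.symm, Pi.single_eq_of_ne e1,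
              Pi.single_eq_same, add_zero, zero_add]
            exact CharTwo.add_self_eq_zero _
          · by_cases h2 : e = inv d
            · subst h2
              rw [hinv, Pi.single_eq_same, Pi.single_eq_same, Pi.single_eq_of_ne h1,
                Pi.single_eq_of_ne (Ne.symm h1), add_zero, zero_add]
              exact CharTwo.add_self_eq_zero _
            · have h3 : inv e ≠ d := by
                rintro rfl
                exact h2 (hinv e).symm
              have h4 : inv e ≠ inv d := by
                intro h
                apply h1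
                rw [← hinv e, h, hinv]
              rw [Pi.single_eq_of_ne h1, Pi.single_eq_of_ne h2, Pi.single_eq_of_ne h3,
                Pi.single_eq_of_ne h4, add_zero, add_zero]
        refine ⟨⟨_, hm⟩, ?_⟩
        show b (Pi.single d 1 + Pi.single (inv d) 1) = _
        rw [map_add, hbs, hbs]
      have hpair : ∀ d e : D, (Pi.single (p d) 1 + Pi.single (p e) 1 : K → ZMod 2) ∈
          LinearMap.range b' := by
        intro d e
        refine conn (fun e => (Pi.single (p d) 1 + Pi.single (p e) 1 : K → ZMod 2) ∈
          LinearMap.range b') ?_ ?_ d e ?_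
        · intro e he
          rw [hrot]
          exact he
        · intro e he
          have h := Submodule.add_mem _ he (hedge e)
          have e1 : (Pi.single (p d) 1 + Pi.single (p e) 1 : K → ZMod 2) +
              (Pi.single (p e) 1 + Pi.single (p (inv e)) 1) =
              Pi.single (p d) 1 + Pi.single (p (inv e)) 1 := by
            ext k
            simp only [Pi.add_apply]
            have := CharTwo.add_self_eq_zero ((Pi.single (p e) 1 : K → ZMod 2) k)
            linear_combination this
          rw [e1] at h
          exact h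
        · have : (Pi.single (p d) 1 + Pi.single (p d) 1 : K → ZMod 2) = 0 := by
            ext k
            exact CharTwo.add_self_eq_zero _
          rw [this]
          exact Submodule.zero_mem _
      intro y hy
      rw [LinearMap.mem_ker, hs] at hy
      have d0 := Classical.arbitrary D
      have e2 : y = ∑ k, y k • (Pi.single (p d0) 1 + Pi.single k 1 : K → ZMod 2) := by
        ext j
        rw [Finset.sum_apply]
        simp only [Pi.smul_apply, Pi.add_apply, smul_eq_mul, mul_add, Finset.sum_add_distrib]
        rw [← Finset.sum_mul, hy, zero_mul, zero_add]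
        rw [Finset.sum_eq_single_of_mem j (mem_univ _)]
        · simp
        · intro k _ hk
          rw [Pi.single_eq_of_ne (Ne.symm hk), mul_zero]
      rw [e2]
      refine Submodule.sum_mem _ fun k _ => Submodule.smul_mem _ _ ?_
      obtain ⟨e, rfl⟩ := hp k
      exact hpair d0 e
  have h4 : finrank (ZMod 2) (LinearMap.range s) = 1 := by
    have : LinearMap.range s = ⊤ := by
      rw [LinearMap.range_eq_top]
      intro r
      refine ⟨Pi.single (Classical.arbitrary K) r, ?_⟩
      rw [hs]
      simp
    rw [this, finrank_top]
    exact Module.finrank_self _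
  have h5 := LinearMap.finrank_range_add_finrank_ker s
  rw [Module.finrank_fintype_fun_eq_card, h4] at h5
  have h7 := LinearMap.finrank_range_add_finrank_ker b'
  rw [h3] at h7
  -- the even sets
  let Z : Submodule (ZMod 2) (D → ZMod 2) := (LinearMap.ker b').map (LinearMap.ker T).subtype
  have hZ : ∀ z, z ∈ Z ↔ T z = 0 ∧ ∀ k, ∑ d ∈ univ.filter (fun d => p d = k), z d = 0 := by
    intro z
    constructor
    · rintro ⟨x, hx, rfl⟩
      exact ⟨x.2, fun k => congrFun hx k⟩
    · rintro ⟨hz1, hz2⟩
      refine ⟨⟨z, hz1⟩, ?_, rfl⟩
      show b' ⟨z, hz1⟩ = 0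
      ext k
      exact hz2 k
  have hZf : finrank (ZMod 2) Z = finrank (ZMod 2) (LinearMap.ker b') :=
    Submodule.finrank_map_subtype_eq _ _
  -- functions constant on orbits
  let q : D → Quotient (Equiv.Perm.SameCycle.setoid φ) := fun d => Quotient.mk _ d
  let Q : (Quotient (Equiv.Perm.SameCycle.setoid φ) → ZMod 2) →ₗ[ZMod 2] (D → ZMod 2) :=
    LinearMap.funLeft (ZMod 2) (ZMod 2) q
  have hQi : Function.Injective Q := by
    apply LinearMap.funLeft_injective_of_surjective
    intro o
    induction o using Quotient.inductionOn with
    | h d => exact ⟨d, rfl⟩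
  let C : Submodule (ZMod 2) (D → ZMod 2) :=
    LinearMap.ker (LinearMap.funLeft (ZMod 2) (ZMod 2) φ - LinearMap.id)
  have hC : ∀ c, c ∈ C ↔ ∀ d, c (φ d) = c d := by
    intro c
    rw [LinearMap.mem_ker]
    constructor
    · intro h d
      have := congrFun h d
      simp only [LinearMap.sub_apply, LinearMap.funLeft_apply, LinearMap.id_coe, id_eq,
        Pi.sub_apply, Pi.zero_apply] at this
      exact sub_eq_zero.1 this
    · intro h
      ext d
      simp [LinearMap.funLeft_apply, h d]
  have hCQ : C = LinearMap.range Q := by
    apply le_antisymm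
    · intro c hc
      rw [hC] at hc
      have hcz : ∀ d e, φ.SameCycle d e → c d = c e := by
        intro d e h
        obtain ⟨m, hm⟩ := h.exists_nat_pow_eq
        rw [← hm]
        have : ∀ m : ℕ, c ((φ ^ m) d) = c d := by
          intro m
          induction m with
          | zero => simp
          | succ m ih => rw [pow_succ', Equiv.Perm.mul_apply, hc, ih]
        exact (this m).symm
      refine ⟨Quotient.lift c hcz, ?_⟩
      ext d
      rfl
    · rintro _ ⟨y, rfl⟩
      rw [hC]
      intro d
      show y (q (φ d)) = y (q d)
      congr 1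
      apply Quotient.sound
      show φ.SameCycle (φ d) d
      exact ⟨-1, by simp⟩
  have h8 : finrank (ZMod 2) C = Fintype.card (Quotient (Equiv.Perm.SameCycle.setoid φ)) := by
    rw [hCQ, LinearMap.finrank_range_of_inj hQi, Module.finrank_fintype_fun_eq_card]
  let T' : C →ₗ[ZMod 2] (D → ZMod 2) := T.domRestrict C
  have h9 := LinearMap.finrank_range_add_finrank_ker T'
  have h1C : (1 : D → ZMod 2) ∈ C := by
    rw [hC]
    intro d
    rfl
  have h1T : (⟨1, h1C⟩ : C) ∈ LinearMap.ker T' := by
    rw [LinearMap.mem_ker]
    ext d
    show T 1 d = 0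
    rw [hT]
    exact CharTwo.add_self_eq_zero _
  have h10 : finrank (ZMod 2) (LinearMap.ker T') = 1 := by
    refine finrank_eq_one (⟨⟨1, h1C⟩, h1T⟩ : LinearMap.ker T') ?_ ?_
    · intro h
      have e1 := congrArg (fun x : LinearMap.ker T' => (x.1 : C).1 (Classical.arbitrary D)) h
      simp at e1
    · rintro ⟨⟨c, hc⟩, hcT⟩
      have hcT' : T c = 0 := hcT
      have hci := hker c hcT'
      rw [hC] at hc
      have hcr : ∀ d, c (rot d) = c d := by
        intro d
        have e1 := hc (inv d)
        rw [hφ, hinv] at e1
        rw [e1, hci]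
      refine ⟨c (Classical.arbitrary D), ?_⟩
      apply Subtype.ext
      apply Subtype.ext
      ext e
      have e2 : c (Classical.arbitrary D) = c e :=
        conn (fun e => c (Classical.arbitrary D) = c e) (fun d hd => by rw [hcr]; exact hd)
          (fun d hd => by rw [hci]; exact hd) (Classical.arbitrary D) e rfl
      show c (Classical.arbitrary D) * 1 = c e
      rw [mul_one, e2]
  have hBZ : LinearMap.range T' ≤ Z := by
    rintro _ ⟨⟨c, hc⟩, rfl⟩
    rw [hZ]
    refine ⟨hTT c, fun k => ?_⟩
    rw [hC] at hc
    have e1 : ∀ d, c (inv d) = c (rot d) := by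
      intro d
      have := hc (inv d)
      rw [hφ, hinv] at this
      exact this.symm
    have e2 : ∑ d ∈ univ.filter (fun d => p d = k), c (rot d) =
        ∑ d ∈ univ.filter (fun d => p d = k), c d := by
      refine Finset.sum_equiv rot ?_ (fun d _ => rfl)
      intro d
      simp [hrot]
    show ∑ d ∈ univ.filter (fun d => p d = k), (c d + c (inv d)) = 0
    rw [Finset.sum_add_distrib, Finset.sum_congr rfl (fun d _ => e1 d), e2]
    exact CharTwo.add_self_eq_zero _
  have hK : 0 < Fintype.card K := Fintype.card_pos
  have hsph : (∀ z : D → ZMod 2, (∀ d, z (inv d) = z d) →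
      (∀ k : K, ∑ d ∈ univ.filter (fun d => p d = k), z d = 0) →
      ∃ c : D → ZMod 2, (∀ d, c (rot (inv d)) = c d) ∧ ∀ d, z d = c d + c (inv d)) ↔
      Z ≤ LinearMap.range T' := by
    constructor
    · intro h z hz
      rw [hZ] at hz
      obtain ⟨c, hc1, hc2⟩ := h z (hker z hz.1) hz.2
      have hcC : c ∈ C := by
        rw [hC]
        intro d
        rw [hφ]
        exact hc1 d
      refine ⟨⟨c, hcC⟩, ?_⟩
      ext d
      exact (hc2 d).symm
    · intro h z hz1 hz2
      have hz : z ∈ Z := by
        rw [hZ]
        refine ⟨?_, hz2⟩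
        ext d
        rw [hT, hz1]
        exact CharTwo.add_self_eq_zero _
      obtain ⟨⟨c, hc⟩, hcz⟩ := h hz
      rw [hC] at hc
      refine ⟨c, fun d => ?_, fun d => ?_⟩
      · rw [← hφ]
        exact hc d
      · exact (congrFun hcz d).symm
  rw [hsph]
  constructor
  · intro h
    have e1 : LinearMap.range T' = Z := le_antisymm hBZ h
    rw [e1] at h9
    omega
  · intro h
    have e1 : LinearMap.range T' = Z := by
      apply Submodule.eq_of_le_of_finrank_eq hBZ
      omega
    rw [e1]

open Classical in
theorem thm_EulerIff : EulerIff := by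
  intro V M hM
  obtain ⟨hne, hconn⟩ := hM
  let p : M.D → {v // v ∈ univ.image M.src} := fun d => ⟨M.src d, mem_image_of_mem _ (mem_univ d)⟩
  have hp : Function.Surjective p := by
    rintro ⟨v, hv⟩
    have hv' := hv
    rw [mem_image] at hv'
    obtain ⟨d, -, hd⟩ := hv'
    exact ⟨d, Subtype.ext hd⟩
  have hmain := EulerIff_main (K := {v // v ∈ univ.image M.src}) M.inv M.rot M.face p hp M.inv_inv
    M.inv_ne (fun d => rfl) (fun d => Subtype.ext (M.src_rot d)) hconn
  have hcard := Fintype.card_coe (univ.image M.src)
  rw [← RotSys.nV] at hcard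
  have hF : Fintype.card (Quotient (Equiv.Perm.SameCycle.setoid M.face)) = M.nF := by
    rw [RotSys.nF]
  rw [hcard, hF] at hmain
  rw [← hmain]
  unfold RotSys.Spherical
  constructor
  · intro h z hz1 hz2
    refine h z hz1 fun v => ?_
    by_cases hv : v ∈ univ.image M.src
    · rw [← hz2 ⟨v, hv⟩]
      apply Finset.sum_congr _ (fun _ _ => rfl)
      ext d
      simp [p]
    · apply Finset.sum_eq_zero
      intro d hd
      exfalso
      apply hv
      rw [mem_image]
      exact ⟨d, mem_univ _, by simpa using hd⟩
  · intro h z hz1 hz2
    refine h z hz1 fun k => ?_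
    rw [← hz2 k.1]
    apply Finset.sum_congr _ (fun _ _ => rfl)
    ext d
    simp only [mem_filter, mem_univ, true_and, p]
    exact ⟨fun h => congrArg Subtype.val h, fun h => Subtype.ext h⟩

end Pool.Agent.ICP
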