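import Pool.Agent.ICP.St

set_option autoImplicit false

namespace Pool.Agent.ICP

open Finset Module

open Classical in
private theorem EulerW_orbits {D : Type} [Fintype D] (φ : Equiv.Perm D) (g : D → ℕ) (c : ℕ)
    (h : ∀ d, c ≤ ∑ e ∈ univ.filter (fun e => φ.SameCycle d e), g e) :
    c * Fintype.card (Quotient (Equiv.Perm.SameCycle.setoid φ)) ≤ ∑ d, g d := by
  rw [← Finset.sum_fiberwise_of_maps_to
    (g := fun d : D => (Quotient.mk (Equiv.Perm.SameCycle.setoid φ) d)) (t := univ)
    (fun d _ => mem_univ _) g]
  have h1 : ∀ o ∈ (univ : Finset (Quotient (Equiv.Perm.SameCycle.setoid φ))),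
      c ≤ ∑ d ∈ univ.filter (fun d : D =>
        (Quotient.mk (Equiv.Perm.SameCycle.setoid φ) d) = o), g d := by
    intro o _
    induction o using Quotient.inductionOn with
    | h d0 =>
      refine (h d0).trans (le_of_eq ?_)
      apply Finset.sum_congr _ (fun _ _ => rfl)
      ext d
      simp only [mem_filter, mem_univ, true_and]
      constructor
      · intro hd
        exact Quotient.sound hd.symm
      · intro hd
        have := Quotient.exact hd
        exact (show φ.SameCycle d d0 from this).symm
  have h2 := Finset.card_nsmul_le_sum _ _ _ h1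
  rw [Finset.card_univ, smul_eq_mul, mul_comm] at h2
  exact h2

open Classical in
private theorem EulerW_main {D K : Type} [Fintype D] [Nonempty D] [Fintype K] [DecidableEq K]
    (inv : D → D) (rot φ : Equiv.Perm D) (p : D → K) (hinv : ∀ d, inv (inv d) = d)
    (hne : ∀ d, inv d ≠ d) (hφ : ∀ d, φ d = rot (inv d))
    (sph : ∀ z : D → ZMod 2, (∀ d, z (inv d) = z d) →
      (∀ k : K, ∑ d ∈ univ.filter (fun d => p d = k), z d = 0) →
      ∃ c : D → ZMod 2, (∀ d, c (rot (inv d)) = c d) ∧ ∀ d, z d = c d + c (inv d)) :
    Fintype.card D + 4 ≤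
      2 * Fintype.card (Quotient (Equiv.Perm.SameCycle.setoid φ)) + 2 * Fintype.card K := by
  haveI : Nonempty K := ⟨p (Classical.arbitrary D)⟩
  let T : (D → ZMod 2) →ₗ[ZMod 2] (D → ZMod 2) :=
    LinearMap.id + LinearMap.funLeft (ZMod 2) (ZMod 2) inv
  have hT : ∀ z d, T z d = z d + z (inv d) := fun z d => rfl
  have hTT : ∀ z, T (T z) = 0 := by
    intro z
    ext d
    rw [hT, hT, hT, hinv, Pi.zero_apply, add_comm (z (inv d)) (z d)]
    exact CharTwo.add_self_eq_zero _
  have h1 : finrank (ZMod 2) (LinearMap.range T) ≤ finrank (ZMod 2) (LinearMap.ker T) := by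
    apply Submodule.finrank_mono
    rintro _ ⟨z, rfl⟩
    exact hTT z
  have h2 := LinearMap.finrank_range_add_finrank_ker T
  rw [Module.finrank_fintype_fun_eq_card] at h2
  let b : (D → ZMod 2) →ₗ[ZMod 2] (K → ZMod 2) :=
    { toFun := fun z k => ∑ d ∈ univ.filter (fun d => p d = k), z d
      map_add' := by
        intro x y
        ext k
        simp [Finset.sum_add_distrib]
      map_smul' := by
        intro r x
        ext k
        simp [Finset.mul_sum] }
  have hb : ∀ z k, b z k = ∑ d ∈ univ.filter (fun d => p d = k), z d := fun z k => rfl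
  let s : (K → ZMod 2) →ₗ[ZMod 2] ZMod 2 :=
    { toFun := fun y => ∑ k, y k
      map_add' := by
        intro x y
        simp [Finset.sum_add_distrib]
      map_smul' := by
        intro r x
        simp [Finset.mul_sum] }
  have hs : ∀ y, s y = ∑ k, y k := fun y => rfl
  have hker : ∀ z, T z = 0 → ∀ d, z (inv d) = z d := by
    intro z hz d
    have := congrFun hz d
    rw [hT, Pi.zero_apply] at this
    exact (CharTwo.add_eq_zero.1 this).symm
  have hsum0 : ∀ z, T z = 0 → ∑ d, z d = 0 := by
    intro z hz
    apply Finset.sum_involution (fun d _ => inv d)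
    · intro d _
      rw [hker z hz d]
      exact CharTwo.add_self_eq_zero _
    · intro d _ _
      exact hne d
    · intro d _
      exact mem_univ _
    · intro d _
      exact hinv d
  let b' : LinearMap.ker T →ₗ[ZMod 2] (K → ZMod 2) := b.domRestrict (LinearMap.ker T)
  have h3 : LinearMap.range b' ≤ LinearMap.ker s := by
    rintro _ ⟨z, rfl⟩
    rw [LinearMap.mem_ker, hs]
    have : ∑ k, b' z k = ∑ d, z.1 d := by
      show ∑ k, ∑ d ∈ univ.filter (fun d => p d = k), z.1 d = _
      exact Finset.sum_fiberwise_of_maps_to (fun d _ => mem_univ _) _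
    rw [this]
    exact hsum0 z.1 z.2
  have h4 : finrank (ZMod 2) (LinearMap.range s) = 1 := by
    have : LinearMap.range s = ⊤ := by
      rw [LinearMap.range_eq_top]
      intro r
      refine ⟨Pi.single (Classical.arbitrary K) r, ?_⟩
      rw [hs]
      simp
    rw [this, finrank_top]
    exact Module.finrank_self _
  have h5 := LinearMap.finrank_range_add_finrank_ker s
  rw [Module.finrank_fintype_fun_eq_card, h4] at h5
  have h6 := Submodule.finrank_mono h3
  have h7 := LinearMap.finrank_range_add_finrank_ker b'
  -- functions constant on orbits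
  let q : D → Quotient (Equiv.Perm.SameCycle.setoid φ) := fun d => Quotient.mk _ d
  let Q : (Quotient (Equiv.Perm.SameCycle.setoid φ) → ZMod 2) →ₗ[ZMod 2] (D → ZMod 2) :=
    LinearMap.funLeft (ZMod 2) (ZMod 2) q
  let C : Submodule (ZMod 2) (D → ZMod 2) :=
    LinearMap.ker (LinearMap.funLeft (ZMod 2) (ZMod 2) φ - LinearMap.id)
  have hC : ∀ c, c ∈ C ↔ ∀ d, c (φ d) = c d := by
    intro c
    rw [LinearMap.mem_ker]
    constructor
    · intro h d
      have := congrFun h d
      simp only [LinearMap.sub_apply, LinearMap.funLeft_apply, LinearMap.id_coe, id_eq,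
        Pi.sub_apply, Pi.zero_apply] at this
      exact sub_eq_zero.1 this
    · intro h
      ext d
      simp [LinearMap.funLeft_apply, h d]
  have hCQ : C ≤ LinearMap.range Q := by
    intro c hc
    rw [hC] at hc
    have hcz : ∀ d e, φ.SameCycle d e → c d = c e := by
      intro d e h
      obtain ⟨m, hm⟩ := h.exists_nat_pow_eq
      rw [← hm]
      have : ∀ m : ℕ, c ((φ ^ m) d) = c d := by
        intro m
        induction m with
        | zero => simp
        | succ m ih => rw [pow_succ', Equiv.Perm.mul_apply, hc, ih]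
      exact (this m).symm
    refine ⟨Quotient.lift c hcz, ?_⟩
    ext d
    rfl
  have h8 : finrank (ZMod 2) C ≤ Fintype.card (Quotient (Equiv.Perm.SameCycle.setoid φ)) := by
    have e1 := Submodule.finrank_mono hCQ
    have e2 := LinearMap.finrank_range_le Q
    rw [Module.finrank_fintype_fun_eq_card] at e2
    exact e1.trans e2
  let T' : C →ₗ[ZMod 2] (D → ZMod 2) := T.domRestrict C
  have h9 := LinearMap.finrank_range_add_finrank_ker T'
  have h10 : 0 < finrank (ZMod 2) (LinearMap.ker T') := by
    have h1C : (1 : D → ZMod 2) ∈ C := by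
      rw [hC]
      intro d
      rfl
    have h1T : (⟨1, h1C⟩ : C) ∈ LinearMap.ker T' := by
      rw [LinearMap.mem_ker]
      ext d
      show T 1 d = 0
      rw [hT]
      exact CharTwo.add_self_eq_zero _
    have : Nontrivial (LinearMap.ker T') := by
      refine ⟨⟨⟨⟨1, h1C⟩, h1T⟩, 0, ?_⟩⟩
      intro h
      have e1 := congrArg (fun x : LinearMap.ker T' => (x.1 : C).1 (Classical.arbitrary D)) h
      simp at e1
    exact Module.finrank_pos
  have h11 : finrank (ZMod 2) (LinearMap.ker b') ≤ finrank (ZMod 2) (LinearMap.range T') := by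
    let j : LinearMap.ker b' →ₗ[ZMod 2] (D → ZMod 2) :=
      (LinearMap.ker T).subtype ∘ₗ (LinearMap.ker b').subtype
    have hj : ∀ x, j x ∈ LinearMap.range T' := by
      intro x
      have hx1 : ∀ k, ∑ d ∈ univ.filter (fun d => p d = k), x.1.1 d = 0 := by
        intro k
        exact congrFun x.2 k
      obtain ⟨c, hc1, hc2⟩ := sph x.1.1 (hker x.1.1 x.1.2) hx1
      have hcC : c ∈ C := by
        rw [hC]
        intro d
        rw [hφ]
        exact hc1 d
      refine ⟨⟨c, hcC⟩, ?_⟩
      ext d
      exact (hc2 d).symm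
    have hinj : Function.Injective (j.codRestrict (LinearMap.range T') hj) := by
      intro x y hxy
      have := congrArg Subtype.val hxy
      exact Subtype.ext (Subtype.ext this)
    exact LinearMap.finrank_le_finrank_of_injective hinj
  have hK : 0 < Fintype.card K := Fintype.card_pos
  omega

theorem thm_EulerW : EulerW := by
  classical
  intro D K _ _ _ _ _ inv rot φ p hinv hne hφ sph g c hg
  have h1 := EulerW_main inv rot φ p hinv hne hφ sph
  have h2 := EulerW_orbits φ g c (by
    intro d
    refine (hg d).trans (le_of_eq ?_)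
    apply Finset.sum_congr _ (fun _ _ => rfl)
    ext e
    simp)
  have h3 : c * (Fintype.card D + 4) ≤ c * (2 * Fintype.card
    (Quotient (Equiv.Perm.SameCycle.setoid φ)) + 2 * Fintype.card K) := Nat.mul_le_mul_left c h1
  calc c * (Fintype.card D + 4) ≤ _ := h3
    _ = 2 * (c * Fintype.card (Quotient (Equiv.Perm.SameCycle.setoid φ))) +
        2 * c * Fintype.card K := by ring
    _ ≤ 2 * ∑ d, g d + 2 * c * Fintype.card K := by
      have := Nat.mul_le_mul_left 2 h2
      omega

end Pool.Agent.ICP
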