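import Pool.Agent.ICP.St

set_option autoImplicit false

namespace Pool.Agent.ICP

open Finset

theorem thm_Exact (h : Restrict) : Exact := by
  classical
  rintro V G ⟨M, hM, hG⟩
  letI : LinearOrder V := linearOrderOfSTO (WellOrderingRel (α := V))
  rcases isEmpty_or_nonempty M.D with hemp | hne
  · refine ⟨M, hM, fun u v => ⟨hG u v, ?_⟩, fun d => isEmptyElim d⟩
    rintro ⟨d, _⟩
    exact isEmptyElim d
  choose! δ hδ1 hδ2 using hG
  let P : M.D → Prop := fun d => G.Adj (M.src d) (M.src (M.inv d)) ∧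
    ((M.src d < M.src (M.inv d) ∧ d = δ (M.src d) (M.src (M.inv d))) ∨
      (M.src (M.inv d) < M.src d ∧ M.inv d = δ (M.src (M.inv d)) (M.src d)))
  have hP : ∀ d, P d → P (M.inv d) := by
    rintro d ⟨ha, hb⟩
    refine ⟨?_, ?_⟩
    · rw [M.inv_inv]
      exact ha.symm
    · rw [M.inv_inv]
      rcases hb with hb | hb
      · exact Or.inr hb
      · exact Or.inl hb
  obtain ⟨M', hM', f, hf, hsrc, hinv, hPf⟩ := h V M hM P hP
  refine ⟨M', hM', ?_, ?_⟩
  · intro u v
    constructor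
    · intro huv
      rcases lt_or_gt_of_ne huv.ne with hlt | hlt
      · have h1 := hδ1 u v huv
        have h2 := hδ2 u v huv
        obtain ⟨e, he⟩ := (hPf (δ u v)).1 ⟨by rw [h1, h2]; exact huv,
          Or.inl ⟨by rw [h1, h2]; exact hlt, by rw [h1, h2]⟩⟩
        exact ⟨e, by rw [hsrc, he, h1], by rw [hsrc, hinv, he, h2]⟩
      · have h1 := hδ1 v u huv.symm
        have h2 := hδ2 v u huv.symm
        obtain ⟨e, he⟩ := (hPf (M.inv (δ v u))).1 ⟨by rw [M.inv_inv, h1, h2]; exact huv,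
          Or.inr ⟨by rw [M.inv_inv, h1, h2]; exact hlt, by rw [M.inv_inv, h1, h2]⟩⟩
        refine ⟨e, by rw [hsrc, he, h2], ?_⟩
        rw [hsrc, hinv, he, M.inv_inv, h1]
    · rintro ⟨d, hd1, hd2⟩
      have := ((hPf (f d)).2 ⟨d, rfl⟩).1
      rw [← hsrc, ← hinv, ← hsrc, hd1, hd2] at this
      exact this
  · intro d e h1 h2
    apply hf
    have hd := ((hPf (f d)).2 ⟨d, rfl⟩).2
    have he := ((hPf (f e)).2 ⟨e, rfl⟩).2
    rw [← hsrc, ← hinv, ← hsrc, h1, h2] at hd
    rw [← hsrc, ← hinv, ← hsrc] at he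
    rcases hd with ⟨hd1, hd2⟩ | ⟨hd1, hd2⟩
    · rcases he with ⟨he1, he2⟩ | ⟨he1, he2⟩
      · rw [hd2, he2]
      · exact absurd hd1 (not_lt_of_gt he1)
    · rcases he with ⟨he1, he2⟩ | ⟨he1, he2⟩
      · exact absurd hd1 (not_lt_of_gt he1)
      · have h3 : f (M'.inv d) = f (M'.inv e) := hd2.trans he2.symm
        rw [hinv, hinv] at h3
        have := congrArg M.inv h3
        rwa [M.inv_inv, M.inv_inv] at this

end Pool.Agent.ICP
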