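import Pool.Agent.ICP.St2

/-!
# ICP (FinForest): the chosen ends form an induced forest
-/

set_option autoImplicit false

namespace Pool.Agent.ICP

open Finset

theorem thm_FinForest : FinForest := by
  intro V G Dr f Gx S t hf _ hGx hS hac
  have hch : ∀ x : {x | ∃ i, x = Dr.cr i (t i)}, ∃ i, x.1 = Dr.cr i (t i) := fun x => x.2
  choose i hi using hch
  have hadj : ∀ x y : {x | ∃ i, x = Dr.cr i (t i)},
      (G.induce {x | ∃ i, x = Dr.cr i (t i)}).Adj x y →
      (res (Gx.comap f) (TS S t)).Adj (Sum.inl (i x, t (i x))) (Sum.inl (i y, t (i y))) := by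
    intro x y hxy
    have hG : G.Adj x.1 y.1 := hxy
    refine ⟨⟨i x, hS _, rfl⟩, ⟨i y, hS _, rfl⟩, ?_⟩
    show Gx.Adj (f (Sum.inl (i x, t (i x)))) (f (Sum.inl (i y, t (i y))))
    rw [hf, hf, ← hi x, ← hi y, hGx]
    refine ⟨fun h => hG.ne (Sum.inl.inj h), ?_⟩
    rcases (Dr.adj x.1 y.1).mp hG with h | ⟨k, j, h1, h2⟩
    · exact h
    · exfalso
      rw [hi x] at h1
      rw [hi y] at h2
      obtain ⟨e1, e2⟩ := Dr.indep _ _ _ _ h1
      obtain ⟨e3, e4⟩ := Dr.indep _ _ _ _ h2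
      rw [e3] at e4
      rw [e1] at e2
      rw [e2] at e4
      revert e4
      generalize j = j'
      revert j'
      decide
  refine SimpleGraph.IsAcyclic.comap
    (⟨fun x => Sum.inl (i x, t (i x)), fun {x y} h => hadj x y h⟩ :
      (G.induce {x | ∃ i, x = Dr.cr i (t i)}) →g res (Gx.comap f) (TS S t)) ?_ hac
  intro x y hxy
  have h1 : (i x, t (i x)) = (i y, t (i y)) := Sum.inl.inj hxy
  have h2 : i x = i y := congrArg Prod.fst h1
  apply Subtype.ext
  rw [hi x, hi y, h2]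

end Pool.Agent.ICP
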