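import Pool.Agent.ICP.St2

/-!
# ICP (FinPlanar): the rest is planar
-/

set_option autoImplicit false

namespace Pool.Agent.ICP

open Finset

private theorem FinPlanar_mono {V : Type} {G G' : SimpleGraph V} (h : IsPlanar G)
    (hle : ∀ u v, G'.Adj u v → G.Adj u v) : IsPlanar G' := by
  obtain ⟨M, hM, hadj⟩ := h
  exact ⟨M, hM, fun u v huv => hadj u v (hle u v huv)⟩

/-- The simple graph of the planarization. -/
private def FinPlanar_graph {W : Type} (M : RotSys W) : SimpleGraph W where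
  Adj a b := a ≠ b ∧ ∃ d, M.src d = a ∧ M.src (M.inv d) = b
  symm := by
    constructor
    rintro a b ⟨h1, d, h2, h3⟩
    exact ⟨h1.symm, M.inv d, h3, by rw [M.inv_inv]; exact h2⟩
  loopless := ⟨fun _ h => h.1 rfl⟩

private theorem FinPlanar_ind (h : Con1) {V : Type} {G : SimpleGraph V} (Dr : ICDrawing G)
    (t : Dr.I → Fin 4) (s : Finset Dr.I) : ∃ H : SimpleGraph (V ⊕ Dr.I), IsPlanar H ∧
      (∀ u v, u ≠ v → (∃ d, Dr.M.src d = Sum.inl u ∧ Dr.M.src (Dr.M.inv d) = Sum.inl v) →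
        H.Adj (Sum.inl u) (Sum.inl v)) ∧
      (∀ i ∈ s, H.Adj (Sum.inl (Dr.cr i (t i + 1))) (Sum.inl (Dr.cr i (t i + 3)))) ∧
      (∀ i, i ∉ s → ∀ j, H.Adj (Sum.inr i) (Sum.inl (Dr.cr i j))) := by
  classical
  induction s using Finset.induction_on with
  | empty =>
    refine ⟨FinPlanar_graph Dr.M, ⟨Dr.M, Dr.sph, fun u v huv => huv.2⟩, fun u v huv hd =>
      ⟨fun h1 => huv (Sum.inl.inj h1), hd⟩, fun i hi => absurd hi (Finset.notMem_empty i),
      fun i _ j => ⟨Sum.inr_ne_inl, Dr.e i j, Dr.src_e i j, Dr.tgt_e i j⟩⟩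
  | insert i₀ s hi₀ ih =>
    obtain ⟨H, hH, h1, h2, h3⟩ := ih
    have hu : H.Adj (Sum.inr i₀) (Sum.inl (Dr.cr i₀ (t i₀ + 1))) := h3 i₀ hi₀ _
    refine ⟨contr H {Sum.inr i₀} (Sum.inl (Dr.cr i₀ (t i₀ + 1))), h _ H _ _ hu hH, ?_, ?_, ?_⟩
    · intro u v huv hd
      exact ⟨fun h4 => huv (Sum.inl.inj h4), fun h4 => Sum.inl_ne_inr (Set.mem_singleton_iff.1 h4),
        fun h4 => Sum.inl_ne_inr (Set.mem_singleton_iff.1 h4),
        Or.inl (h1 u v huv hd)⟩
    · intro i hi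
      rcases Finset.mem_insert.1 hi with rfl | hi'
      · refine ⟨fun h4 => ?_, fun h4 => Sum.inl_ne_inr (Set.mem_singleton_iff.1 h4),
        fun h4 => Sum.inl_ne_inr (Set.mem_singleton_iff.1 h4),
          Or.inr (Or.inl ⟨rfl, Sum.inr i, Set.mem_singleton _, h3 i hi₀ _⟩)⟩
        have h5 := (Dr.indep _ _ _ _ (Sum.inl.inj h4)).2
        revert h5
        generalize t i = j
        revert j
        decide
      · exact ⟨(h2 i hi').ne, fun h4 => Sum.inl_ne_inr (Set.mem_singleton_iff.1 h4),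
        fun h4 => Sum.inl_ne_inr (Set.mem_singleton_iff.1 h4), Or.inl (h2 i hi')⟩
    · intro i hi j
      have hne : i ≠ i₀ := fun h4 => hi (by rw [h4]; exact Finset.mem_insert_self _ _)
      have his : i ∉ s := fun h4 => hi (Finset.mem_insert_of_mem h4)
      exact ⟨(h3 i his j).ne, fun h4 => hne (Sum.inr.inj (Set.mem_singleton_iff.1 h4)),
        fun h4 => Sum.inl_ne_inr (Set.mem_singleton_iff.1 h4),
        Or.inl (h3 i his j)⟩

theorem thm_FinPlanar (h : Con1) (hC : Comap) : FinPlanar := by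
  intro V G Dr t
  have hinj : Function.Injective (fun i => Dr.e i 0) := by
    intro i i' hii
    have h1 : Dr.M.src (Dr.e i 0) = Dr.M.src (Dr.e i' 0) := congrArg Dr.M.src hii
    rw [Dr.src_e, Dr.src_e] at h1
    exact Sum.inr.inj h1
  have : Finite Dr.I := Finite.of_injective _ hinj
  have : Fintype Dr.I := Fintype.ofFinite Dr.I
  obtain ⟨H, hH, h1, h2, -⟩ := FinPlanar_ind h Dr t Finset.univ
  have hf : Function.Injective
      (fun x : ({x | ∃ i, x = Dr.cr i (t i)}ᶜ : Set V) => (Sum.inl x.1 : V ⊕ Dr.I)) := by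
    intro x y hxy
    exact Subtype.ext (Sum.inl.inj hxy)
  refine FinPlanar_mono (hC (V ⊕ Dr.I) _ ⟨_, hf⟩ H hH) fun x y hxy => ?_
  show H.Adj (Sum.inl x.1) (Sum.inl y.1)
  have hG : G.Adj x.1 y.1 := hxy
  rcases (Dr.adj x.1 y.1).mp hG with hd | ⟨i, j, hx, hy⟩
  · exact h1 _ _ hG.ne hd
  · have hj1 : j ≠ t i := fun h4 => x.2 ⟨i, by rw [hx, h4]⟩
    have hj2 : j + 2 ≠ t i := fun h4 => y.2 ⟨i, by rw [hy, h4]⟩
    have hjk : ∀ j k : Fin 4, j ≠ k → j + 2 ≠ k → j = k + 1 ∨ j = k + 3 := by decide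
    have hj := hjk j (t i) hj1 hj2
    rcases hj with rfl | rfl
    · have h5 : t i + 1 + 2 = t i + 3 := by
        generalize t i = k
        revert k
        decide
      rw [hx, hy, h5]
      exact h2 i (Finset.mem_univ i)
    · have h5 : t i + 3 + 2 = t i + 1 := by
        generalize t i = k
        revert k
        decide
      rw [hx, hy, h5]
      exact (h2 i (Finset.mem_univ i)).symm

end Pool.Agent.ICP
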