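import Pool.Agent.ICP.St

/-!
# ICP / GoodLeaf: choice of three consecutive leaves (helper82)
-/

set_option autoImplicit false

namespace Pool.Agent.ICP

open Finset

private theorem GoodLeaf_two_k {K : Type} [Fintype K] [DecidableEq K] (M : KMap K) (d : M.D)
    (h : M.Two d) : (M.lf (M.inv (M.rot d))).1 = (M.lf (M.inv d)).1 := by
  have h1 := M.rot_k (M.inv (M.rot d))
  unfold KMap.Two at h
  rw [h] at h1
  exact h1.symm

private theorem GoodLeaf_const {K : Type} [Fintype K] [DecidableEq K] (M : KMap K)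
    (v : K × Fin 4) (h : ∀ i, i < M.n v → M.Two ((M.rot ^ i) (M.first v))) (i : ℕ)
    (hi : i ≤ M.n v) :
    (M.lf (M.inv ((M.rot ^ i) (M.first v)))).1 = (M.lf (M.inv (M.first v))).1 := by
  induction i with
  | zero => simp
  | succ i ih =>
    have h1 := GoodLeaf_two_k M _ (h i (by omega))
    rw [pow_succ', Equiv.Perm.mul_apply, h1]
    exact ih (by omega)

open Classical in
private theorem GoodLeaf_inner {K : Type} [Fintype K] [DecidableEq K] (M : KMap K)
    (hM : M.Rich) (v : K × Fin 4) :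
    1 ≤ ((range (M.n v)).filter (fun i => ¬ M.Two ((M.rot ^ i) (M.first v)))).card := by
  rw [Nat.one_le_iff_ne_zero, Ne, Finset.card_eq_zero]
  intro h0
  have hall : ∀ i, i < M.n v → M.Two ((M.rot ^ i) (M.first v)) := by
    intro i hi
    by_contra hc
    have h1 : i ∈ (range (M.n v)).filter (fun i => ¬ M.Two ((M.rot ^ i) (M.first v))) :=
      Finset.mem_filter.2 ⟨Finset.mem_range.2 hi, hc⟩
    rw [h0] at h1
    exact absurd h1 (Finset.notMem_empty _)
  obtain ⟨d, e, hd, he, hne⟩ := hM v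
  apply hne
  obtain ⟨i, hi, hdi⟩ := M.ex_pow d
  obtain ⟨j, hj, hej⟩ := M.ex_pow e
  rw [hd] at hi hdi
  rw [he] at hj hej
  rw [hdi, hej, GoodLeaf_const M v hall i hi, GoodLeaf_const M v hall j hj]

open Classical in
private theorem GoodLeaf_card {K : Type} [Fintype K] [DecidableEq K] (M : KMap K)
    (v : K × Fin 4) :
    ((range (M.n v)).filter (fun i => ¬ M.Two ((M.rot ^ i) (M.first v)))).card +
      (if M.Two (M.last v) then 0 else 1) ≤
      (univ.filter (fun d => M.lf d = v ∧ ¬ M.Two d)).card := by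
  have h1 : ((range (M.n v)).filter (fun i => ¬ M.Two ((M.rot ^ i) (M.first v)))).card +
      (if M.Two (M.last v) then 0 else 1) =
      ((range (M.n v + 1)).filter (fun i => ¬ M.Two ((M.rot ^ i) (M.first v)))).card := by
    rw [Finset.range_add_one, Finset.filter_insert]
    by_cases h : M.Two (M.last v)
    · have h' : M.Two ((M.rot ^ M.n v) (M.first v)) := h
      rw [if_pos h, if_neg (not_not.2 h'), add_zero]
    · have h' : ¬ M.Two ((M.rot ^ M.n v) (M.first v)) := h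
      rw [if_neg h, if_pos h', Finset.card_insert_of_notMem]
      intro h2
      have h3 := Finset.mem_range.1 (Finset.mem_filter.1 h2).1
      omega
  rw [h1]
  refine Finset.card_le_card_of_injOn (fun i => (M.rot ^ i) (M.first v)) ?_ ?_
  · intro i hi
    obtain ⟨h2, h3⟩ := Finset.mem_filter.1 (Finset.mem_coe.1 hi)
    have h4 := Finset.mem_range.1 h2
    exact Finset.mem_coe.2 (Finset.mem_filter.2 ⟨Finset.mem_univ _,
      M.lf_pow v i (by omega), h3⟩)
  · intro i hi j hj hij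
    have h2 := Finset.mem_range.1 (Finset.mem_filter.1 (Finset.mem_coe.1 hi)).1
    have h3 := Finset.mem_range.1 (Finset.mem_filter.1 (Finset.mem_coe.1 hj)).1
    exact M.pow_inj v i j (by omega) (by omega) hij

open Classical in
private theorem GoodLeaf_oneJ {K : Type} [Fintype K] [DecidableEq K] (M : KMap K)
    (v : K × Fin 4)
    (h : ((range (M.n v)).filter (fun i => ¬ M.Two ((M.rot ^ i) (M.first v)))).card = 1) :
    M.OneJ v := by
  obtain ⟨j, hj⟩ := Finset.card_eq_one.1 h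
  have h1 : j ∈ (range (M.n v)).filter (fun i => ¬ M.Two ((M.rot ^ i) (M.first v))) := by
    rw [hj]
    exact Finset.mem_singleton_self j
  obtain ⟨h2, h3⟩ := Finset.mem_filter.1 h1
  refine ⟨j, Finset.mem_range.1 h2, fun i hi => ⟨fun h4 h5 => h3 (h5 ▸ h4), fun h4 => ?_⟩⟩
  by_contra h5
  have h6 : i ∈ (range (M.n v)).filter (fun i => ¬ M.Two ((M.rot ^ i) (M.first v))) :=
    Finset.mem_filter.2 ⟨Finset.mem_range.2 hi, h5⟩
  rw [hj] at h6
  exact h4 (Finset.mem_singleton.1 h6)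

open Classical in
private theorem GoodLeaf_sum {K : Type} [Fintype K] [DecidableEq K] (M : KMap K)
    (v : K × Fin 4) (k : K) (hv : v.1 = k) :
    (univ.filter (fun d => M.lf d = v ∧ ¬ M.Two d)).card +
    (univ.filter (fun d => M.lf d = M.nx v ∧ ¬ M.Two d)).card +
    (univ.filter (fun d => M.lf d = M.nx (M.nx v) ∧ ¬ M.Two d)).card +
    (univ.filter (fun d => M.lf d = M.nx (M.nx (M.nx v)) ∧ ¬ M.Two d)).card ≤
    (univ.filter (fun d => (M.lf d).1 = k ∧ ¬ M.Two d)).card := by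
  have e1 : M.nx v ≠ v := M.nx_ne1 v
  have e2 : M.nx (M.nx v) ≠ v := M.nx_ne2 v
  have e3 : M.nx (M.nx (M.nx v)) ≠ v := M.nx_ne3 v
  have e4 : M.nx (M.nx v) ≠ M.nx v := M.nx_ne1 _
  have e5 : M.nx (M.nx (M.nx v)) ≠ M.nx v := M.nx_ne2 _
  have e6 : M.nx (M.nx (M.nx v)) ≠ M.nx (M.nx v) := M.nx_ne1 _
  have k1 : (M.nx v).1 = k := by rw [M.nx_k, hv]
  have k2 : (M.nx (M.nx v)).1 = k := by rw [M.nx_k, k1]
  have k3 : (M.nx (M.nx (M.nx v))).1 = k := by rw [M.nx_k, k2]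
  have hdis : ∀ a b : K × Fin 4, a ≠ b → Disjoint
      (univ.filter (fun d => M.lf d = a ∧ ¬ M.Two d))
      (univ.filter (fun d => M.lf d = b ∧ ¬ M.Two d)) := by
    intro a b hab
    rw [Finset.disjoint_left]
    intro d hd hd'
    exact hab ((Finset.mem_filter.1 hd).2.1.symm.trans (Finset.mem_filter.1 hd').2.1)
  rw [← Finset.card_union_of_disjoint (hdis _ _ e1.symm),
    ← Finset.card_union_of_disjoint (Finset.disjoint_union_left.2 ⟨hdis _ _ e2.symm,
      hdis _ _ e4.symm⟩),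
    ← Finset.card_union_of_disjoint (Finset.disjoint_union_left.2 ⟨Finset.disjoint_union_left.2
      ⟨hdis _ _ e3.symm, hdis _ _ e5.symm⟩, hdis _ _ e6.symm⟩)]
  refine Finset.card_le_card fun d hd => ?_
  simp only [Finset.mem_union, Finset.mem_filter, Finset.mem_univ, true_and] at hd ⊢
  rcases hd with ((⟨h, h'⟩ | ⟨h, h'⟩) | ⟨h, h'⟩) | ⟨h, h'⟩
  · exact ⟨by rw [h, hv], h'⟩
  · exact ⟨by rw [h, k1], h'⟩
  · exact ⟨by rw [h, k2], h'⟩
  · exact ⟨by rw [h, k3], h'⟩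

/-- (M15) Choice of three leaves. -/
theorem thm_GoodLeaf : GoodLeaf := by
  classical
  intro K _ _ M hM k hk
  have hk' : (univ.filter (fun d => (M.lf d).1 = k ∧ ¬ M.Two d)).card ≤ 5 := by
    refine le_trans (le_of_eq ?_) hk
    exact congrArg Finset.card (Finset.filter_congr_decidable _ _ _)
  obtain ⟨v, hv⟩ : ∃ v : K × Fin 4, v.1 = k := ⟨(k, 0), rfl⟩
  have hs := (GoodLeaf_sum M v k hv).trans hk'
  have i0 := GoodLeaf_inner M hM v
  have i1 := GoodLeaf_inner M hM (M.nx v)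
  have i2 := GoodLeaf_inner M hM (M.nx (M.nx v))
  have i3 := GoodLeaf_inner M hM (M.nx (M.nx (M.nx v)))
  have c0 := GoodLeaf_card M v
  have c1 := GoodLeaf_card M (M.nx v)
  have c2 := GoodLeaf_card M (M.nx (M.nx v))
  have c3 := GoodLeaf_card M (M.nx (M.nx (M.nx v)))
  have j0 := GoodLeaf_oneJ M v
  have j1 := GoodLeaf_oneJ M (M.nx v)
  have j2 := GoodLeaf_oneJ M (M.nx (M.nx v))
  have j3 := GoodLeaf_oneJ M (M.nx (M.nx (M.nx v)))
  have k1 : (M.nx v).1 = k := by rw [M.nx_k, hv]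
  have k2 : (M.nx (M.nx v)).1 = k := by rw [M.nx_k, k1]
  have k3 : (M.nx (M.nx (M.nx v))).1 = k := by rw [M.nx_k, k2]
  have e4 := M.nx_eq4 v
  generalize ((range (M.n v)).filter
    (fun i => ¬ M.Two ((M.rot ^ i) (M.first v)))).card = a0 at *
  generalize ((range (M.n (M.nx v))).filter
    (fun i => ¬ M.Two ((M.rot ^ i) (M.first (M.nx v))))).card = a1 at *
  generalize ((range (M.n (M.nx (M.nx v)))).filter
    (fun i => ¬ M.Two ((M.rot ^ i) (M.first (M.nx (M.nx v)))))).card = a2 at *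
  generalize ((range (M.n (M.nx (M.nx (M.nx v))))).filter
    (fun i => ¬ M.Two ((M.rot ^ i) (M.first (M.nx (M.nx (M.nx v))))))).card = a3 at *
  -- `g i` : the leaf `i` is fine
  have key : ∀ (a : ℕ) (w : K × Fin 4), a + (if M.Two (M.last w) then 0 else 1) = 1 → 1 ≤ a →
      a = 1 ∧ M.Two (M.last w) := by
    intro a w h1 h2
    by_cases h : M.Two (M.last w)
    · rw [if_pos h] at h1
      exact ⟨by omega, h⟩
    · rw [if_neg h] at h1
      omega
  generalize hb0 : (if M.Two (M.last v) then 0 else 1) = b0 at *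
  generalize hb1 : (if M.Two (M.last (M.nx v)) then 0 else 1) = b1 at *
  generalize hb2 : (if M.Two (M.last (M.nx (M.nx v))) then 0 else 1) = b2 at *
  generalize hb3 : (if M.Two (M.last (M.nx (M.nx (M.nx v)))) then 0 else 1) = b3 at *
  have hcases : (a1 + b1 = 1 ∧ a2 + b2 = 1 ∧ a3 + b3 = 1) ∨
      (a2 + b2 = 1 ∧ a3 + b3 = 1 ∧ a0 + b0 = 1) ∨
      (a3 + b3 = 1 ∧ a0 + b0 = 1 ∧ a1 + b1 = 1) ∨
      (a0 + b0 = 1 ∧ a1 + b1 = 1 ∧ a2 + b2 = 1) := by omega
  rcases hcases with ⟨h1, h2, h3⟩ | ⟨h2, h3, h0⟩ | ⟨h3, h0, h1⟩ | ⟨h0, h1, h2⟩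
  · obtain ⟨p1, q1⟩ := key a1 (M.nx v) (by rw [hb1]; exact h1) i1
    obtain ⟨p2, q2⟩ := key a2 (M.nx (M.nx v)) (by rw [hb2]; exact h2) i2
    obtain ⟨p3, q3⟩ := key a3 (M.nx (M.nx (M.nx v))) (by rw [hb3]; exact h3) i3
    exact ⟨M.nx v, k1, j1 p1, j2 p2, j3 p3, q1, q2⟩
  · obtain ⟨p2, q2⟩ := key a2 (M.nx (M.nx v)) (by rw [hb2]; exact h2) i2
    obtain ⟨p3, q3⟩ := key a3 (M.nx (M.nx (M.nx v))) (by rw [hb3]; exact h3) i3
    obtain ⟨p0, q0⟩ := key a0 v (by rw [hb0]; exact h0) i0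
    exact ⟨M.nx (M.nx v), k2, j2 p2, j3 p3, by rw [e4]; exact j0 p0, q2, q3⟩
  · obtain ⟨p3, q3⟩ := key a3 (M.nx (M.nx (M.nx v))) (by rw [hb3]; exact h3) i3
    obtain ⟨p0, q0⟩ := key a0 v (by rw [hb0]; exact h0) i0
    obtain ⟨p1, q1⟩ := key a1 (M.nx v) (by rw [hb1]; exact h1) i1
    exact ⟨M.nx (M.nx (M.nx v)), k3, j3 p3, by rw [e4]; exact j0 p0, by rw [e4]; exact j1 p1,
      q3, by rw [e4]; exact q0⟩
  · obtain ⟨p0, q0⟩ := key a0 v (by rw [hb0]; exact h0) i0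
    obtain ⟨p1, q1⟩ := key a1 (M.nx v) (by rw [hb1]; exact h1) i1
    obtain ⟨p2, q2⟩ := key a2 (M.nx (M.nx v)) (by rw [hb2]; exact h2) i2
    exact ⟨v, hv, j0 p0, j1 p1, j2 p2, q0, q1⟩

end Pool.Agent.ICP
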