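import Pool.Agent.ICP.St

/-!
# ICP MkKMap: packaging of the contracted system
-/

set_option autoImplicit false

namespace Pool.Agent.ICP

open Finset

/-- the other dart of an out dart -/
def MkKMap_inv {K : Type} (M : RotSys (SV K)) (d : Out M) : Out M :=
  ⟨M.inv d.1, d.2.2, by
    rw [M.inv_inv]
    exact d.2.1⟩

theorem thm_MkKMap (hE : Exact) (hB : Blocks) (hS : SphH) : MkKMap := by
  classical
  intro K _ _ G hG hst hnb
  obtain ⟨M, hM1, hM2, hM3⟩ := hE (SV K) G hG
  have hgood : Good G M := ⟨hst, hM2, hM3, hnb⟩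
  obtain ⟨rotH, lf, first, n, nx, b1, b2, b3, b4, b5, b6, b7, b8⟩ := hB K G M hgood
  haveI : Fintype (Out M) := Fintype.ofFinite _
  have hinv : ∀ d : Out M, ((MkKMap_inv M d : Out M) : M.D) = M.inv (d : M.D) := fun _ => rfl
  have hadj : ∀ d : Out M, G.Adj (Sum.inl (lf d)) (Sum.inl (lf (MkKMap_inv M d))) := fun d =>
    (hM2 _ _).2 ⟨(d : M.D), b2 d, b2 (MkKMap_inv M d)⟩
  have hsph := hS K G M hgood hM1 rotH lf (MkKMap_inv M) b1 b2 hinv
  let N : KMap K :=
    { D := Out M
      fin := inferInstance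
      dec := inferInstance
      lf := lf
      inv := MkKMap_inv M
      rot := rotH
      inv_inv := fun d => Subtype.ext (M.inv_inv _)
      ne := fun d => (hst.ll _ _ (hadj d)).symm
      inj := by
        intro d e h1 h2
        refine Subtype.ext (hM3 _ _ ?_ ?_)
        · rw [b2 d, b2 e, h1]
        · have h3 := b2 (MkKMap_inv M d)
          have h4 := b2 (MkKMap_inv M e)
          rw [hinv] at h3 h4
          rw [h3, h4, h2]
      rot_k := b3
      sph := hsph
      first := first
      n := n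
      nx := nx
      lf_pow := b4
      pow_inj := b5
      ex_pow := b6
      rot_last := b7
      nx_k := fun v => (b8 v).1
      nx_ne1 := fun v => (b8 v).2.1
      nx_ne2 := fun v => (b8 v).2.2.1
      nx_ne3 := fun v => (b8 v).2.2.2.1
      nx_eq4 := fun v => (b8 v).2.2.2.2 }
  refine ⟨N, fun v v' => ⟨fun h => ?_, ?_⟩⟩
  · obtain ⟨d, h1, h2⟩ := (hM2 _ _).1 h
    let d' : Out M := ⟨d, ⟨v, h1⟩, ⟨v', h2⟩⟩
    refine ⟨d', ?_, ?_⟩
    · show lf d' = v
      have h3 : M.src d = Sum.inl (lf d') := b2 d'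
      rw [h1] at h3
      exact (Sum.inl_injective h3).symm
    · show lf (MkKMap_inv M d') = v'
      have h3 : M.src (M.inv d) = Sum.inl (lf (MkKMap_inv M d')) := b2 (MkKMap_inv M d')
      rw [h2] at h3
      exact (Sum.inl_injective h3).symm
  · rintro ⟨d, rfl, rfl⟩
    exact hadj d

end Pool.Agent.ICP
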