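import Pool.Agent.ICP.Closed

set_option autoImplicit false

namespace Pool.Agent.ICP

open Finset

private theorem NoK33_same {D : Type} {ρ : Equiv.Perm D} {d e : D} (h : ρ d = d)
    (hs : ρ.SameCycle d e) : e = d := by
  obtain ⟨m, hm⟩ := hs
  rw [← hm]
  exact Equiv.Perm.zpow_apply_eq_self_of_apply_eq_self h m

private theorem NoK33_aux (hE : Exact) (hW : EulerW) :
    ¬ IsPlanar (completeBipartiteGraph (Fin 3) (Fin 3)) := by
  classical
  intro hpl
  obtain ⟨M, hM, hadj, hinj⟩ := hE _ _ hpl
  have hadj' : ∀ d, (completeBipartiteGraph (Fin 3) (Fin 3)).Adj (M.src d) (M.src (M.inv d)) :=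
    fun d => (hadj _ _).2 ⟨d, rfl, rfl⟩
  have hcard : Fintype.card M.D = 18 := by
    let A := {x : (Fin 3 ⊕ Fin 3) × (Fin 3 ⊕ Fin 3) //
      (completeBipartiteGraph (Fin 3) (Fin 3)).Adj x.1 x.2}
    let f : M.D → A := fun d => ⟨(M.src d, M.src (M.inv d)), hadj' d⟩
    have hf : Function.Bijective f := by
      constructor
      · intro d e hde
        have := congrArg Subtype.val hde
        simp only [f, Prod.mk.injEq] at this
        exact hinj d e this.1 this.2
      · rintro ⟨⟨a, b⟩, hab⟩
        obtain ⟨d, hd1, hd2⟩ := (hadj a b).1 hab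
        exact ⟨d, Subtype.ext (Prod.ext hd1 hd2)⟩
    rw [Fintype.card_of_bijective hf]
    rw [Fintype.card_subtype]
    have : (univ.filter (fun x : (Fin 3 ⊕ Fin 3) × (Fin 3 ⊕ Fin 3) =>
        (completeBipartiteGraph (Fin 3) (Fin 3)).Adj x.1 x.2)) =
        univ.filter (fun x : (Fin 3 ⊕ Fin 3) × (Fin 3 ⊕ Fin 3) =>
        (x.1.isLeft = true ∧ x.2.isRight = true) ∨ (x.1.isRight = true ∧ x.2.isLeft = true)) := by
      ext x
      simp [completeBipartiteGraph]
    rw [this]
    decide
  let φ : Equiv.Perm M.D := (⟨M.inv, M.inv, M.inv_inv, M.inv_inv⟩ : Equiv.Perm M.D).trans M.rot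
  have hφ : ∀ d, φ d = M.rot (M.inv d) := fun d => rfl
  have hsφ : ∀ d, M.src (φ d) = M.src (M.inv d) := by
    intro d
    rw [hφ, M.src_rot]
  have hside : ∀ d, (M.src (φ d)).isLeft = !(M.src d).isLeft := by
    intro d
    rw [hsφ]
    have := hadj' d
    rcases h1 : M.src d with a | a <;> rcases h2 : M.src (M.inv d) with b | b <;>
      rw [h1, h2] at this <;> simp [completeBipartiteGraph] at this ⊢
  have h1 : ∀ d, φ d ≠ d := by
    intro d h
    have := hside d
    rw [h] at this
    cases hh : (M.src d).isLeft <;> rw [hh] at this <;> simp at this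
  have h3 : ∀ d, φ (φ (φ d)) ≠ d := by
    intro d h
    have e1 := hside d
    have e2 := hside (φ d)
    have e3 := hside (φ (φ d))
    rw [h, e2, e1] at e3
    cases hh : (M.src d).isLeft <;> rw [hh] at e3 <;> simp at e3
  have h2 : ∀ d, φ (φ d) ≠ d := by
    intro d h
    have e1 : M.src (M.inv (φ d)) = M.src d := by rw [← hsφ, h]
    have e2 : φ d = M.inv d := by
      apply hinj
      · exact hsφ d
      · rw [e1, M.inv_inv]
    have e3 : M.rot (M.inv d) = M.inv d := by rw [← hφ]; exact e2
    have e4 : ∀ e, M.src e = M.src (M.inv d) → e = M.inv d := by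
      intro e he
      exact NoK33_same e3 (M.rot_cyc _ _ he.symm)
    have e5 : ∀ a b, (completeBipartiteGraph (Fin 3) (Fin 3)).Adj (M.src (M.inv d)) a →
        (completeBipartiteGraph (Fin 3) (Fin 3)).Adj (M.src (M.inv d)) b → a = b := by
      intro a b ha hb
      obtain ⟨x, hx1, hx2⟩ := (hadj _ _).1 ha
      obtain ⟨y, hy1, hy2⟩ := (hadj _ _).1 hb
      rw [← hx2, ← hy2, e4 x hx1, e4 y hy1]
    rcases h5 : M.src (M.inv d) with v | v
    · have := e5 (Sum.inr 0) (Sum.inr 1) (by rw [h5]; simp [completeBipartiteGraph])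
        (by rw [h5]; simp [completeBipartiteGraph])
      simp at this
    · have := e5 (Sum.inl 0) (Sum.inl 1) (by rw [h5]; simp [completeBipartiteGraph])
        (by rw [h5]; simp [completeBipartiteGraph])
      simp at this
  haveI : Nonempty M.D := by
    rw [← Fintype.card_pos_iff, hcard]
    norm_num
  have hfin := hW M.D (Fin 3 ⊕ Fin 3) M.inv M.rot φ M.src M.inv_inv M.inv_ne hφ (by
    intro z hz hs
    refine hM z hz ?_
    intro v
    rw [← hs v]
    apply Finset.sum_congr _ (fun _ _ => rfl)
    ext d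
    simp) (fun _ => 1) 4 (by
    intro d
    rw [Finset.sum_const, smul_eq_mul, mul_one]
    have hsub : ({d, φ d, φ (φ d), φ (φ (φ d))} : Finset M.D) ⊆
        univ.filter (fun e => φ.SameCycle d e) := by
      intro e he
      simp only [mem_insert, mem_singleton] at he
      simp only [mem_filter, mem_univ, true_and]
      rcases he with rfl | rfl | rfl | rfl
      · exact Equiv.Perm.SameCycle.refl _ _
      · exact ⟨1, by simp⟩
      · exact ⟨2, by simp [pow_succ]⟩
      · exact ⟨3, by simp [pow_succ]⟩
    have hc4 : ({d, φ d, φ (φ d), φ (φ (φ d))} : Finset M.D).card = 4 := by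
      rw [Finset.card_insert_of_notMem, Finset.card_insert_of_notMem,
        Finset.card_insert_of_notMem, Finset.card_singleton]
      · simp only [mem_singleton]
        exact fun h => h1 _ h.symm
      · simp only [mem_insert, mem_singleton, not_or]
        exact ⟨fun h => h1 _ h.symm, fun h => h2 _ h.symm⟩
      · simp only [mem_insert, mem_singleton, not_or]
        exact ⟨fun h => h1 _ h.symm, fun h => h2 _ h.symm, fun h => h3 _ h.symm⟩
    calc 4 = _ := hc4.symm
      _ ≤ _ := Finset.card_le_card hsub)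
  rw [hcard] at hfin
  simp [hcard] at hfin

theorem thm_NoK33 (hC : Comap) (hE : Exact) (hW : EulerW) : NoK33 := by
  classical
  intro V G hG p q hp hq hpq hadj
  apply NoK33_aux hE hW
  let e : Fin 3 ⊕ Fin 3 ↪ V := ⟨Sum.elim p q, by
    rintro (a | a) (b | b) h
    · simp only [Sum.elim_inl] at h
      rw [hp h]
    · simp only [Sum.elim_inl, Sum.elim_inr] at h
      exact absurd h (hpq a b)
    · simp only [Sum.elim_inl, Sum.elim_inr] at h
      exact absurd h.symm (hpq b a)
    · simp only [Sum.elim_inr] at h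
      rw [hq h]⟩
  refine Closed_mono ?_ (hC V _ e G hG)
  rintro (a | a) (b | b) h
  · simp [completeBipartiteGraph] at h
  · exact hadj a b
  · exact (hadj b a).symm
  · simp [completeBipartiteGraph] at h

end Pool.Agent.ICP
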