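import Pool.Agent.ICP.St

/-!
# Blocks with one dart; no three darts in a run
-/

set_option autoImplicit false

namespace Pool.Agent.ICP

open Finset

theorem thm_Single : Single := by
  intro K _ _ M d e hed hle hlr d' hd'
  obtain ⟨i, hi, hdi⟩ := M.ex_pow d
  have hi0 : i = 0 := by
    rcases Nat.eq_zero_or_pos i with h | h
    · exact h
    · exfalso
      obtain ⟨m, rfl⟩ : ∃ m, i = m + 1 := ⟨i - 1, by omega⟩
      rw [pow_succ', Equiv.Perm.mul_apply] at hdi
      have h1 : e = (M.rot ^ m) (M.first (M.lf d)) := by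
        apply M.rot.injective
        rw [hed]
        exact hdi
      apply hle
      rw [h1]
      exact M.lf_pow (M.lf d) m (by omega)
  subst hi0
  rw [pow_zero, Equiv.Perm.one_apply] at hdi
  have hn0 : M.n (M.lf d) = 0 := by
    by_contra hn
    apply hlr
    have h1 := M.lf_pow (M.lf d) 1 (by omega)
    rw [pow_one, ← hdi] at h1
    exact h1
  obtain ⟨j, hj, hdj⟩ := M.ex_pow d'
  rw [hd', hn0] at hj
  have hj0 : j = 0 := by omega
  rw [hd', hj0, pow_zero, Equiv.Perm.one_apply] at hdj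
  rw [hdj]
  exact hdi.symm

theorem thm_NoThree (h : Single) : NoThree := by
  intro K _ _ M hR v i hi ⟨h0, h1⟩
  have e1 : (M.rot ^ (i + 1)) (M.first v) = M.rot ((M.rot ^ i) (M.first v)) := by
    rw [pow_succ', Equiv.Perm.mul_apply]
  have e2 : (M.rot ^ (i + 2)) (M.first v) = M.rot ((M.rot ^ (i + 1)) (M.first v)) := by
    rw [pow_succ' M.rot (i + 1), Equiv.Perm.mul_apply]
  have t0 : M.rot (M.inv ((M.rot ^ (i + 1)) (M.first v))) = M.inv ((M.rot ^ i) (M.first v)) := by
    rw [e1]
    exact h0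
  have t1 : M.rot (M.inv ((M.rot ^ (i + 2)) (M.first v))) =
      M.inv ((M.rot ^ (i + 1)) (M.first v)) := by
    rw [e2]
    exact h1
  have l0 := M.lf_pow v i (by omega)
  have l1 := M.lf_pow v (i + 1) (by omega)
  have l2 := M.lf_pow v (i + 2) (by omega)
  have n1 : M.lf (M.inv ((M.rot ^ (i + 2)) (M.first v))) ≠
      M.lf (M.inv ((M.rot ^ (i + 1)) (M.first v))) := by
    intro hh
    have h3 := M.inj _ _ (l2.trans l1.symm) hh
    have h4 := M.pow_inj v (i + 2) (i + 1) (by omega) (by omega) h3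
    omega
  have n2 : M.lf (M.rot (M.inv ((M.rot ^ (i + 1)) (M.first v)))) ≠
      M.lf (M.inv ((M.rot ^ (i + 1)) (M.first v))) := by
    rw [t0]
    intro hh
    have h3 := M.inj _ _ (l0.trans l1.symm) hh
    have h4 := M.pow_inj v i (i + 1) (by omega) (by omega) h3
    omega
  have key := h K M (M.inv ((M.rot ^ (i + 1)) (M.first v)))
    (M.inv ((M.rot ^ (i + 2)) (M.first v))) t1 n1 n2
  obtain ⟨d, e, hd, he, hne⟩ := hR (M.lf (M.inv ((M.rot ^ (i + 1)) (M.first v))))
  exact hne (by rw [key d hd, key e he])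

end Pool.Agent.ICP
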