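import Pool.Agent.ICP.St

set_option autoImplicit false

namespace Pool.Agent.ICP

open Finset

theorem Restrict_src_pow {V : Type} (M : RotSys V) (k : ℕ) (d : M.D) :
    M.src ((M.rot ^ k) d) = M.src d := by
  induction k with
  | zero => simp
  | succ k ih => rw [pow_succ', Equiv.Perm.mul_apply, M.src_rot, ih]

open Classical in
theorem Restrict_sum {D : Type} [Fintype D] (P Q : D → Prop) (z : D → ZMod 2)
    [Fintype {d // P d}] (hz : ∀ d, ¬ P d → z d = 0) :
    ∑ d ∈ univ.filter Q, z d = ∑ d ∈ univ.filter (fun d : {d // P d} => Q d.1), z d.1 := by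
  rw [Finset.sum_filter, Finset.sum_filter]
  rw [← Fintype.sum_subtype_add_sum_subtype P (fun d => if Q d then z d else 0)]
  have h0 : ∑ i : {x // ¬ P x}, (if Q i.1 then z i.1 else 0) = 0 := by
    apply Finset.sum_eq_zero
    intro i _
    rw [hz i.1 i.2]
    simp
  rw [h0, add_zero]
  exact Finset.sum_congr (by ext; simp) (fun _ _ => rfl)

theorem thm_Restrict (h : FirstRet) : Restrict := by
  classical
  intro V M hM P hP
  obtain ⟨ρ, h1, h2⟩ := h M.D M.rot P
  have hP' : ∀ d, P (M.inv d) → P d := by
    intro d hd
    have := hP _ hd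
    rwa [M.inv_inv] at this
  let M' : RotSys V :=
    { D := {d // P d}
      fin := inferInstance
      dec := inferInstance
      src := fun d => M.src d.1
      inv := fun d => ⟨M.inv d.1, hP _ d.2⟩
      inv_inv := fun d => Subtype.ext (M.inv_inv d.1)
      inv_ne := fun d hd => M.inv_ne d.1 (congrArg Subtype.val hd)
      rot := ρ
      src_rot := by
        intro d
        obtain ⟨k, _, hk, _⟩ := h1 d
        show M.src (ρ d).1 = M.src d.1
        rw [hk, Restrict_src_pow]
      rot_cyc := fun d e hde => h2 d e (M.rot_cyc d.1 e.1 hde) }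
  refine ⟨M', ?_, fun d => d.1, Subtype.val_injective, fun d => rfl, fun d => rfl, ?_⟩
  · intro z' hz' hev
    let z : M.D → ZMod 2 := fun d => if hd : P d then z' ⟨d, hd⟩ else 0
    have hz0 : ∀ d, ¬ P d → z d = 0 := fun d hd => dif_neg hd
    have hzP : ∀ d : {d // P d}, z d.1 = z' d := fun d => dif_pos d.2
    have hzi : ∀ d, z (M.inv d) = z d := by
      intro d
      by_cases hd : P d
      · have e1 := hzP ⟨M.inv d, hP d hd⟩
        have e2 := hzP ⟨d, hd⟩
        simp only at e1 e2
        rw [e1, e2]
        exact hz' ⟨d, hd⟩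
      · rw [hz0 d hd, hz0 _ (fun h' => hd (hP' d h'))]
    have hzs : ∀ v, ∑ d ∈ univ.filter (fun d => M.src d = v), z d = 0 := by
      intro v
      rw [Restrict_sum P (fun d => M.src d = v) z hz0]
      rw [← hev v]
      exact Finset.sum_congr rfl (fun d _ => hzP d)
    obtain ⟨c, hc1, hc2⟩ := hM z hzi hzs
    refine ⟨fun d => c d.1, ?_, ?_⟩
    · intro d
      show c (ρ ⟨M.inv d.1, hP _ d.2⟩ : {d // P d}).1 = c d.1
      obtain ⟨k, hk0, hk, hkm⟩ := h1 ⟨M.inv d.1, hP _ d.2⟩
      rw [hk]
      have key : ∀ j, j < k → c ((M.rot ^ (j + 1)) (M.inv d.1)) = c d.1 := by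
        intro j
        induction j with
        | zero => intro _; simpa using hc1 d.1
        | succ j ih =>
          intro hj
          have h3 := ih (by omega)
          have hn := hkm (j + 1) (by omega) hj
          simp only at hn
          rw [pow_succ', Equiv.Perm.mul_apply]
          set x := (M.rot ^ (j + 1)) (M.inv d.1) with hx
          have h4 : c (M.rot x) = c (M.inv x) := by
            have := hc1 (M.inv x)
            rwa [M.inv_inv] at this
          have h5 : c x + c (M.inv x) = 0 := by rw [← hc2 x]; exact hz0 x hn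
          have h6 : c (M.inv x) = c x := by
            have := CharTwo.add_eq_zero.1 h5
            exact this.symm
          rw [h4, h6, h3]
      have := key (k - 1) (by omega)
      rwa [Nat.sub_add_cancel hk0] at this
    · intro d
      rw [← hzP d]
      exact hc2 d.1
  · intro d
    constructor
    · intro hd
      exact ⟨⟨d, hd⟩, rfl⟩
    · rintro ⟨e, rfl⟩
      exact e.2

end Pool.Agent.ICP
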