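import Pool.Agent.ICP.St

/-!
# The two runs of a block
-/

set_option autoImplicit false

namespace Pool.Agent.ICP

open Finset

private theorem Runs_two {K : Type} [Fintype K] [DecidableEq K] (M : KMap K) (d : M.D)
    (h : M.Two d) : (M.lf (M.inv (M.rot d))).1 = (M.lf (M.inv d)).1 := by
  have h' : M.rot (M.inv (M.rot d)) = M.inv d := h
  rw [← h', M.rot_k]

theorem thm_Runs : Runs := by
  intro K _ _ M hR v j hj hT
  have hstep : ∀ i, i < M.n v → i ≠ j →
      (M.lf (M.inv ((M.rot ^ (i + 1)) (M.first v)))).1 =
        (M.lf (M.inv ((M.rot ^ i) (M.first v)))).1 := by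
    intro i hi hij
    have h2 := Runs_two M _ ((hT i hi).2 hij)
    rw [pow_succ', Equiv.Perm.mul_apply]
    exact h2
  have hlow : ∀ i, i ≤ j →
      (M.lf (M.inv ((M.rot ^ i) (M.first v)))).1 = (M.lf (M.inv (M.first v))).1 := by
    intro i
    induction i with
    | zero => intro _; simp
    | succ i ih =>
      intro hi
      rw [hstep i (by omega) (by omega)]
      exact ih (by omega)
  have hhigh : ∀ m i, i + m = M.n v → j < i →
      (M.lf (M.inv ((M.rot ^ i) (M.first v)))).1 = (M.lf (M.inv (M.last v))).1 := by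
    intro m
    induction m with
    | zero =>
      intro i hi _
      have : i = M.n v := by omega
      subst this
      rfl
    | succ m ih =>
      intro i hi hji
      rw [← hstep i (by omega) (by omega)]
      exact ih (i + 1) (by omega) (by omega)
  have hhigh' : ∀ i, j < i → i ≤ M.n v →
      (M.lf (M.inv ((M.rot ^ i) (M.first v)))).1 = (M.lf (M.inv (M.last v))).1 := by
    intro i hi hin
    exact hhigh (M.n v - i) i (by omega) hi
  refine ⟨?_, hlow, hhigh'⟩
  intro heq
  obtain ⟨d, e, hd, he, hne⟩ := hR v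
  have key : ∀ d, M.lf d = v → (M.lf (M.inv d)).1 = (M.lf (M.inv (M.first v))).1 := by
    intro d hd
    obtain ⟨i, hi, hdi⟩ := M.ex_pow d
    rw [hd] at hi hdi
    rw [hdi]
    rcases Nat.lt_or_ge j i with h | h
    · rw [hhigh' i h hi, heq]
    · exact hlow i h
  exact hne ((key d hd).trans (key e he).symm)

end Pool.Agent.ICP
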