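import Pool.Agent.ICP.St

/-!
# (M10) Sphericity of the contracted system
-/

set_option autoImplicit false

namespace Pool.Agent.ICP

open Finset

section

variable {K : Type} {G : SimpleGraph (SV K)} {M : RotSys (SV K)}

private theorem SphH_out_inv {d : M.D} (h : IsOut M d) : IsOut M (M.inv d) := by
  refine ⟨h.2, ?_⟩
  rw [M.inv_inv]
  exact h.1

private theorem SphH_nout_inv {d : M.D} (h : ¬ IsOut M d) : ¬ IsOut M (M.inv d) := by
  intro h2
  have h3 := SphH_out_inv h2
  rw [M.inv_inv] at h3
  exact h h3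

open Classical in
/-- the extension of `z` to all darts -/
private noncomputable def SphH_Z (z : Out M → ZMod 2) (S : K × Fin 4 → ZMod 2) (d : M.D) : ZMod 2 :=
  if h : IsOut M d then z ⟨d, h⟩ else
    match M.src d with
    | Sum.inl v => S v
    | Sum.inr _ => match M.src (M.inv d) with
      | Sum.inl v => S v
      | Sum.inr _ => 0

private theorem SphH_Z_out (z : Out M → ZMod 2) (S : K × Fin 4 → ZMod 2) (d : Out M) :
    SphH_Z z S (d : M.D) = z d := by
  unfold SphH_Z
  rw [dif_pos d.2]

private theorem SphH_Z_leaf (z : Out M → ZMod 2) (S : K × Fin 4 → ZMod 2) {d : M.D}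
    (h : ¬ IsOut M d) {v : K × Fin 4} (hv : M.src d = Sum.inl v) : SphH_Z z S d = S v := by
  unfold SphH_Z
  rw [dif_neg h, hv]

private theorem SphH_Z_cen (z : Out M → ZMod 2) (S : K × Fin 4 → ZMod 2) {d : M.D} {k : K}
    {v : K × Fin 4} (hk : M.src d = Sum.inr k) (hv : M.src (M.inv d) = Sum.inl v) :
    SphH_Z z S d = S v := by
  have h : ¬ IsOut M d := by
    rintro ⟨⟨w, hw⟩, _⟩
    rw [hk] at hw
    exact absurd hw (by simp)
  unfold SphH_Z
  rw [dif_neg h, hk]
  simp only
  rw [hv]

end

theorem thm_SphH : SphH := by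
  intro K _ _ G M hG hM rotH lf inv _ hstep hlf hinv z hz hsum
  classical
  -- the spokes
  have hsp : ∀ v : K × Fin 4, ∃ d, M.src d = Sum.inr v.1 ∧ M.src (M.inv d) = Sum.inl v :=
    fun v => (hG.adj _ _).1 (hG.star.spoke v.1 v.2)
  choose sp hsp1 hsp2 using hsp
  -- a dart at a centre
  have hcen : ∀ (d : M.D) (k : K), M.src d = Sum.inr k →
      ∃ v : K × Fin 4, v.1 = k ∧ M.src (M.inv d) = Sum.inl v := by
    intro d k hd
    have hadj : G.Adj (M.src d) (M.src (M.inv d)) := (hG.adj _ _).2 ⟨d, rfl, rfl⟩
    rw [hd] at hadj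
    cases hx : M.src (M.inv d) with
    | inl v =>
      rw [hx] at hadj
      exact ⟨v, hG.star.cl k v hadj, rfl⟩
    | inr k' =>
      rw [hx] at hadj
      exact absurd hadj (hG.star.cc k k')
  -- a dart at a leaf that is not an out dart
  have hleaf : ∀ (d : M.D) (v : K × Fin 4), M.src d = Sum.inl v → ¬ IsOut M d → d = M.inv (sp v) := by
    intro d v hd hno
    cases hx : M.src (M.inv d) with
    | inl w => exact absurd ⟨⟨v, hd⟩, ⟨w, hx⟩⟩ hno
    | inr k =>
      obtain ⟨w, hw1, hw2⟩ := hcen (M.inv d) k hx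
      rw [M.inv_inv, hd] at hw2
      have hvw : v = w := Sum.inl.inj hw2
      have h1 : M.src (M.inv d) = M.src (sp v) := by
        rw [hx, hsp1, hvw, hw1]
      have h2 : M.src (M.inv (M.inv d)) = M.src (M.inv (sp v)) := by
        rw [M.inv_inv, hd, hsp2]
      have h3 := hG.inj _ _ h1 h2
      rw [← h3, M.inv_inv]
  have hspno : ∀ v, ¬ IsOut M (sp v) := by
    rintro v ⟨⟨w, hw⟩, _⟩
    rw [hsp1] at hw
    exact absurd hw (by simp)
  set S : K × Fin 4 → ZMod 2 := fun v => ∑ d : Out M, if lf d = v then z d else 0 with hS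
  set Z : M.D → ZMod 2 := SphH_Z z S with hZ
  have hZinv : ∀ d, Z (M.inv d) = Z d := by
    intro d
    by_cases h : IsOut M d
    · have h1 : Z d = z ⟨d, h⟩ := SphH_Z_out z S ⟨d, h⟩
      have h2 : Z (M.inv d) = z ⟨M.inv d, SphH_out_inv h⟩ :=
        SphH_Z_out z S ⟨M.inv d, SphH_out_inv h⟩
      have h3 : (⟨M.inv d, SphH_out_inv h⟩ : Out M) = inv ⟨d, h⟩ := by
        apply Subtype.ext
        rw [hinv]
      rw [h1, h2, h3, hz]
    · cases hx : M.src d with
      | inl v =>
        have h1 : Z d = S v := SphH_Z_leaf z S h hx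
        have h2 := hleaf d v hx h
        have h3 : M.inv d = sp v := by rw [h2, M.inv_inv]
        rw [h1, h3]
        exact SphH_Z_cen z S (hsp1 v) (hsp2 v)
      | inr k =>
        obtain ⟨v, hv1, hv2⟩ := hcen d k hx
        have h1 : Z d = S v := SphH_Z_cen z S hx hv2
        have h2 : Z (M.inv d) = S v := SphH_Z_leaf z S (SphH_nout_inv h) hv2
        rw [h1, h2]
  have hZsum : ∀ v : SV K, ∑ d ∈ univ.filter (fun d => M.src d = v), Z d = 0 := by
    intro v
    cases v with
    | inl w =>
      rw [sum_filter]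
      have h1 : ∑ d : M.D, (if M.src d = Sum.inl w then Z d else 0) =
          (∑ d ∈ univ.filter (fun d => IsOut M d), if M.src d = Sum.inl w then Z d else 0) +
          ∑ d ∈ univ.filter (fun d => ¬ IsOut M d), if M.src d = Sum.inl w then Z d else 0 :=
        (sum_filter_add_sum_filter_not _ _ _).symm
      have h2 : ∑ d ∈ univ.filter (fun d => IsOut M d), (if M.src d = Sum.inl w then Z d else 0) =
          S w := by
        rw [sum_subtype (univ.filter (fun d => IsOut M d)) (p := IsOut M) (by simp)]
        rw [hS]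
        refine sum_congr rfl fun d _ => ?_
        rw [hlf d]
        by_cases h : lf d = w
        · rw [if_pos h, if_pos (by rw [h])]
          exact SphH_Z_out z S d
        · rw [if_neg h, if_neg (fun h3 => h (Sum.inl.inj h3))]
      have h3 : ∑ d ∈ univ.filter (fun d => ¬ IsOut M d), (if M.src d = Sum.inl w then Z d else 0) =
          S w := by
        rw [sum_eq_single (M.inv (sp w))]
        · rw [if_pos (hsp2 w)]
          exact SphH_Z_leaf z S (SphH_nout_inv (hspno w)) (hsp2 w)
        · intro d hd hne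
          rw [if_neg]
          intro h4
          exact hne (hleaf d w h4 (mem_filter.1 hd).2)
        · intro hn
          exact (hn (by simpa using SphH_nout_inv (hspno w))).elim
      rw [h1, h2, h3]
      exact CharTwo.add_self_eq_zero _
    | inr k =>
      have h1 : ∑ v ∈ univ.filter (fun v : K × Fin 4 => v.1 = k), S v =
          ∑ d ∈ univ.filter (fun d => M.src d = Sum.inr k), Z d := by
        apply sum_nbij sp
        · intro v hv
          rw [mem_filter] at hv
          exact mem_filter.2 ⟨mem_univ _, by rw [hsp1, hv.2]⟩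
        · intro v _ w _ h
          have h2 := hsp2 v
          rw [h, hsp2 w] at h2
          exact (Sum.inl.inj h2).symm
        · intro d hd
          have hd2 : M.src d = Sum.inr k := by simpa using hd
          obtain ⟨v, hv1, hv2⟩ := hcen d k hd2
          refine ⟨v, by simpa using hv1, ?_⟩
          apply hG.inj
          · rw [hsp1, hd2, hv1]
          · rw [hsp2, hv2]
        · intro v _
          exact (SphH_Z_cen z S (hsp1 v) (hsp2 v)).symm
      rw [← h1, hS]
      simp only
      rw [sum_comm]
      refine Eq.trans ?_ (hsum k)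
      rw [sum_filter (fun d : Out M => (lf d).1 = k) z]
      refine sum_congr rfl fun d _ => ?_
      rw [sum_ite_eq (univ.filter (fun v : K × Fin 4 => v.1 = k)) (lf d) (fun _ => z d)]
      simp
  obtain ⟨c, hc1, hc2⟩ := hM Z hZinv (fun v => by convert hZsum v)
  refine ⟨fun d => c (d : M.D), ?_, ?_⟩
  · intro d
    change c ((rotH (inv d) : Out M) : M.D) = c (d : M.D)
    rcases hstep (inv d) with ⟨_, h2⟩ | ⟨_, h2⟩
    · rw [h2, hinv, hc1]
    · rw [h2, hinv, hc1, hc1, hc1]
  · intro d
    change z d = c (d : M.D) + c ((inv d : Out M) : M.D)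
    rw [hinv, ← hc2]
    exact (SphH_Z_out z S d).symm

end Pool.Agent.ICP
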