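import Pool.Agent.ICP.St

/-!
# ICP/StarContr (helper13): contraction of a star into a neighbour leaf
-/

set_option autoImplicit false

namespace Pool.Agent.ICP

private lemma StarContr_mono {V : Type} {G H : SimpleGraph V} (h : ∀ a b, H.Adj a b → G.Adj a b)
    (hG : IsPlanar G) : IsPlanar H := by
  obtain ⟨M, hM, hd⟩ := hG
  exact ⟨M, hM, fun u v huv => hd u v (h u v huv)⟩

private lemma StarContr_step (h : Con1) {V : Type} (G : SimpleGraph V) (S : Set V) (u w : V)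
    (hwS : w ∉ S) (huw : u ≠ w) (hadj : G.Adj u w ∨ ∃ s ∈ S, G.Adj s u)
    (hP : IsPlanar (contr G S w)) : IsPlanar (contr G (insert u S) w) := by
  by_cases hu : u ∈ S
  · rw [Set.insert_eq_of_mem hu]
    exact hP
  · have h1 : (contr G S w).Adj u w := by
      refine ⟨huw, hu, hwS, ?_⟩
      rcases hadj with h2 | ⟨s, hs, h2⟩
      · exact Or.inl h2
      · exact Or.inr (Or.inr ⟨rfl, s, hs, h2⟩)
    have h2 := h V (contr G S w) u w h1 hP
    refine StarContr_mono ?_ h2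
    rintro a b ⟨hab, ha, hb, h3⟩
    have ha1 : a ≠ u := fun e => ha (e ▸ Set.mem_insert _ _)
    have hb1 : b ≠ u := fun e => hb (e ▸ Set.mem_insert _ _)
    have ha2 : a ∉ S := fun e => ha (Set.mem_insert_of_mem _ e)
    have hb2 : b ∉ S := fun e => hb (Set.mem_insert_of_mem _ e)
    refine ⟨hab, ha1, hb1, ?_⟩
    rcases h3 with h3 | ⟨rfl, s, hs, h3⟩ | ⟨rfl, s, hs, h3⟩
    · exact Or.inl ⟨hab, ha2, hb2, Or.inl h3⟩
    · rcases hs with rfl | hs
      · exact Or.inr (Or.inl ⟨rfl, s, rfl, hb1.symm, hu, hb2, Or.inl h3⟩)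
      · exact Or.inl ⟨hab, ha2, hb2, Or.inr (Or.inl ⟨rfl, s, hs, h3⟩)⟩
    · rcases hs with rfl | hs
      · exact Or.inr (Or.inr ⟨rfl, s, rfl, ha1.symm, hu, ha2, Or.inl h3⟩)
      · exact Or.inl ⟨hab, ha2, hb2, Or.inr (Or.inr ⟨rfl, s, hs, h3⟩)⟩

theorem thm_StarContr (h : Con1) : StarContr := by
  intro K G k l w hsp hwk hadj hG
  have hwl : ∀ l' : Fin 4, (Sum.inl (k, l') : SV K) ≠ Sum.inl w := by
    intro l' e
    apply hwk
    rw [← Sum.inl_injective e]
  have hwc : (Sum.inr k : SV K) ≠ Sum.inl w := fun e => by cases e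
  -- nothing contracted
  have h0 : IsPlanar (contr G ∅ (Sum.inl w)) := by
    refine StarContr_mono ?_ hG
    rintro a b ⟨_, _, _, h3⟩
    rcases h3 with h3 | ⟨_, s, hs, _⟩ | ⟨_, s, hs, _⟩
    · exact h3
    · exact absurd hs (Set.notMem_empty s)
    · exact absurd hs (Set.notMem_empty s)
  have h1 := StarContr_step h G ∅ (Sum.inl (k, l)) (Sum.inl w) (Set.notMem_empty _) (hwl l)
    (Or.inl hadj) h0
  have h2 := StarContr_step h G (insert (Sum.inl (k, l)) ∅) (Sum.inr k) (Sum.inl w)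
    (by
      rintro (e | e)
      · exact hwl l e.symm
      · exact e) hwc
    (Or.inr ⟨Sum.inl (k, l), Set.mem_insert _ _, (hsp l).symm⟩) h1
  have hstep : ∀ (S : Set (SV K)) (l' : Fin 4), Sum.inr k ∈ S → Sum.inl w ∉ S →
      IsPlanar (contr G S (Sum.inl w)) → IsPlanar (contr G (insert (Sum.inl (k, l')) S) (Sum.inl w)) ∧
        Sum.inr k ∈ insert (Sum.inl (k, l')) S ∧ Sum.inl w ∉ insert (Sum.inl (k, l') : SV K) S := by
    intro S l' hS hwS hP
    refine ⟨StarContr_step h G S _ _ hwS (hwl l') (Or.inr ⟨Sum.inr k, hS, hsp l'⟩) hP,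
      Set.mem_insert_of_mem _ hS, ?_⟩
    rintro (e | e)
    · exact hwl l' e.symm
    · exact hwS e
  obtain ⟨p0, q0, r0⟩ := hstep _ 0 (Set.mem_insert _ _) (by
    rintro (e | e | e)
    · exact hwc e.symm
    · exact hwl l e.symm
    · exact e) h2
  obtain ⟨p1, q1, r1⟩ := hstep _ 1 q0 r0 p0
  obtain ⟨p2, q2, r2⟩ := hstep _ 2 q1 r1 p1
  obtain ⟨p3, q3, r3⟩ := hstep _ 3 q2 r2 p2
  have hset : starSet k = insert (Sum.inl (k, 3)) (insert (Sum.inl (k, 2)) (insert (Sum.inl (k, 1))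
      (insert (Sum.inl (k, 0)) (insert (Sum.inr k) (insert (Sum.inl (k, l)) (∅ : Set (SV K))))))) := by
    ext x
    constructor
    · rintro (rfl | ⟨l', rfl⟩)
      · simp
      · fin_cases l' <;> simp
    · rintro (rfl | rfl | rfl | rfl | rfl | rfl | e)
      · exact Or.inr ⟨_, rfl⟩
      · exact Or.inr ⟨_, rfl⟩
      · exact Or.inr ⟨_, rfl⟩
      · exact Or.inr ⟨_, rfl⟩
      · exact Or.inl rfl
      · exact Or.inr ⟨_, rfl⟩
      · exact absurd e (Set.notMem_empty _)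
  rw [hset]
  exact p3

end Pool.Agent.ICP
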