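import Pool.Agent.ICP.St

/-!
# Theorem A: induction on the number of stars
-/

set_option autoImplicit false

namespace Pool.Agent.ICP

open Finset

theorem thm_ThmA (hS : ConfigS) (hA : ForestAdd) (hE : EndGame) : ThmA := by
  classical
  intro K _ G S
  induction hn : S.card generalizing G S with
  | zero =>
    intro hG hsp
    rw [Finset.card_eq_zero] at hn
    subst hn
    refine ⟨fun _ => 0, ?_⟩
    intro v c hc
    have h1 := hc.ne_bot
    cases c with
    | nil => exact absurd rfl hc.ne_nil
    | cons h p =>
      have h2 : v ∈ TS (∅ : Finset K) (fun _ => (0 : Fin 4)) := h.1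
      obtain ⟨k, hk, _⟩ := h2
      exact absurd hk (Finset.notMem_empty k)
  | succ n ih =>
    intro hG hsp
    by_cases hp : ∃ k ∈ S, ∃ l, Poor G S k l
    · obtain ⟨k, hk, l, hl⟩ := hp
      have hcard : (S.erase k).card = n := by
        rw [Finset.card_erase_of_mem hk, hn]
        rfl
      have hsp' : Spokes G (S.erase k) :=
        fun j hj m => hsp j (Finset.mem_erase.1 hj).2 m
      obtain ⟨t, ht⟩ := ih G (S.erase k) hcard hG hsp'
      refine ⟨Function.update t k l, ?_⟩
      have hT : TS S (Function.update t k l) =
          insert (Sum.inl (k, l)) (TS (S.erase k) t) := by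
        ext x
        constructor
        · rintro ⟨j, hj, rfl⟩
          by_cases hjk : j = k
          · subst hjk
            left
            rw [Function.update_self]
          · right
            refine ⟨j, Finset.mem_erase.2 ⟨hjk, hj⟩, ?_⟩
            rw [Function.update_of_ne hjk]
        · rintro (rfl | ⟨j, hj, rfl⟩)
          · exact ⟨k, hk, by rw [Function.update_self]⟩
          · have hj' := Finset.mem_erase.1 hj
            exact ⟨j, hj'.2, by rw [Function.update_of_ne hj'.1]⟩
      rw [hT]
      apply hA
      · rintro ⟨j, hj, hj2⟩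
        have h3 : (k, l) = (j, t j) := Sum.inl_injective hj2
        have h4 : k = j := congrArg Prod.fst h3
        exact (Finset.mem_erase.1 hj).1 h4.symm
      · exact ht
      · rintro a b ⟨j, hj, rfl⟩ ⟨j', hj', rfl⟩ h1 h2 hne
        exfalso
        have hj1 := Finset.mem_erase.1 hj
        have hj2 := Finset.mem_erase.1 hj'
        have h5 := hl (j, t j) (j', t j') hj1.2 hj2.2 hj1.1 hj2.1 h1 h2
        have h6 : j = j' := h5
        subst h6
        exact hne rfl
    · push Not at hp
      have hne : S.Nonempty := Finset.card_pos.1 (by omega)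
      obtain ⟨k, hk, hc⟩ := hS K G S hG hsp hne hp
      refine hE K G S k hk hG hsp hc ?_
      intro H hH hHs
      refine ih H (S.erase k) ?_ hH hHs
      rw [Finset.card_erase_of_mem hk, hn]
      rfl

end Pool.Agent.ICP
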