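import Pool.Agent.ICP.FirstRet
import Pool.Agent.ICP.Restrict
import Pool.Agent.ICP.Contract
import Pool.Agent.ICP.Closed
import Pool.Agent.ICP.Exact
import Pool.Agent.ICP.EulerW
import Pool.Agent.ICP.NoK33
import Pool.Agent.ICP.Blocks
import Pool.Agent.ICP.SphH
import Pool.Agent.ICP.MkKMap
import Pool.Agent.ICP.Count
import Pool.Agent.ICP.NoThree
import Pool.Agent.ICP.GoodLeaf
import Pool.Agent.ICP.Runs
import Pool.Agent.ICP.Common
import Pool.Agent.ICP.ConfigL
import Pool.Agent.ICP.ConfigS
import Pool.Agent.ICP.Forest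
import Pool.Agent.ICP.StarContr
import Pool.Agent.ICP.EndGame
import Pool.Agent.ICP.ThmA
import Pool.Agent.ICP.FinForest
import Pool.Agent.ICP.FinPlanar

set_option autoImplicit false

namespace Pool.Agent.ICP

open Finset

theorem comap_final : Comap := thm_Comap (thm_Restrict thm_FirstRet)

theorem con1_final : Con1 := thm_Con1 (thm_Contract thm_FirstRet)

theorem exact_final : Exact := thm_Exact (thm_Restrict thm_FirstRet)

theorem noK33_final : NoK33 := thm_NoK33 comap_final exact_final thm_EulerW

theorem configS_final : ConfigS :=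
  thm_ConfigS comap_final
    (thm_ConfigL (thm_MkKMap exact_final thm_Blocks thm_SphH) (thm_Count thm_EulerW) thm_GoodLeaf
      thm_Runs (thm_Common thm_Single thm_Runs (thm_NoThree thm_Single)))

theorem thmA_final : ThmA :=
  thm_ThmA configS_final thm_ForestAdd
    (thm_EndGame con1_final noK33_final thm_ForestAdd thm_ForestSub (thm_StarContr con1_final))

/-- In every drawing with independent crossings one can choose one end of each crossing such that the
chosen vertices induce a forest and the other vertices induce a planar graph. -/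
theorem main_t (V : Type) (G : SimpleGraph V) (Dr : ICDrawing G) :
    ∃ t : Dr.I → Fin 4, (G.induce {x | ∃ i, x = Dr.cr i (t i)}).IsAcyclic ∧
      IsPlanar (G.induce {x | ∃ i, x = Dr.cr i (t i)}ᶜ) := by
  classical
  have hfin : Finite Dr.I := by
    refine Finite.of_injective (fun i => Dr.e i 0) ?_
    intro i i' h
    have h1 := Dr.src_e i 0
    have h2 := Dr.src_e i' 0
    simp only at h
    rw [h, h2] at h1
    exact (Sum.inr_injective h1).symm
  haveI : Fintype Dr.I := Fintype.ofFinite _
  let f : SV Dr.I ↪ V ⊕ Dr.I :=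
    ⟨fun x => match x with
      | Sum.inl (i, j) => Sum.inl (Dr.cr i j)
      | Sum.inr i => Sum.inr i, by
      rintro (⟨i, j⟩ | i) (⟨i', j'⟩ | i') h
      · have := Dr.indep i j i' j' (Sum.inl_injective h)
        rw [this.1, this.2]
      · simp at h
      · simp at h
      · simp at h
        rw [h]⟩
  let Gx : SimpleGraph (V ⊕ Dr.I) :=
    { Adj := fun a b => a ≠ b ∧ ∃ d, Dr.M.src d = a ∧ Dr.M.src (Dr.M.inv d) = b
      symm := ⟨fun a b h => ⟨h.1.symm, by
        obtain ⟨d, h1, h2⟩ := h.2
        exact ⟨Dr.M.inv d, h2, by rw [Dr.M.inv_inv]; exact h1⟩⟩⟩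
      loopless := ⟨fun a h => h.1 rfl⟩ }
  have hGx : IsPlanar Gx := ⟨Dr.M, Dr.sph, fun u v h => h.2⟩
  have hpl : IsPlanar (Gx.comap f) := comap_final _ _ f Gx hGx
  have hsp : Spokes (Gx.comap f) univ := by
    intro i _ j
    refine ⟨?_, Dr.e i j, Dr.src_e i j, Dr.tgt_e i j⟩
    intro h
    exact absurd (f.injective h) (by simp)
  obtain ⟨t, ht⟩ := thmA_final _ (Gx.comap f) univ hpl hsp
  exact ⟨t, thm_FinForest V G Dr f Gx univ t (fun i j => rfl) (fun i => rfl) (fun a b => Iff.rfl)
      (fun i => mem_univ i) ht, thm_FinPlanar con1_final comap_final V G Dr t⟩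

end Pool.Agent.ICP
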