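import Pool.Agent.ICP.St

set_option autoImplicit false

namespace Pool.Agent.ICP

open Finset

private theorem firstRet_ex {D : Type} [Fintype D] [DecidableEq D] (τ : Equiv.Perm D) (P : D → Prop)
    (d : D) (hd : P d) : ∃ k : ℕ, 0 < k ∧ P ((τ ^ k) d) :=
  ⟨orderOf τ, orderOf_pos τ, by rw [pow_orderOf_eq_one]; exact hd⟩

theorem thm_FirstRet : FirstRet := by
  classical
  intro D _ _ τ P
  have hex := fun d : {d // P d} => firstRet_ex τ P d.1 d.2
  let k : {d // P d} → ℕ := fun d => Nat.find (hex d)
  have hk0 : ∀ d, 0 < k d := fun d => (Nat.find_spec (hex d)).1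
  have hkP : ∀ d, P ((τ ^ k d) d.1) := fun d => (Nat.find_spec (hex d)).2
  have hkm : ∀ d j, 0 < j → j < k d → ¬ P ((τ ^ j) d.1) := by
    intro d j hj hjk hP
    exact Nat.find_min (hex d) hjk ⟨hj, hP⟩
  let r : {d // P d} → {d // P d} := fun d => ⟨(τ ^ k d) d.1, hkP d⟩
  have hinj : Function.Injective r := by
    have key : ∀ d e : {d // P d}, k d ≤ k e → r d = r e → d = e := by
      intro d e hle h
      have h1 : (τ ^ k d) d.1 = (τ ^ k e) e.1 := congrArg Subtype.val h
      have h2 : (τ ^ k e) e.1 = (τ ^ k d) ((τ ^ (k e - k d)) e.1) := by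
        rw [← Equiv.Perm.mul_apply, ← pow_add]
        congr 2
        omega
      rw [h2] at h1
      have h3 : d.1 = (τ ^ (k e - k d)) e.1 := (τ ^ k d).injective h1
      rcases Nat.eq_zero_or_pos (k e - k d) with h0 | hpos
      · rw [h0] at h3
        exact Subtype.ext (by simpa using h3)
      · exfalso
        have hlt : k e - k d < k e := by
          have := hk0 d
          have := hk0 e
          omega
        exact hkm e _ hpos hlt (by rw [← h3]; exact d.2)
    intro d e h
    rcases le_total (k d) (k e) with hle | hle
    · exact key d e hle h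
    · exact (key e d hle h.symm).symm
  have hbij : Function.Bijective r := Finite.injective_iff_bijective.1 hinj
  let ρ : Equiv.Perm {d // P d} := Equiv.ofBijective r hbij
  refine ⟨ρ, ?_, ?_⟩
  · intro d
    exact ⟨k d, hk0 d, rfl, hkm d⟩
  · have key : ∀ m : ℕ, ∀ d e : {d // P d}, (τ ^ m) d.1 = e.1 →
        ρ.SameCycle d e := by
      intro m
      induction m using Nat.strong_induction_on with
      | _ m ih =>
        intro d e h
        rcases Nat.eq_zero_or_pos m with h0 | hpos
        · rw [h0] at h
          have : d = e := Subtype.ext (by simpa using h)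
          rw [this]
        · have hle : k d ≤ m := by
            by_contra hlt
            exact hkm d m hpos (by omega) (by rw [h]; exact e.2)
          have h2 : (τ ^ (m - k d)) (r d).1 = e.1 := by
            rw [← h]
            show (τ ^ (m - k d)) ((τ ^ k d) d.1) = (τ ^ m) d.1
            rw [← Equiv.Perm.mul_apply, ← pow_add]
            congr 2
            omega
          have h3 := ih (m - k d) (by have := hk0 d; omega) (r d) e h2
          have h4 : ρ.SameCycle d (r d) := ⟨1, by simp [ρ]⟩
          exact h4.trans h3
    intro d e h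
    obtain ⟨m, hm⟩ := h.exists_nat_pow_eq
    exact key m d e hm

end Pool.Agent.ICP
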