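import Pool.Agent.ICP.St

/-!
# Forest lemmas (helper6)
-/

set_option autoImplicit false

namespace Pool.Agent.ICP

/-- A walk in `res G (insert v T)` that avoids `v` stays in `res G T`. -/
private theorem forest_reach {V : Type} {G : SimpleGraph V} {T : Set V} {v : V} :
    ∀ {a b : V} (q : (res G (insert v T)).Walk a b), v ∉ q.support → (res G T).Reachable a b
  | _, _, .nil, _ => SimpleGraph.Reachable.refl _
  | _, _, .cons (v := c) h q, hv => by
    rw [SimpleGraph.Walk.support_cons, List.mem_cons, not_or] at hv
    have hc : c ∈ q.support := q.start_mem_support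
    have hcv : c ≠ v := fun e => hv.2 (e ▸ hc)
    refine SimpleGraph.Reachable.trans ?_ (forest_reach q hv.2)
    refine SimpleGraph.Adj.reachable ⟨?_, ?_, h.2.2⟩
    · rcases h.1 with e | e
      · exact absurd e.symm hv.1
      · exact e
    · rcases h.2.1 with e | e
      · exact absurd e hcv
      · exact e

theorem thm_ForestAdd : ForestAdd := by
  classical
  intro V G T v hv hT hab u c hc
  by_cases hvc : v ∈ c.support
  · have hr := hc.rotate hvc
    generalize c.rotate v hvc = c' at hr
    cases c' with
    | nil => exact hr.ne_nil rfl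
    | @cons _ a _ h p =>
      rw [SimpleGraph.Walk.cons_isCycle_iff] at hr
      obtain ⟨hp, he⟩ := hr
      have haT : a ∈ T := by
        rcases h.2.1 with e | e
        · exact absurd e h.2.2.ne'
        · exact e
      -- the other end
      have hnil : ¬ p.Nil := by
        intro hn
        exact h.2.2.ne' hn.eq
      obtain ⟨b, q, hb, hpq⟩ : ∃ (b : V) (q : (res G (insert v T)).Walk a b)
          (hb : (res G (insert v T)).Adj b v), p = q.concat hb := by
        cases p with
        | nil => exact absurd SimpleGraph.Walk.Nil.nil hnil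
        | cons h2 p2 =>
          obtain ⟨b, q, hb, e⟩ := SimpleGraph.Walk.exists_cons_eq_concat h2 p2
          exact ⟨b, q, hb, e⟩
      have hbT : b ∈ T := by
        rcases hb.1 with e | e
        · exact absurd e hb.2.2.ne
        · exact e
      have hvq : v ∉ q.support := by
        rw [hpq, SimpleGraph.Walk.concat_isPath_iff] at hp
        exact hp.2
      have hreach := forest_reach q hvq
      have hne : a ≠ b := by
        rintro rfl
        apply he
        rw [hpq, SimpleGraph.Walk.edges_concat]
        simp [Sym2.eq_swap]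
      exact hab a b haT hbT h.2.2 hb.2.2.symm hne hreach
  · -- the cycle avoids `v`
    have hE : ∀ e ∈ c.edges, e ∈ (res G T).edgeSet := by
      intro e he
      induction e using Sym2.ind with
      | h x y =>
        have h1 := c.adj_of_mem_edges he
        have hx : x ∈ c.support := c.fst_mem_support_of_mem_edges he
        have hy : y ∈ c.support := c.snd_mem_support_of_mem_edges he
        rw [SimpleGraph.mem_edgeSet]
        refine ⟨?_, ?_, h1.2.2⟩
        · rcases h1.1 with e | e
          · exact absurd (e ▸ hx) hvc
          · exact e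
        · rcases h1.2.1 with e | e
          · exact absurd (e ▸ hy) hvc
          · exact e
    exact hT _ (hc.transfer hE)

theorem thm_ForestSub : ForestSub := by
  intro V G H T hGH hH
  have hle : res G T ≤ res H T := fun a b h => ⟨h.1, h.2.1, hGH a b h.1 h.2.1 h.2.2⟩
  have hbr := SimpleGraph.isAcyclic_iff_forall_adj_isBridge.1 hH
  refine ⟨hH.anti hle, ?_, ?_⟩
  · intro a b ha hb hab hr
    by_contra hG
    have h1 : (res H T).Adj a b := ⟨ha, hb, hab⟩
    have h2 := hbr h1
    rw [SimpleGraph.isBridge_iff] at h2
    apply h2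
    refine hr.mono fun x y hxy => ?_
    rw [SimpleGraph.deleteEdges_adj]
    refine ⟨hle hxy, ?_⟩
    rw [Set.mem_singleton_iff, Sym2.eq_iff]
    rintro (⟨rfl, rfl⟩ | ⟨rfl, rfl⟩)
    · exact hG hxy.2.2
    · exact hG hxy.2.2.symm
  · intro a b c ha hb hc hab hbc hac
    have h1 : (res H T).Adj a c := ⟨ha, hc, hac⟩
    have h2 := hbr h1
    rw [SimpleGraph.isBridge_iff] at h2
    apply h2
    have h3 : ((res H T).deleteEdges {s(a, c)}).Adj a b := by
      rw [SimpleGraph.deleteEdges_adj]
      refine ⟨⟨ha, hb, hab⟩, ?_⟩
      rw [Set.mem_singleton_iff, Sym2.eq_iff]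
      rintro (⟨-, h⟩ | ⟨h, -⟩)
      · exact hbc.ne h
      · exact hac.ne h
    have h4 : ((res H T).deleteEdges {s(a, c)}).Adj b c := by
      rw [SimpleGraph.deleteEdges_adj]
      refine ⟨⟨hb, hc, hbc⟩, ?_⟩
      rw [Set.mem_singleton_iff, Sym2.eq_iff]
      rintro (⟨h, -⟩ | ⟨-, h⟩)
      · exact hab.ne h.symm
      · exact hac.ne h.symm
    exact h3.reachable.trans h4.reachable

end Pool.Agent.ICP
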