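import Pool.Agent.ICP.St2

set_option autoImplicit false

namespace Pool.Agent.ICP

open Finset

theorem main_of (hA : ThmA) (hC : Comap) (hF : FinForest) (hP : FinPlanar) : Main := by
  classical
  rintro V G ⟨Dr⟩
  have hfin : Finite Dr.I := by
    refine Finite.of_injective (fun i => Dr.e i 0) ?_
    intro i i' h
    have h1 := Dr.src_e i 0
    have h2 := Dr.src_e i' 0
    simp only at h
    rw [h, h2] at h1
    exact (Sum.inr_injective h1).symm
  haveI : Fintype Dr.I := Fintype.ofFinite _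
  let f : SV Dr.I ↪ V ⊕ Dr.I :=
    ⟨fun x => match x with
      | Sum.inl (i, j) => Sum.inl (Dr.cr i j)
      | Sum.inr i => Sum.inr i, by
      rintro (⟨i, j⟩ | i) (⟨i', j'⟩ | i') h
      · have := Dr.indep i j i' j' (Sum.inl_injective h)
        rw [this.1, this.2]
      · simp at h
      · simp at h
      · simp at h
        rw [h]⟩
  let Gx : SimpleGraph (V ⊕ Dr.I) :=
    { Adj := fun a b => a ≠ b ∧ ∃ d, Dr.M.src d = a ∧ Dr.M.src (Dr.M.inv d) = b
      symm := ⟨fun a b h => ⟨h.1.symm, by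
        obtain ⟨d, h1, h2⟩ := h.2
        exact ⟨Dr.M.inv d, h2, by rw [Dr.M.inv_inv]; exact h1⟩⟩⟩
      loopless := ⟨fun a h => h.1 rfl⟩ }
  have hGx : IsPlanar Gx := ⟨Dr.M, Dr.sph, fun u v h => h.2⟩
  have hpl : IsPlanar (Gx.comap f) := hC _ _ f Gx hGx
  have hsp : Spokes (Gx.comap f) univ := by
    intro i _ j
    refine ⟨?_, Dr.e i j, Dr.src_e i j, Dr.tgt_e i j⟩
    intro h
    exact absurd (f.injective h) (by simp)
  obtain ⟨t, ht⟩ := hA _ (Gx.comap f) univ hpl hsp
  exact ⟨{x | ∃ i, x = Dr.cr i (t i)},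
    hF V G Dr f Gx univ t (fun i j => rfl) (fun i => rfl) (fun a b => Iff.rfl)
      (fun i => mem_univ i) ht, hP V G Dr t⟩

end Pool.Agent.ICP
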