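import Pool.Agent.ICP.Defs

/-!
# Statements (paper proof: ICP_proof.md in the team store; short forms in the docstrings)
-/

set_option autoImplicit false

namespace Pool.Agent.ICP

open Finset

/-- (M1) First return permutation.  For `d` with `P d` let `ρ d = τ ^ k d` with the smallest `k ≥ 1`
such that `P (τ ^ k d)` (it exists, `τ` has finite order).  Injective: if `τ ^ k d = τ ^ k' d'` with
`k ≤ k'` then `d = τ ^ (k' - k) d'`, so `k = k'` by minimality.  `SameCycle`: `e = τ ^ m d` with
`m : ℕ`; induction on `m` (if `m` is at least the return time of `d`, replace `d` by `ρ d`). -/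
def FirstRet : Prop :=
  ∀ (D : Type) [Fintype D] [DecidableEq D] (τ : Equiv.Perm D) (P : D → Prop),
    ∃ ρ : Equiv.Perm {d // P d},
      (∀ d : {d // P d}, ∃ k : ℕ, 0 < k ∧ ((ρ d : {d // P d}) : D) = (τ ^ k) (d : D) ∧
        ∀ j, 0 < j → j < k → ¬ P ((τ ^ j) (d : D))) ∧
      (∀ d e : {d // P d}, τ.SameCycle (d : D) (e : D) → ρ.SameCycle d e)

/-- (M2) Deletion of edges.  `D' = {d // P d}`, `rot' =` first return of `rot`, `src`, `inv` restricted.
Spherical: given `z'`, extend by `0` to `z` and take `c`.  For removed `r` (`¬ P r`, so also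
`¬ P (inv r)`): `0 = z r = c r + c (inv r)`, so `c (rot r) = c (rot (inv (inv r))) = c (inv r) = c r`.
So `c` is constant along the path of removed darts and `c (rot' (inv d)) = c (rot (inv d)) = c d`.
(The sum over `src' d = v` in `D'` is the sum over `src d = v` in `D` of the extension.) -/
def Restrict : Prop :=
  ∀ (V : Type) (M : RotSys V), M.Spherical → ∀ P : M.D → Prop, (∀ d, P d → P (M.inv d)) →
    ∃ M' : RotSys V, M'.Spherical ∧ ∃ f : M'.D → M.D, Function.Injective f ∧
      (∀ d, M'.src d = M.src (f d)) ∧ (∀ d, f (M'.inv d) = M.inv (f d)) ∧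
      (∀ d, P d ↔ ∃ e, f e = d)

/-- (M3) Contraction of the edge `d0, d1 = inv d0` with ends `u = src d0 ≠ w = src d1`.
`τ = rot * Equiv.swap d0 d1`, `rot' =` first return of `τ` to `P d := d ≠ d0 ∧ d ≠ d1`,
`src' d = if src d = u then w else src d`.
`rot_cyc`: if `src d = u`, then `d0 = rot ^ k d` with `k` minimal; the darts `rot ^ j d`, `j < k`, are
different from `d0` and from `d1` (source `u`), so `τ ^ k d = d0`; in the same way every dart at `w` is
in the `τ`-cycle of `d1`; and `τ d1 = rot d0` has source `u`.  The cycles of the other vertices are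
unchanged.
Spherical: given `z'`, extend to `z` by `z d0 = z d1 =` the sum of `z' d` over `d ≠ d0` with
`src d = u`.  Then `z` is even at `u`, and at `w` because `z'` is even at `w`.  Take `c` for `z`.
`c (τ d0) = c (rot d1) = c (rot (inv d0)) = c d0`, `c (τ d1) = c (rot d0) = c d1`, and for `P d`:
`τ (inv d) = rot (inv d)`.  So `c (rot' (inv d)) = c (rot (inv d)) = c d`. -/
def Contract : Prop :=
  ∀ (V : Type) [DecidableEq V] (M : RotSys V), M.Spherical → ∀ d0 : M.D,
    M.src d0 ≠ M.src (M.inv d0) →
    ∃ M' : RotSys V, M'.Spherical ∧ ∃ f : M'.D → M.D, Function.Injective f ∧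
      (∀ d, M'.src d = if M.src (f d) = M.src d0 then M.src (M.inv d0) else M.src (f d)) ∧
      (∀ d, f (M'.inv d) = M.inv (f d)) ∧ (∀ d, (d ≠ d0 ∧ d ≠ M.inv d0) ↔ ∃ e, f e = d)

/-- (M4) Pull-back along an injection: restrict `M` to the darts with both ends in the range of `f`
and replace the source by its preimage. -/
def Comap : Prop :=
  ∀ (V W : Type) (f : W ↪ V) (G : SimpleGraph V), IsPlanar G → IsPlanar (G.comap f)

/-- (M5) Contraction of the edge `u w`: (M3) for a dart `d0` from `u` to `w`.  An edge `a b` of `G` with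
`a, b ≠ u` has a dart different from `d0, inv d0`; for `a = w`, `G.Adj u b` take the dart from `u` to
`b`, different from `d0` because `b ≠ w`. -/
def Con1 : Prop :=
  ∀ (V : Type) (G : SimpleGraph V) (u w : V), G.Adj u w → IsPlanar G → IsPlanar (contr G {u} w)

/-- (M6) Exact rotation system.  Choose a linear order on `V` (for example by well-ordering) and for
`u < v`, `G.Adj u v`, a dart `δ u v` from `u` to `v`; keep the darts `δ u v` and `inv (δ u v)`. -/
def Exact : Prop :=
  ∀ (V : Type) (G : SimpleGraph V), IsPlanar G →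
    ∃ M : RotSys V, M.Spherical ∧ (∀ u v, G.Adj u v ↔ ∃ d, M.src d = u ∧ M.src (M.inv d) = v) ∧
      (∀ d e, M.src d = M.src e → M.src (M.inv d) = M.src (M.inv e) → d = e)

open Classical in
/-- (M7) Euler's inequality with weights.  Let `F` be the number of orbits of `φ`; the hypothesis on `g`
gives `c * F ≤ ∑ g`.  So `card D + 4 ≤ 2 * F + 2 * card K` is to be proved.  Dimensions over `ZMod 2`:
`W = D → ZMod 2`, `(τ z) d = z (inv d)`; `range (1 + τ) ≤ ker (1 + τ)`, so
`card D ≤ 2 * dim (ker (1 + τ))`.  `Z = {z ∈ ker (1 + τ) | all sums over the fibres of p are 0}` is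
the kernel of `∂ : ker (1 + τ) → (K → ZMod 2)`, and the values of `∂` have sum `∑ d, z d = 0` (the darts
come in pairs `d, inv d`), so `dim Z ≥ dim (ker (1 + τ)) - (card K - 1)`.
`C = {c | c ∘ φ = c}` has dimension at most `F` (functions on the orbits).  The map `c ↦ c + c ∘ inv`
on `C` has the constant function `1` in its kernel and `Z` in its range, so `dim Z ≤ F - 1`. -/
def EulerW : Prop :=
  ∀ (D K : Type) [Fintype D] [DecidableEq D] [Nonempty D] [Fintype K] [DecidableEq K]
    (inv : D → D) (rot φ : Equiv.Perm D) (p : D → K), (∀ d, inv (inv d) = d) → (∀ d, inv d ≠ d) →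
    (∀ d, φ d = rot (inv d)) →
    (∀ z : D → ZMod 2, (∀ d, z (inv d) = z d) →
      (∀ k : K, ∑ d ∈ univ.filter (fun d => p d = k), z d = 0) →
      ∃ c : D → ZMod 2, (∀ d, c (rot (inv d)) = c d) ∧ ∀ d, z d = c d + c (inv d)) →
    ∀ (g : D → ℕ) (c : ℕ),
      (∀ d, c ≤ ∑ e ∈ univ.filter (fun e => φ.SameCycle d e), g e) →
      c * (Fintype.card D + 4) ≤ 2 * ∑ d, g d + 2 * c * Fintype.card K

/-- (M8) `K_{3,3}` is not planar.  Pull back to `Fin 3 ⊕ Fin 3`, take the exact `M` of the complete
bipartite graph (18 darts, ends determine the dart).  Orbits of `φ = rot ∘ inv` have at least 4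
elements: `φ` changes the side, so odd powers have no fixed points; `φ (φ d) = d` would give
`src (inv (φ d)) = src d`, so `φ d = inv d`, so `rot (inv d) = inv d` and the vertex `src (inv d)` would
have only one dart.  (M7) with `g = 1`, `c = 4`: `88 ≤ 36 + 48`, false. -/
def NoK33 : Prop :=
  ∀ (V : Type) (G : SimpleGraph V), IsPlanar G → ∀ p q : Fin 3 → V,
    Function.Injective p → Function.Injective q → (∀ i j, p i ≠ q j) → ¬ ∀ i j, G.Adj (p i) (q j)

/-- Normalised star graphs: all edges are spokes or join leaves of different stars. -/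
structure StarG {K : Type} (G : SimpleGraph (SV K)) : Prop where
  spoke : ∀ k l, G.Adj (Sum.inr k) (Sum.inl (k, l))
  cc : ∀ k k', ¬ G.Adj (Sum.inr k) (Sum.inr k')
  cl : ∀ k v, G.Adj (Sum.inr k) (Sum.inl v) → v.1 = k
  ll : ∀ v v', G.Adj (Sum.inl v) (Sum.inl v') → v.1 ≠ v'.1

/-- The darts between two leaves. -/
def IsOut {K : Type} (M : RotSys (SV K)) (d : M.D) : Prop :=
  (∃ v, M.src d = Sum.inl v) ∧ ∃ v, M.src (M.inv d) = Sum.inl v

/-- The type of the darts between two leaves. -/
abbrev Out {K : Type} (M : RotSys (SV K)) : Type := {d : M.D // IsOut M d}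

/-- The next dart between leaves at the same star: go through the centre if the next dart at the leaf
is the spoke. -/
def StepH {K : Type} (M : RotSys (SV K)) (d e : M.D) : Prop :=
  (IsOut M (M.rot d) ∧ e = M.rot d) ∨
    (¬ IsOut M (M.rot d) ∧ e = M.rot (M.inv (M.rot (M.inv (M.rot d)))))

/-- `M` is the exact rotation system of the star graph `G` and every leaf has a neighbour leaf. -/
structure Good {K : Type} (G : SimpleGraph (SV K)) (M : RotSys (SV K)) : Prop where
  star : StarG G
  adj : ∀ u v, G.Adj u v ↔ ∃ d, M.src d = u ∧ M.src (M.inv d) = v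
  inj : ∀ d e, M.src d = M.src e → M.src (M.inv d) = M.src (M.inv e) → d = e
  nbr : ∀ v : K × Fin 4, ∃ v', G.Adj (Sum.inl v) (Sum.inl v')

/-- (M9) The permutation of the darts between leaves and the blocks.  At the leaf `v` of the star `k`
there is exactly one spoke `s v` (the dart from `inl v` to `inr k`), the other darts at `v` are out
darts, and there is at least one.  At the centre `inr k` there are exactly 4 darts, to the four leaves.
Step: if `rot d` is an out dart, `rotH d = rot d`; if not, `rot d = s v`, `inv (s v)` is a dart at the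
centre, `rot` of it is the dart to the next leaf `nx v`, its `inv` is `s (nx v)`, and
`rot (s (nx v)) =: first (nx v)` is an out dart (it is at the leaf `nx v` and different from `s (nx v)`
because that leaf has at least 2 darts).  Injective: `rot d = rot d'`, or both through the centre, or
`rot d = rot (s v')`, impossible since `d` is an out dart.  With `N` the period of `s v` under `rot`
(= number of darts at `v`, at least 2), `first v = rot (s v)` and `n v = N - 2`: the darts
`rot ^ (i + 1) (s v)`, `i ≤ n v`, are the out darts at `v`, `rotH ^ i (first v) = rot ^ (i + 1) (s v)`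
for `i ≤ n v`, and `rotH ^ (n v + 1) (first v) = first (nx v)`.  The period of a dart at the centre is
4, so `v, nx v, nx (nx v), nx (nx (nx v))` are different and `nx ^ 4 v = v`. -/
def Blocks : Prop :=
  ∀ (K : Type) (G : SimpleGraph (SV K)) (M : RotSys (SV K)), Good G M →
    ∃ (rotH : Equiv.Perm (Out M)) (lf : Out M → K × Fin 4)
      (first : K × Fin 4 → Out M) (n : K × Fin 4 → ℕ) (nx : K × Fin 4 → K × Fin 4),
      (∀ d : Out M, StepH M (d : M.D) ((rotH d : Out M) : M.D)) ∧
      (∀ d : Out M, M.src (d : M.D) = Sum.inl (lf d)) ∧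
      (∀ d, (lf (rotH d)).1 = (lf d).1) ∧
      (∀ v i, i ≤ n v → lf ((rotH ^ i) (first v)) = v) ∧
      (∀ v i j, i ≤ n v → j ≤ n v → (rotH ^ i) (first v) = (rotH ^ j) (first v) → i = j) ∧
      (∀ d, ∃ i, i ≤ n (lf d) ∧ d = (rotH ^ i) (first (lf d))) ∧
      (∀ v, (rotH ^ (n v + 1)) (first v) = first (nx v)) ∧
      (∀ v, (nx v).1 = v.1 ∧ nx v ≠ v ∧ nx (nx v) ≠ v ∧ nx (nx (nx v)) ≠ v ∧
        nx (nx (nx (nx v))) = v)

/-- (M10) Sphericity of the contracted system.  Given `z` on the out darts extend it to all darts by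
`z (spoke of v, both darts) = ∑ z` over the out darts at `v`.  It is even at the leaves, and at the
centre of `k` the sum is the sum of `z` over all out darts of the star, `0`.  Take `c`.  For an out dart
`d`: if `rot (inv d)` is an out dart, `c (rotH (inv d)) = c (rot (inv d)) = c d`; if not, use
`c (rot (inv x)) = c x` three times: for `d`, for `rot (inv d)` and for
`rot (inv (rot (inv d)))`. -/
def SphH : Prop :=
  ∀ (K : Type) [Fintype K] [DecidableEq K] (G : SimpleGraph (SV K)) (M : RotSys (SV K)),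
    Good G M → M.Spherical →
    ∀ (rotH : Equiv.Perm (Out M)) (lf : Out M → K × Fin 4) (inv : Out M → Out M)
      [Fintype (Out M)],
      (∀ d : Out M, StepH M (d : M.D) ((rotH d : Out M) : M.D)) →
      (∀ d : Out M, M.src (d : M.D) = Sum.inl (lf d)) →
      (∀ d : Out M, ((inv d : Out M) : M.D) = M.inv (d : M.D)) →
      ∀ z : Out M → ZMod 2, (∀ d, z (inv d) = z d) →
        (∀ k : K, ∑ d ∈ univ.filter (fun d => (lf d).1 = k), z d = 0) →
        ∃ c : Out M → ZMod 2, (∀ d, c (rotH (inv d)) = c d) ∧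
          ∀ d, z d = c d + c (inv d)

/-- (M11) Packaging of (M6), (M9), (M10). -/
def MkKMap : Prop :=
  ∀ (K : Type) [Fintype K] [DecidableEq K] (G : SimpleGraph (SV K)), IsPlanar G → StarG G →
    (∀ v : K × Fin 4, ∃ v', G.Adj (Sum.inl v) (Sum.inl v')) →
    ∃ M : KMap K, ∀ v v', G.Adj (Sum.inl v) (Sum.inl v') ↔ ∃ d, M.lf d = v ∧ M.lf (M.inv d) = v'

open Classical in
/-- (M12) Count.  (M7) with `φ = rot ∘ inv`, `p d = (lf d).1`, `g d = 2` plus `1` if `φ (φ d) = d`, and
`c = 6`: `φ d ≠ d` since `φ d` is at the star of `inv d`; an orbit with `φ (φ d) = d` has the two elements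
`d, φ d` of weight 3, and in the other orbits `d, φ d, φ (φ d)` are different.  `d ↦ inv d` is a
bijection from the darts with `φ (φ d) = d` onto the corners of type `Two`.  So
`6 (card D + 4) ≤ 2 (2 card D + #Two) + 12 card K`, so `card D - #Two ≤ 6 card K - 12`. -/
def Count : Prop :=
  ∀ (K : Type) [Fintype K] [DecidableEq K] [Nonempty K] (M : KMap K),
    ∃ k : K, (univ.filter (fun d => (M.lf d).1 = k ∧ ¬ M.Two d)).card ≤ 5

/-- Every leaf has targets in two different stars. -/
def KMap.Rich {K : Type} [Fintype K] [DecidableEq K] (M : KMap K) : Prop :=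
  ∀ v, ∃ d e, M.lf d = v ∧ M.lf e = v ∧ (M.lf (M.inv d)).1 ≠ (M.lf (M.inv e)).1

/-- The last dart of the block of `v`. -/
def KMap.last {K : Type} [Fintype K] [DecidableEq K] (M : KMap K) (v : K × Fin 4) : M.D :=
  (M.rot ^ M.n v) (M.first v)

/-- Exactly one inner corner of the block of `v` is not `Two`. -/
def KMap.OneJ {K : Type} [Fintype K] [DecidableEq K] (M : KMap K) (v : K × Fin 4) : Prop :=
  ∃ j, j < M.n v ∧ ∀ i, i < M.n v → (M.Two ((M.rot ^ i) (M.first v)) ↔ i ≠ j)

/-- (M13) If the predecessor `e` and the successor of `d` are not darts of the leaf of `d`, the block of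
that leaf is `{d}`: `d = rot ^ i (first v)` with `i ≤ n v`; `i = 0` (otherwise the predecessor
`rot ^ (i-1) (first v)` is at `v`) and `n v = 0` (otherwise `rot d` is at `v`). -/
def Single : Prop :=
  ∀ (K : Type) [Fintype K] [DecidableEq K] (M : KMap K) (d e : M.D), M.rot e = d →
    M.lf e ≠ M.lf d → M.lf (M.rot d) ≠ M.lf d → ∀ d', M.lf d' = M.lf d → d' = d

/-- (M14) No three darts in a run.  Let `d0, d1, d2` be the darts `i, i+1, i+2` of the block of `v`, the
corners at `d0` and `d1` of type `Two`: `rot (inv d1) = inv d0`, `rot (inv d2) = inv d1`.  The targets of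
`d0, d1, d2` are different leaves (same source, `inj`, and `d0, d1, d2` are different by `pow_inj`), so by
(M13) the block of the target `u` of `d1` is `{inv d1}`, against `Rich` at `u`. -/
def NoThree : Prop :=
  ∀ (K : Type) [Fintype K] [DecidableEq K] (M : KMap K), M.Rich → ∀ v i, i + 2 ≤ M.n v →
    ¬ (M.Two ((M.rot ^ i) (M.first v)) ∧ M.Two ((M.rot ^ (i + 1)) (M.first v)))

open Classical in
/-- (M15) Choice of three leaves.  Every block has an inner corner that is not `Two` (otherwise all
targets of the leaf are in one star: `Two d` gives that `inv d = rot (inv (rot d))` and `inv (rot d)` are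
at the same star; against `Rich`).  The four leaves `u, nx u, nx (nx u), nx (nx (nx u))` of `k` have
together at most 5 corners (inner or last) that are not `Two`, so the number
(inner non-Two corners - 1 + [last corner is not Two]) is 0 for at least three consecutive ones:
call the exceptional one (if any) `u` and `v1 = nx u`. -/
def GoodLeaf : Prop :=
  ∀ (K : Type) [Fintype K] [DecidableEq K] (M : KMap K), M.Rich → ∀ k : K,
    (univ.filter (fun d => (M.lf d).1 = k ∧ ¬ M.Two d)).card ≤ 5 →
    ∃ v1 : K × Fin 4, v1.1 = k ∧ M.OneJ v1 ∧ M.OneJ (M.nx v1) ∧ M.OneJ (M.nx (M.nx v1)) ∧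
      M.Two (M.last v1) ∧ M.Two (M.last (M.nx v1))

/-- (M16) Runs.  With `j` from `OneJ`: the star of the target is the same for the darts `0..j` and for
the darts `j+1..n v` of the block (`Two` corners do not change it).  Strong form: the darts with the
star of the target of `first v` are exactly the ones with index `≤ j`, and so on, under `Rich`
(the two stars are different). -/
def Runs : Prop :=
  ∀ (K : Type) [Fintype K] [DecidableEq K] (M : KMap K), M.Rich → ∀ v j, j < M.n v →
    (∀ i, i < M.n v → (M.Two ((M.rot ^ i) (M.first v)) ↔ i ≠ j)) →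
    (M.lf (M.inv (M.first v))).1 ≠ (M.lf (M.inv (M.last v))).1 ∧
    (∀ i, i ≤ j → (M.lf (M.inv ((M.rot ^ i) (M.first v)))).1 = (M.lf (M.inv (M.first v))).1) ∧
    (∀ i, j < i → i ≤ M.n v →
      (M.lf (M.inv ((M.rot ^ i) (M.first v)))).1 = (M.lf (M.inv (M.last v))).1)

/-- (M17) Common neighbours, see (9) of the paper proof.  `v' = nx v`.  By (M16) and (M14) the darts of
`v` with target in the star of the target of `last v` are `last v` and possibly the dart before it
(case E1: index `n v - 1`, corner `Two`); the darts of `v'` with target in that star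
(= the star of the target of `first v'`, because `last v` is `Two` and `rot (last v) = first v'`) are
`first v'` and possibly `rot (first v')` (case E2: the corner at `first v'` is `Two` and inner). -/
def Common : Prop :=
  ∀ (K : Type) [Fintype K] [DecidableEq K] (M : KMap K), M.Rich → ∀ v, M.OneJ v →
    M.OneJ (M.nx v) → M.Two (M.last v) →
    ∀ d e d' e', M.lf d = v → M.lf e = M.nx v → M.lf (M.inv d) = M.lf (M.inv e) →
      (M.lf (M.inv d)).1 = (M.lf (M.inv (M.last v))).1 →
      M.lf d' = v → M.lf e' = M.nx v → M.lf (M.inv d') = M.lf (M.inv e') →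
      (M.lf (M.inv d')).1 = (M.lf (M.inv (M.last v))).1 → M.lf (M.inv d) = M.lf (M.inv d')

/-- (M18) Configuration lemma for normalised star graphs: (M11), (M12), (M15), (M16), (M17).  For
`v1, v2 = nx v1, v3 = nx v2`: `k1, k2` = stars of the targets of `first v1, last v1`; `k2` is also the star
of the target of `first v2 = rot (last v1)`; `k3` of `last v2` and of `first v3`, `k4` of `last v3`. -/
def ConfigL : Prop :=
  ∀ (K : Type) [Fintype K] [DecidableEq K] [Nonempty K] (G : SimpleGraph (SV K)), IsPlanar G →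
    StarG G →
    (∀ v : K × Fin 4, ∃ v' v'', G.Adj (Sum.inl v) (Sum.inl v') ∧ G.Adj (Sum.inl v) (Sum.inl v'') ∧
      v'.1 ≠ v''.1) →
    Config (fun v v' => G.Adj (Sum.inl v) (Sum.inl v'))

/-- All stars in `S` are complete. -/
def Spokes {K : Type} (G : SimpleGraph (SV K)) (S : Finset K) : Prop :=
  ∀ k ∈ S, ∀ l, G.Adj (Sum.inr k) (Sum.inl (k, l))

/-- The configuration relative to a set `S` of stars. -/
def ConfigOn {K : Type} (G : SimpleGraph (SV K)) (S : Finset K) (k : K) : Prop :=
  ∃ (l1 l2 l3 : Fin 4) (k1 k2 k3 k4 : K), k1 ∈ S ∧ k2 ∈ S ∧ k3 ∈ S ∧ k4 ∈ S ∧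
    l1 ≠ l2 ∧ l2 ≠ l3 ∧ l1 ≠ l3 ∧
    k1 ≠ k ∧ k2 ≠ k ∧ k3 ≠ k ∧ k4 ≠ k ∧ k1 ≠ k2 ∧ k2 ≠ k3 ∧ k3 ≠ k4 ∧
    (∀ v : K × Fin 4, v.1 ∈ S → v.1 ≠ k → G.Adj (Sum.inl (k, l1)) (Sum.inl v) →
      v.1 = k1 ∨ v.1 = k2) ∧
    (∀ v : K × Fin 4, v.1 ∈ S → v.1 ≠ k → G.Adj (Sum.inl (k, l2)) (Sum.inl v) →
      v.1 = k2 ∨ v.1 = k3) ∧
    (∀ v : K × Fin 4, v.1 ∈ S → v.1 ≠ k → G.Adj (Sum.inl (k, l3)) (Sum.inl v) →
      v.1 = k3 ∨ v.1 = k4) ∧
    (∀ m m', G.Adj (Sum.inl (k, l1)) (Sum.inl (k2, m)) → G.Adj (Sum.inl (k, l2)) (Sum.inl (k2, m)) →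
      G.Adj (Sum.inl (k, l1)) (Sum.inl (k2, m')) → G.Adj (Sum.inl (k, l2)) (Sum.inl (k2, m')) →
      m = m') ∧
    (∀ m m', G.Adj (Sum.inl (k, l2)) (Sum.inl (k3, m)) → G.Adj (Sum.inl (k, l3)) (Sum.inl (k3, m)) →
      G.Adj (Sum.inl (k, l2)) (Sum.inl (k3, m')) → G.Adj (Sum.inl (k, l3)) (Sum.inl (k3, m')) →
      m = m')

/-- The leaf `(k, l)` has neighbours in at most one other star of `S`. -/
def Poor {K : Type} (G : SimpleGraph (SV K)) (S : Finset K) (k : K) (l : Fin 4) : Prop :=
  ∀ v v' : K × Fin 4, v.1 ∈ S → v'.1 ∈ S → v.1 ≠ k → v'.1 ≠ k →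
    G.Adj (Sum.inl (k, l)) (Sum.inl v) → G.Adj (Sum.inl (k, l)) (Sum.inl v') → v.1 = v'.1

/-- (M19) Configuration lemma in a planar graph.  Let `K' = {k // k ∈ S}` and let `G'` on `SV K'` have
as edges the spokes and the edges of `G` between leaves of different stars; `G'` is a subgraph of the
pull-back of `G` along the inclusion `SV K' ↪ SV K`, so it is planar by (M4); use (M18). -/
def ConfigS : Prop :=
  ∀ (K : Type) [DecidableEq K] (G : SimpleGraph (SV K)) (S : Finset K), IsPlanar G → Spokes G S →
    S.Nonempty → (∀ k ∈ S, ∀ l, ¬ Poor G S k l) → ∃ k ∈ S, ConfigOn G S k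

/-- (M20) Forests: adding a vertex.  A cycle in `res G (insert v T)` passes through `v` (otherwise it is
in `res G T`), its two neighbours `a ≠ b` of `v` are joined by the rest of the cycle in `res G T`. -/
def ForestAdd : Prop :=
  ∀ (V : Type) (G : SimpleGraph V) (T : Set V) (v : V), v ∉ T → (res G T).IsAcyclic →
    (∀ a b, a ∈ T → b ∈ T → G.Adj v a → G.Adj v b → a ≠ b → ¬ (res G T).Reachable a b) →
    (res G (insert v T)).IsAcyclic

/-- (M21) Forests: subgraphs and new edges.  `G ≤ H` on `T`, `H` acyclic on `T`.  Then `G` is acyclic on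
`T`, an edge `a b` of `H` whose ends are connected in `G` is an edge of `G` (it is a bridge of
`res H T`), and `H` has no triangle on `T`. -/
def ForestSub : Prop :=
  ∀ (V : Type) (G H : SimpleGraph V) (T : Set V),
    (∀ a b, a ∈ T → b ∈ T → G.Adj a b → H.Adj a b) → (res H T).IsAcyclic →
    (res G T).IsAcyclic ∧
    (∀ a b, a ∈ T → b ∈ T → H.Adj a b → (res G T).Reachable a b → G.Adj a b) ∧
    (∀ a b c, a ∈ T → b ∈ T → c ∈ T → H.Adj a b → H.Adj b c → H.Adj a c → False)

/-- The vertices of the star `k`. -/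
def starSet {K : Type} (k : K) : Set (SV K) := {x | x = Sum.inr k ∨ ∃ l, x = Sum.inl (k, l)}

/-- (M22) Contraction of the star `k` into a neighbour leaf `w` of another star: contract the leaf
`(k, l)` into `w`, then the centre, then the other three leaves (five times (M5)); the graph
`contr G (starSet k) (inl w)` is contained in the result. -/
def StarContr : Prop :=
  ∀ (K : Type) (G : SimpleGraph (SV K)) (k : K) (l : Fin 4) (w : K × Fin 4),
    (∀ l, G.Adj (Sum.inr k) (Sum.inl (k, l))) → w.1 ≠ k →
    G.Adj (Sum.inl (k, l)) (Sum.inl w) → IsPlanar G → IsPlanar (contr G (starSet k) (Sum.inl w))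

/-- The set of chosen leaves. -/
def TS {K : Type} (S : Finset K) (t : K → Fin 4) : Set (SV K) := {x | ∃ k ∈ S, x = Sum.inl (k, t k)}

/-- (M23) End game, part (c) of the paper proof, from (M5), (M8), (M20), (M21), (M22). -/
def EndGame : Prop :=
  ∀ (K : Type) [DecidableEq K] (G : SimpleGraph (SV K)) (S : Finset K) (k : K), k ∈ S →
    IsPlanar G → Spokes G S → ConfigOn G S k →
    (∀ H : SimpleGraph (SV K), IsPlanar H → Spokes H (S.erase k) →
      ∃ t : K → Fin 4, (res H (TS (S.erase k) t)).IsAcyclic) →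
    ∃ t : K → Fin 4, (res G (TS S t)).IsAcyclic

/-- (M24) Theorem A: induction on the number of stars, from (M19), (M20), (M23).  If some leaf `(k, l)`,
`k ∈ S`, is `Poor`, take `t` for `S.erase k` and `G` and change it to `t k = l`: two neighbours of
`(k, l)` in `TS (S.erase k) t` are in the same star, so equal.  Otherwise (M19) and (M23). -/
def ThmA : Prop :=
  ∀ (K : Type) [DecidableEq K] (G : SimpleGraph (SV K)) (S : Finset K), IsPlanar G → Spokes G S →
    ∃ t : K → Fin 4, (res G (TS S t)).IsAcyclic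

end Pool.Agent.ICP
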