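import Pool.Agent.ICP.St
import Pool.Agent.ICP.Defs2

set_option autoImplicit false

namespace Pool.Agent.ICP

open Finset

/-- (M25) The chosen ends form an induced forest of `G`.  Let `Gx` be the simple graph of the
planarization on `V ⊕ I` (`a ≠ b` and some dart from `a` to `b`), `f : SV I ↪ V ⊕ I`,
`f (inl (i, j)) = inl (cr i j)`, `f (inr i) = inr i`.  A cycle of `G.induce A` with
`A = {cr i (t i)}` would give one in `res (Gx.comap f) (TS S t)`: the edges of `G` inside `A` are
uncrossed, since `u = cr i j`, `v = cr i (j + 2)` both in `A` give `j = t i` and `j + 2 = t i` by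
`indep`. (`S` = all of `I`, which is finite because `i ↦ e i 0` is injective.)
So `G.induce A` embeds in `res (Gx.comap f) (TS univ t)`: use `SimpleGraph.IsAcyclic.comap` with
the map `x ↦ inl (i, t i)` where `x = cr i (t i)`. -/
def FinForest : Prop :=
  ∀ (V : Type) (G : SimpleGraph V) (Dr : ICDrawing G) (f : SV Dr.I ↪ V ⊕ Dr.I)
    (Gx : SimpleGraph (V ⊕ Dr.I)) (S : Finset Dr.I) (t : Dr.I → Fin 4),
    (∀ i j, f (Sum.inl (i, j)) = Sum.inl (Dr.cr i j)) → (∀ i, f (Sum.inr i) = Sum.inr i) →
    (∀ a b, Gx.Adj a b ↔ a ≠ b ∧ ∃ d, Dr.M.src d = a ∧ Dr.M.src (Dr.M.inv d) = b) →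
    (∀ i, i ∈ S) → (res (Gx.comap f) (TS S t)).IsAcyclic →
    (G.induce {x | ∃ i, x = Dr.cr i (t i)}).IsAcyclic

/-- (M26) The rest is planar.  For all `s : Finset I` there is a planar graph `H` on `V ⊕ I` with
(i) `H.Adj (inl u) (inl v)` if `u ≠ v` and a dart leads from `inl u` to `inl v`;
(ii) `H.Adj (inl (cr i (t i + 1))) (inl (cr i (t i + 3)))` for `i ∈ s`;
(iii) `H.Adj (inr i) (inl (cr i j))` for `i ∉ s`, all `j`.
Induction on `s`: for a new `i` contract `inr i` into `inl (cr i (t i + 1))` with `Con1`.
For `s = univ` (`I` is finite, `i ↦ e i 0` is injective) pull back along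
`Aᶜ ↪ V ⊕ I` with `Comap`; `G.induce Aᶜ` is a subgraph: a crossed edge
`cr i j, cr i (j + 2)` with both ends outside `A` has `j = t i + 1` or `j = t i + 3`. -/
def FinPlanar : Prop :=
  ∀ (V : Type) (G : SimpleGraph V) (Dr : ICDrawing G) (t : Dr.I → Fin 4),
    IsPlanar (G.induce {x | ∃ i, x = Dr.cr i (t i)}ᶜ)

/-- The final theorem. -/
def Main : Prop :=
  ∀ (V : Type) (G : SimpleGraph V), IsICPlanar G →
    ∃ A : Set V, (G.induce A).IsAcyclic ∧ IsPlanar (G.induce Aᶜ)

/-- (M27) For connected systems `Spherical` is Euler's formula `V + F = E + 2` (twice it, with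
`card D = 2 E`).  Over `ZMod 2`, `W = D → ZMod 2`: `Sym = {z | z ∘ inv = z}` has dimension
`card D / 2`; `Z` = the even elements of `Sym` has dimension `E - V + 1`: the boundary map
`∂ : Sym → (vertices → ZMod 2)` has as range exactly the functions with sum `0`
(the sum is `0` since darts come in pairs; conversely for connected `M` the functions `1_u + 1_v` are in
the range: the set of `v` for which it is (for a fixed `u`) is closed under edges).
`B = {c + c ∘ inv | c constant on faces}` is contained in `Z` (`c (inv d) = c (rot (inv (inv d))) =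
c (rot d)`, so the sum over a vertex is `∑ c d + ∑ c (rot d) = 0`) and has dimension `F - 1`: the kernel of
`c ↦ c + c ∘ inv` on the functions constant on faces consists of the constants (such a `c` is invariant
under `inv` and under `rot`).  So `F - 1 ≤ E - V + 1`, with equality iff `B = Z` iff spherical. -/
def EulerIff : Prop :=
  ∀ (V : Type) (M : RotSys V), M.Conn →
    (M.Spherical ↔ 2 * M.nV + 2 * M.nF = Fintype.card M.D + 4)

end Pool.Agent.ICP
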